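import Pool.Agent.NPC.Defs

/-!
# Flips of pockets of simple polygons: definitions

A closed polygonal curve with `n` vertices is given by the sequence `v 0, …, v (n - 1)` of its
vertices (values of `v` at other arguments play no role); indices are read modulo `n`.
-/

namespace Pool.Agent.Helper480_Flip

open Pool.Agent.NPC

/-- The points of the plane. -/
abbrev Pt := ℝ × ℝ

/-- Twice the signed area of the triangle `a b c`. It is positive, zero or negative according to
whether `c` lies to the left of, on, or to the right of the directed line from `a` to `b`. -/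
def cross (a b c : Pt) : ℝ := (b.1 - a.1) * (c.2 - a.2) - (c.1 - a.1) * (b.2 - a.2)

/-- The mirror image of the point `p` in the line through the two different points `a` and `b`:
twice the foot of the perpendicular from `p` to the line, minus `p`. -/
noncomputable def mirror (a b p : Pt) : Pt :=
  let t := ((p.1 - a.1) * (b.1 - a.1) + (p.2 - a.2) * (b.2 - a.2)) /
    ((b.1 - a.1) ^ 2 + (b.2 - a.2) ^ 2)
  (2 * (a.1 + t * (b.1 - a.1)) - p.1, 2 * (a.2 + t * (b.2 - a.2)) - p.2)

/-- The `i`-th edge of the closed polygonal curve with vertices `v 0, …, v (n - 1)`: the segment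
from the `i`-th vertex to the next one. -/
def edge (n : ℕ) (v : ℕ → Pt) (i : ℕ) : Set Pt := segment ℝ (v i) (v ((i + 1) % n))

/-- The closed polygonal curve is a simple polygon: it has at least three vertices, they are
pairwise different, and two different edges have no common point other than a common endpoint. -/
def IsSimple (n : ℕ) (v : ℕ → Pt) : Prop :=
  3 ≤ n ∧ (∀ i < n, ∀ j < n, v i = v j → i = j) ∧
  ∀ i < n, ∀ j < n, i ≠ j →
    edge n v i ∩ edge n v j ⊆ {v i, v ((i + 1) % n)} ∩ {v j, v ((j + 1) % n)}

/-- The segment from `v i` to `v j` is an edge of the convex hull of the polygon: all vertices lie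
in one of the closed half-planes of the line through `v i` and `v j`, and those on this line lie
between `v i` and `v j`. -/
def IsHullEdge (n : ℕ) (v : ℕ → Pt) (i j : ℕ) : Prop :=
  v i ≠ v j ∧
  ((∀ k < n, 0 ≤ cross (v i) (v j) (v k)) ∨ (∀ k < n, cross (v i) (v j) (v k) ≤ 0)) ∧
  ∀ k < n, cross (v i) (v j) (v k) = 0 → v k ∈ segment ℝ (v i) (v j)

/-- `v i` is a vertex of the convex hull of the polygon: an endpoint of one of its edges. -/
def IsHullVertex (n : ℕ) (v : ℕ → Pt) (i : ℕ) : Prop := ∃ j < n, IsHullEdge n v i j

/-- The polygon is convex: for each of its edges, all vertices lie in one of the closed half-planes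
of the line through this edge. -/
def IsConvex (n : ℕ) (v : ℕ → Pt) : Prop :=
  ∀ i < n, (∀ k < n, 0 ≤ cross (v i) (v ((i + 1) % n)) (v k)) ∨
    (∀ k < n, cross (v i) (v ((i + 1) % n)) (v k) ≤ 0)

/-- There is a pocket of the polygon with lid from `v i` to `v (i + l)`, whose subchain is
`v i, v (i + 1), …, v (i + l)` (indices modulo `n`): the lid is an edge of the convex hull, it is
not an edge of the polygon, the subchain has no vertex of the convex hull besides its two ends,
and it does not lie on the lid. -/
def IsPocket (n : ℕ) (v : ℕ → Pt) (i l : ℕ) : Prop :=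
  i < n ∧ 2 ≤ l ∧ l + 2 ≤ n ∧ IsHullEdge n v i ((i + l) % n) ∧
  (∀ r, 0 < r → r < l → ¬ IsHullVertex n v ((i + r) % n)) ∧
  ∃ r, 0 < r ∧ r < l ∧ cross (v i) (v ((i + l) % n)) (v ((i + r) % n)) ≠ 0

/-- An allowed flip turns the polygon `v` into the polygon `w`: for some pocket of `v`, the
vertices of the subchain are replaced by their mirror images in the line through the lid, the other
vertices are unchanged, and the resulting polygon is simple. -/
def Flip (n : ℕ) (v w : ℕ → Pt) : Prop :=
  ∃ i l, IsPocket n v i l ∧
    (∀ r, 0 < r → r < l →
      w ((i + r) % n) = mirror (v i) (v ((i + l) % n)) (v ((i + r) % n))) ∧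
    (∀ r, l ≤ r → r ≤ n → w ((i + r) % n) = v ((i + r) % n)) ∧
    IsSimple n w

/-- Some sequence of exactly `t` allowed flips, one after the other, convexifies the polygon. -/
def ConvexifiesIn (n : ℕ) : ℕ → (ℕ → Pt) → Prop
  | 0, v => IsConvex n v
  | t + 1, v => ∃ w, Flip n v w ∧ ConvexifiesIn n t w

/-- The vertices of a polygon given by the list of its vertices, with rational coordinates. -/
noncomputable def vertices (P : List (ℚ × ℚ)) (i : ℕ) : Pt :=
  (((P.getD i (0, 0)).1 : ℝ), ((P.getD i (0, 0)).2 : ℝ))

/-- The decision problem SHORTEST: the input is a simple polygon `P`, given by the list of its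
vertices with rational coordinates, and a number `k`; is there a sequence of at most `k` flips
which convexifies `P`? -/
def Shortest (I : List (ℚ × ℚ) × ℕ) : Prop :=
  IsSimple I.1.length (vertices I.1) ∧ ∃ t ≤ I.2, ConvexifiesIn I.1.length t (vertices I.1)

/-- The decision problem LONGEST: the input is a simple polygon `P`, given by the list of its
vertices with rational coordinates, and a number `k`; is there a sequence of at least `k` flips
which convexifies `P`? -/
def Longest (I : List (ℚ × ℚ) × ℕ) : Prop :=
  IsSimple I.1.length (vertices I.1) ∧ ∃ t, I.2 ≤ t ∧ ConvexifiesIn I.1.length t (vertices I.1)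

end Pool.Agent.Helper480_Flip
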