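import Pool.Agent.Helper480_Flip.Ineq

/-!
# The vertices below the hull, and bounds for all heights
-/

namespace Pool.Agent.Helper480_Flip

namespace Par

variable {p : Par} {s : St} {Y : ℝ}

theorem kinds (m k : ℕ) (hk : k ≤ 3 * m + 6) : k = 0 ∨ (∃ t, t ≤ m ∧ k = 3 * t + 1) ∨
    (∃ t, t < m ∧ k = 3 * t + 2) ∨ (∃ t, t < m ∧ k = 3 * t + 3) ∨ k = 3 * m + 2 ∨
    k = 3 * m + 3 ∨ k = 3 * m + 4 ∨ k = 3 * m + 5 ∨ k = 3 * m + 6 := by
  by_cases h0 : k = 0
  · exact Or.inl h0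
  · by_cases h1 : k ≤ 3 * m + 1
    · right
      have : k = 3 * ((k - 1) / 3) + 1 ∨ k = 3 * ((k - 1) / 3) + 2 ∨
          k = 3 * ((k - 1) / 3) + 3 := by omega
      rcases this with h | h | h
      · exact Or.inl ⟨_, by omega, h⟩
      · exact Or.inr (Or.inl ⟨_, by omega, h⟩)
      · exact Or.inr (Or.inr (Or.inl ⟨_, by omega, h⟩))
    · omega

theorem fC_e0 (h : s.en = En.e0) :
    p.fC s = if (p.m + s.d) % 2 = 0 then p.U s.c s.d - p.κ else p.U s.c s.d - p.H + p.κ := by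
  unfold fC; rw [h]

theorem fO_e0 (h : s.en = En.e0) : p.fO s = 0 := by unfold fO; rw [h]

theorem fQ_e0 (h : s.en = En.e0) : p.fQ s = 2 * p.q1 := by unfold fQ; rw [h]

/-- the folded part is low as seen from `O` -/
theorem beyond (hok : p.Ok Y) (hv : p.Valid s) (hd : s.d < p.m) {k : ℕ} (h1 : 3 * s.d + 4 ≤ k)
    (h2 : k ≤ 3 * p.m + 2) :
    ∃ u, p.F s k = -p.x k * u ∧ u ≤ p.U s.c s.d + p.h s.d - 1 ∧ 1 ≤ -p.x k := by
  have hH := hok.hH
  have hhd := p.h_ge hd.le
  have hκ2 := hok.κ2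
  have hκH := hok.κH
  rcases kinds p.m k (by omega) with rfl | ⟨t, ht, rfl⟩ | ⟨t, ht, rfl⟩ | ⟨t, ht, rfl⟩ | rfl | rfl |
    rfl | rfl | rfl
  · omega
  · refine ⟨p.uS s t, ?_, ?_, ?_⟩
    · rw [p.F_s s ht, p.x_s ht]; ring
    · by_cases hpar : (t + s.d) % 2 = 0
      · rw [uS_even (by omega) hpar]; linarith
      · rw [uS_odd (by omega) hpar]; linarith
    · rw [p.x_s ht]; have := six_pos (p.m - t); linarith
  · have := hok.δnn t
    have := hok.δle t
    refine ⟨p.uA s t, ?_, ?_, ?_⟩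
    · rw [p.F_a s ht, p.x_a ht.le]; ring
    · by_cases hpar : (t + s.d) % 2 = 0
      · rw [uA_even (by omega) hpar]; linarith
      · rw [uA_odd (by omega) hpar]; linarith
    · rw [p.x_a ht.le]; have := six_pos (p.m - t); linarith
  · have h3 := p.h_anti (t := s.d) (r := t) (by omega)
    have h4 := p.h_ge ht.le
    refine ⟨p.uP s t, ?_, ?_, ?_⟩
    · rw [p.F_p s ht, p.x_p ht]; ring
    · by_cases hpar : (t + s.d) % 2 = 0
      · rw [uP_even (by omega) hpar]; linarith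
      · rw [uP_odd (by omega) hpar]; linarith
    · rw [p.x_p ht]; have := six_pos (p.m - (t + 1)); linarith
  · refine ⟨p.fC s, ?_, ?_, ?_⟩
    · rw [p.F_c s, p.x_a le_rfl, Nat.sub_self]; ring
    · rw [fC_e0 (hv.en0 hd)]
      split_ifs <;> linarith
    · rw [p.x_a le_rfl, Nat.sub_self]; norm_num
  · omega
  · omega
  · omega
  · omega

theorem cp_dent (hok : p.Ok Y) (hv : p.Valid s) {i j k : ℕ} (h : p.CP s i j) (hik : i < k)
    (hkj : k < j) :
    (p.x j - p.x i) * (p.F s k - p.F s i) - (p.x k - p.x i) * (p.F s j - p.F s i) ≤ -(1 / 4) := by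
  have hH := hok.hH
  have hdm := hv.dm
  have hκ2 := hok.κ2
  have hκH := hok.κH
  have he2 := hok.e2
  obtain ⟨e3, e4, e5, e6, e7, e8⟩ := hok.fin s.c
  have sq : ∀ {Λ e : ℝ}, 1 ≤ Λ → 1 / 4 ≤ e → 1 / 4 ≤ Λ * (Λ * e) := fun h1 h2 =>
    scale_le h1 (scale_le h1 h2)
  cases h with
  | l => omega
  | sa t ht htd hal => omega
  | sp t ht htd hal =>
    have : k = 3 * t + 2 := by omega
    subst this
    rw [p.x_s ht.le, p.x_a ht.le, p.x_p ht, p.F_s s ht.le, p.F_a s ht, p.F_p s ht, uS_le htd,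
      uA_false htd hal, uP_al_false hv htd hal, pow_split ht]
    have h1 := p.h_ge ht.le
    have h2 := hok.δnn t
    have := sq (six_pos (p.m - (t + 1)))
      (show (1:ℝ) / 4 ≤ 48 * p.δ t + 24 * p.h t by linarith)
    linarith
  | ap t ht htd hal hpi => omega
  | as t ht htd hal hpi =>
    have : k = 3 * t + 3 := by omega
    subst this
    rw [p.x_a ht.le, p.F_a s ht, uA_true htd.le hal, p.x_p ht, p.F_p s ht,
      show 3 * t + 4 = 3 * (t + 1) + 1 by ring, p.x_s (j := t + 1) ht, p.F_s s (j := t + 1) ht,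
      uS_le (t := t + 1) htd, U_succ, pow_split ht]
    have h1 := p.h_ge ht.le
    have h2 := hok.δnn t
    have h3 := hok.δle t
    by_cases hc : s.c t = true
    · rw [uP_ft htd hpi hc, hc, if_pos rfl]
      have := sq (six_pos (p.m - (t + 1)))
        (show (1:ℝ) / 4 ≤ 4 * p.h t + 4 * p.H - 12 * p.δ t by linarith)
      linarith
    · rw [uP_ff htd hpi (by simpa using hc), if_neg hc]
      have := sq (six_pos (p.m - (t + 1)))
        (show (1:ℝ) / 4 ≤ 4 * p.h t + 4 * p.H + 12 * p.δ t by linarith)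
      linarith
  | ps t ht htd hor => omega
  | aO hd hal =>
    rw [p.x_a hd.le, p.F_a s hd, uA_true le_rfl hal, p.x_O, p.F_O, fO_e0 (hv.en0 hd)]
    have hδ := hok.δpos s.d hd
    by_cases h3 : k = 3 * s.d + 3
    · subst h3
      rw [p.x_p hd, p.F_p s hd, uP_d, pow_split hd]
      have := sq (six_pos (p.m - (s.d + 1)))
        (show (1:ℝ) / 4 ≤ 24 * p.δ s.d by linarith)
      linarith
    · obtain ⟨u, hu1, hu2, hu3⟩ := beyond hok hv hd (show 3 * s.d + 4 ≤ k by omega)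
        (show k ≤ 3 * p.m + 2 by omega)
      rw [hu1]
      have h5 := scale_le (six_pos (p.m - s.d)) (scale_le hu3
        (show (1:ℝ) / 4 ≤ p.U s.c s.d + p.h s.d + p.δ s.d - u by linarith))
      linarith
  | pO hd hal =>
    rw [p.x_p hd, p.F_p s hd, uP_d, p.x_O, p.F_O, fO_e0 (hv.en0 hd)]
    obtain ⟨u, hu1, hu2, hu3⟩ := beyond hok hv hd (show 3 * s.d + 4 ≤ k by omega)
      (show k ≤ 3 * p.m + 2 by omega)
    rw [hu1]
    have h5 := scale_le (six_pos (p.m - (s.d + 1))) (scale_le hu3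
      (show (1:ℝ) / 4 ≤ 4 * (p.U s.c s.d + p.h s.d - u) by linarith))
    linarith
  | oq hd => omega
  | qr hd => omega
  | rz => omega
  | wO hd hen ho =>
    have : k = 3 * p.m + 2 := by omega
    subst this
    rw [p.x_s le_rfl, p.x_O, p.F_s s le_rfl, p.F_O, uS_le (by omega), p.x_a le_rfl, p.F_c,
      Nat.sub_self, pow_zero, fO_e0 hen, fC_e0 hen, if_pos (by omega), hd]
    linarith
  | OQ0 hd hen ho => omega
  | QR0 hd hen => omega
  | wQ hd hen ho =>
    have h1 : 1 ≤ p.q1 + p.U s.c p.m := by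
      rcases e3 with h | h
      · exact absurd (by linarith) ho
      · exact h
    have : k = 3 * p.m + 2 ∨ k = 3 * p.m + 3 := by omega
    rcases this with rfl | rfl
    · rw [p.x_s le_rfl, p.x_Q, p.F_s s le_rfl, p.F_Q, uS_le (by omega), p.x_a le_rfl, p.F_c,
        Nat.sub_self, pow_zero, fQ_e0 hen, fC_e0 hen, if_pos (by omega), hd]
      linarith
    · rw [p.x_s le_rfl, p.x_Q, p.F_s s le_rfl, p.F_Q, uS_le (by omega), p.x_O, p.F_O,
        Nat.sub_self, pow_zero, fQ_e0 hen, fO_e0 hen]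
      linarith
  | wc hd hen => omega
  | cO hd hen ho => omega
  | cQ hd hen ho hq =>
    have : k = 3 * p.m + 3 := by omega
    subst this
    rw [p.x_a le_rfl, p.x_Q, p.x_O, p.F_c, p.F_Q, p.F_O, Nat.sub_self, pow_zero]
    unfold fC fQ fO
    rw [hen]
    simp only
    rcases e4 with h | h
    · linarith
    · exact absurd (by linarith) ho
  | OQ hd hen ho hq => omega
  | OR hd hen ho hq =>
    have : k = 3 * p.m + 4 := by omega
    subst this
    rw [p.x_O, p.x_Q, p.x_R, p.F_O, p.F_Q, p.F_R]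
    unfold fQ fO
    rw [hen]
    simp only
    rcases e6 with h | h
    · exact absurd (by linarith) hq
    · linarith
  | QR hd hen hq => omega

/-! ### Bounds -/

theorem abs_scale {Λ u A : ℝ} (h0 : 0 ≤ Λ) (hΛ : Λ ≤ 2 * 6 ^ p.m) (hu : |u| ≤ Y) (hY : 0 ≤ Y)
    (hA : 2 * 6 ^ p.m * Y ≤ A) : |Λ * u| ≤ A := by
  rw [abs_mul, abs_of_nonneg h0]
  calc Λ * |u| ≤ (2 * 6 ^ p.m) * Y := mul_le_mul hΛ hu (abs_nonneg _) (by positivity)
    _ ≤ A := hA

theorem u_bounds (hok : p.Ok Y) (hv : p.Valid s) (t : ℕ) (ht : t ≤ p.m) :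
    |p.uS s t| ≤ Y ∧ |p.uA s t| ≤ Y ∧ |p.uP s t| ≤ Y := by
  have hH := hok.hH
  have hYg := Y_ge hok
  have hmnn : (0:ℝ) ≤ p.m := Nat.cast_nonneg _
  have h1 := hok.Ule s.c t ht
  have h2 := hok.Ule s.c s.d hv.dm
  have h3 := hok.δnn t
  have h4 := hok.δle t
  have h5 := p.h_ge ht
  have h6 : p.h t ≤ 5 * p.H + p.m := by
    unfold h
    have : (0:ℝ) ≤ t := Nat.cast_nonneg _
    linarith
  refine ⟨?_, ?_, ?_⟩
  · unfold uS
    split_ifs <;> rw [abs_le] <;> constructor <;> linarith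
  · unfold uA
    split_ifs <;> rw [abs_le] <;> constructor <;> linarith
  · unfold uP
    split_ifs <;> rw [abs_le] <;> constructor <;> linarith

theorem F_bound (hok : p.Ok Y) (hv : p.Valid s) {k : ℕ} (h0 : 0 < k) (hk : k < 3 * p.m + 6) :
    |p.F s k| ≤ p.M / 2 := by
  have hH := hok.hH
  have hYg := Y_ge hok
  have hmnn : (0:ℝ) ≤ p.m := Nat.cast_nonneg _
  have hMY := hok.MY
  have hM := M_ge hok
  have hY0 : 0 ≤ Y := by linarith
  have h6 := six_pos p.m
  have hA : 2 * 6 ^ p.m * Y ≤ p.M / 2 := by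
    have : 0 ≤ 6 ^ p.m * Y := by positivity
    linarith
  have hW := W_le hok s.c
  have hq1 := abs_le.1 hok.q1Y
  have hq2 := abs_le.1 hok.q2Y
  have hκ2 := hok.κ2
  have hκH := hok.κH
  have hpow : ∀ t, (6:ℝ) ^ (p.m - t) ≤ 6 ^ p.m := fun t =>
    pow_le_pow_right₀ (by norm_num) (by omega)
  rcases kinds p.m k (by omega) with rfl | ⟨t, ht, rfl⟩ | ⟨t, ht, rfl⟩ | ⟨t, ht, rfl⟩ | rfl | rfl |
    rfl | rfl | rfl
  · omega
  · rw [p.F_s s ht]
    exact abs_scale (by positivity) (by have := hpow t; linarith) (u_bounds hok hv t ht).1 hY0 hA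
  · rw [p.F_a s ht]
    exact abs_scale (by positivity) (by have := hpow t; linarith) (u_bounds hok hv t ht.le).2.1
      hY0 hA
  · rw [p.F_p s ht]
    refine abs_scale (by positivity) ?_ (u_bounds hok hv t ht.le).2.2 hY0 hA
    have h1 := hpow t
    rw [pow_split ht] at h1
    have := six_pos (p.m - (t + 1))
    linarith
  · rw [p.F_c]
    have h2 := hok.Ule s.c s.d hv.dm
    unfold fC
    rcases s.en with _ | _ | _ | _ | _ <;> simp only <;> (try split_ifs) <;> rw [abs_le] <;>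
      constructor <;> linarith
  · rw [p.F_O]
    unfold fO
    rcases s.en with _ | _ | _ | _ | _ <;> simp only <;> rw [abs_le] <;>
      constructor <;> linarith
  · rw [p.F_Q]
    unfold fQ
    rcases s.en with _ | _ | _ | _ | _ <;> simp only <;> rw [abs_le] <;>
      constructor <;> linarith
  · rw [p.F_R, abs_le]
    constructor <;> linarith
  · omega

theorem x_bound (hok : p.Ok Y) (k : ℕ) (hk : k ≤ 3 * p.m + 6) : |p.x k| ≤ p.M := by
  have hH := hok.hH
  have hYg := Y_ge hok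
  have hmnn : (0:ℝ) ≤ p.m := Nat.cast_nonneg _
  have hMY := hok.MY
  have h6 := six_pos p.m
  have hM : 100 * 6 ^ p.m * 20 ≤ p.M := by
    have : 100 * 6 ^ p.m * 20 ≤ 100 * 6 ^ p.m * Y :=
      mul_le_mul_of_nonneg_left (by linarith) (by positivity)
    linarith
  have hpow : ∀ t, (6:ℝ) ^ (p.m - t) ≤ 6 ^ p.m := fun t =>
    pow_le_pow_right₀ (by norm_num) (by omega)
  rcases kinds p.m k hk with rfl | ⟨t, ht, rfl⟩ | ⟨t, ht, rfl⟩ | ⟨t, ht, rfl⟩ | rfl | rfl |
    rfl | rfl | rfl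
  · rw [p.x_zero, abs_le]; constructor <;> linarith
  · rw [p.x_s ht, abs_le]
    have := hpow t
    have := six_pos (p.m - t)
    constructor <;> linarith
  · rw [p.x_a ht.le, abs_le]
    have := hpow t
    have := six_pos (p.m - t)
    constructor <;> linarith
  · rw [p.x_p ht, abs_le]
    have := hpow (t + 1)
    have := six_pos (p.m - (t + 1))
    constructor <;> linarith
  · rw [p.x_a le_rfl, abs_le]
    have := hpow p.m
    have := six_pos (p.m - p.m)
    constructor <;> linarith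
  · rw [p.x_O, abs_le]; constructor <;> linarith
  · rw [p.x_Q, abs_le]; constructor <;> linarith
  · rw [p.x_R, abs_le]; constructor <;> linarith
  · rw [p.x_Z, abs_le]; constructor <;> linarith

theorem sep_bound (hok : p.Ok Y) (s : St) {k : ℕ} (h0 : 0 < k) (hk : k < 3 * p.m + 6) :
    |p.sep s k| ≤ p.M := by
  have hH := hok.hH
  have hYg := Y_ge hok
  have hmnn : (0:ℝ) ≤ p.m := Nat.cast_nonneg _
  have hM := M_ge hok
  have hW := W_le hok s.c
  have hq1 := abs_le.1 hok.q1Y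
  have hq2 := abs_le.1 hok.q2Y
  have hκ2 := hok.κ2
  have hκH := hok.κH
  have hh : ∀ t, t ≤ p.m → 5 * p.H ≤ p.h t ∧ p.h t ≤ 5 * p.H + p.m := by
    intro t ht
    refine ⟨p.h_ge ht, ?_⟩
    unfold h
    have : (0:ℝ) ≤ t := Nat.cast_nonneg _
    linarith
  rcases kinds p.m k (by omega) with rfl | ⟨t, ht, rfl⟩ | ⟨t, ht, rfl⟩ | ⟨t, ht, rfl⟩ | rfl | rfl |
    rfl | rfl | rfl
  · omega
  · rw [p.sep_s s ht, abs_le]
    have h1 := hok.Ule s.c t ht
    have h2 := hh t ht
    have h3 := hok.δnn t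
    have h4 := hok.δle t
    constructor <;> linarith
  · rw [p.sep_a s ht, abs_le]
    have h1 := hok.Ule s.c t ht.le
    constructor <;> linarith
  · rw [p.sep_p s ht]
    have h1 := hok.Ule s.c t ht.le
    split_ifs <;> rw [abs_le] <;> constructor <;> linarith
  · rw [p.sep_c]
    split_ifs <;> rw [abs_le] <;> constructor <;> linarith
  · rw [p.sep_O]
    split_ifs
    · rw [abs_le]; constructor <;> linarith
    · rcases s.en with _ | _ | _ | _ | _ <;> simp only <;> rw [abs_le] <;> constructor <;> linarith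
  · rw [p.sep_Q]
    split_ifs <;> rw [abs_le] <;> constructor <;> linarith
  · rw [p.sep_R, abs_le]
    constructor <;> linarith
  · omega

/-- consecutive `x`-coordinates -/
theorem x_step (p : Par) (k : ℕ) (hk : k < 3 * p.m + 6) : p.x k + 1 ≤ p.x (k + 1) := by
  rcases kinds p.m k hk.le with rfl | ⟨t, ht, rfl⟩ | ⟨t, ht, rfl⟩ | ⟨t, ht, rfl⟩ | rfl | rfl |
    rfl | rfl | rfl
  · rw [p.x_zero, show 0 + 1 = 3 * 0 + 1 by norm_num, p.x_s (Nat.zero_le _), Nat.sub_zero]
    linarith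
  · rw [show 3 * t + 1 + 1 = 3 * t + 2 by ring, p.x_s ht, p.x_a ht]
    have := six_pos (p.m - t)
    linarith
  · rw [show 3 * t + 2 + 1 = 3 * t + 3 by ring, p.x_a ht.le, p.x_p ht, pow_split ht]
    have := six_pos (p.m - (t + 1))
    linarith
  · rw [show 3 * t + 3 + 1 = 3 * (t + 1) + 1 by ring, p.x_p ht, p.x_s ht]
    have := six_pos (p.m - (t + 1))
    linarith
  · rw [show 3 * p.m + 2 + 1 = 3 * p.m + 3 by ring, p.x_a le_rfl, p.x_O, Nat.sub_self]
    norm_num
  · rw [show 3 * p.m + 3 + 1 = 3 * p.m + 4 by ring, p.x_O, p.x_Q]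
    norm_num
  · rw [show 3 * p.m + 4 + 1 = 3 * p.m + 5 by ring, p.x_Q, p.x_R]
    norm_num
  · rw [show 3 * p.m + 5 + 1 = 3 * p.m + 6 by ring, p.x_R, p.x_Z]
    norm_num
  · omega

theorem x_lt (p : Par) {i j : ℕ} (hij : i < j) (hj : j ≤ 3 * p.m + 6) : p.x i + 1 ≤ p.x j := by
  induction j with
  | zero => omega
  | succ j ih =>
    have h1 := p.x_step j (by omega)
    rcases Nat.lt_or_ge i j with h | h
    · have := ih h (by omega)
      linarith
    · have : i = j := by omega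
      subst this
      exact h1

end Par

end Pool.Agent.Helper480_Flip
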