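import Pool.Agent.Helper480_Flip.Pert

/-!
# The flat model: vertices, abstract states, heights, hull
-/

namespace Pool.Agent.Helper480_Flip

/-- The parameters of the polygon: number of stages, depths of the small dents, basic size, and the
numbers of the end gadget. -/
structure Par where
  m : ℕ
  δ : ℕ → ℝ
  H : ℝ
  κ : ℝ
  q1 : ℝ
  q2 : ℝ
  M : ℝ

/-- The states of the end gadget. -/
inductive En
  | e0 | a1 | b1 | c2 | d2
  deriving DecidableEq

/-- number of flips made in the end gadget -/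
def En.rank : En → ℕ
  | e0 => 0 | a1 => 1 | b1 => 1 | c2 => 2 | d2 => 2

/-- The abstract states: `d` big flips have been made; `al j`: the dent of stage `j` is flipped;
`pi j`: the last flip of stage `j` is made; `c j`: the dent of stage `j` was flipped before the big
flip. -/
structure St where
  d : ℕ
  al : ℕ → Bool
  pi : ℕ → Bool
  c : ℕ → Bool
  en : En

namespace Par

variable (p : Par)

/-- number of the last vertex -/
def N : ℕ := 3 * p.m + 6

/-- height of a stage -/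
noncomputable def h (j : ℕ) : ℝ := 5 * p.H + ((p.m : ℝ) - (j : ℝ))

/-- the direction of the base vertex of stage `j` -/
noncomputable def U (c : ℕ → Bool) : ℕ → ℝ
  | 0 => 0
  | j + 1 => U c j + 2 * p.h j + p.H + (if c j then 2 * p.δ j else 0)

theorem U_congr {c c' : ℕ → Bool} : ∀ {j : ℕ}, (∀ i < j, c i = c' i) → p.U c j = p.U c' j
  | 0, _ => rfl
  | j + 1, h => by
    unfold U
    rw [U_congr (j := j) (fun i hi => h i (by omega)), h j (by omega)]

/-- the `x`-coordinates -/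
noncomputable def x (k : ℕ) : ℝ :=
  if k = 0 then -(2 * 6 ^ p.m + 1)
  else if k ≤ 3 * p.m + 2 then
    if k % 3 = 1 then -(2 * 6 ^ (p.m - k / 3))
    else if k % 3 = 2 then -(6 ^ (p.m - k / 3))
    else -(4 * 6 ^ (p.m - k / 3))
  else if k = 3 * p.m + 3 then 0
  else if k = 3 * p.m + 4 then 2
  else if k = 3 * p.m + 5 then 4
  else 5

noncomputable def uS (s : St) (j : ℕ) : ℝ :=
  if j ≤ s.d then p.U s.c j else if (j + s.d) % 2 = 0 then p.U s.c s.d else p.U s.c s.d - p.H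

noncomputable def uA (s : St) (j : ℕ) : ℝ :=
  if j ≤ s.d then (if s.al j then p.U s.c j + p.h j + p.δ j else p.U s.c j - p.δ j)
  else if (j + s.d) % 2 = 0 then p.U s.c s.d - p.δ j else p.U s.c s.d - p.H + p.δ j

noncomputable def uP (s : St) (j : ℕ) : ℝ :=
  if j < s.d then
    (if s.pi j then
      (if s.c j then p.U s.c j + p.h j + (p.H + p.h j + p.δ j) / 2
        else p.U s.c j + p.h j + (p.H + p.h j + 3 * p.δ j) / 2)
      else (if s.c j then p.U s.c j + p.h j + 2 * p.δ j else p.U s.c j + p.h j))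
  else if (j + s.d) % 2 = 0 then p.U s.c s.d + p.h j else p.U s.c s.d - p.H - p.h j

noncomputable def fC (s : St) : ℝ :=
  match s.en with
  | En.e0 => if (p.m + s.d) % 2 = 0 then p.U s.c s.d - p.κ else p.U s.c s.d - p.H + p.κ
  | En.a1 => p.U s.c p.m + p.κ
  | _ => 2 * p.U s.c p.m + p.q1 + p.κ

noncomputable def fO (s : St) : ℝ :=
  match s.en with
  | En.e0 => 0
  | En.a1 => 0
  | En.c2 => (2 * p.U s.c p.m + 2 * p.q1 + 4 * p.κ) / 3
  | _ => 2 * p.U s.c p.m + 2 * p.q1

noncomputable def fQ (s : St) : ℝ :=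
  match s.en with
  | En.d2 => 2 * p.U s.c p.m + 2 * p.q1 + 2 * p.q2
  | _ => 2 * p.q1

/-- the heights -/
noncomputable def F (s : St) (k : ℕ) : ℝ :=
  if k = 0 then -p.M
  else if k ≤ 3 * p.m + 1 then
    if k % 3 = 1 then 2 * 6 ^ (p.m - k / 3) * p.uS s (k / 3)
    else if k % 3 = 2 then 6 ^ (p.m - k / 3) * p.uA s (k / 3)
    else 4 * 6 ^ (p.m - k / 3) * p.uP s (k / 3 - 1)
  else if k = 3 * p.m + 2 then p.fC s
  else if k = 3 * p.m + 3 then p.fO s
  else if k = 3 * p.m + 4 then p.fQ s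
  else if k = 3 * p.m + 5 then 2 * p.q1 + 2 * p.q2
  else -p.M

def cF (s : St) : Prop := s.en ≠ En.e0

def oF (s : St) : Prop :=
  match s.en with
  | En.e0 => p.q1 + p.U s.c p.m < 0
  | En.b1 => p.κ < p.q1 + p.U s.c p.m
  | _ => True

def qF (s : St) : Prop :=
  match s.en with
  | En.b1 => p.q2 + p.U s.c p.m < 0
  | _ => True

/-- the hull vertices -/
def hull (s : St) (k : ℕ) : Prop :=
  if k = 0 then True
  else if k ≤ 3 * p.m + 1 then
    if k % 3 = 1 then k / 3 ≤ s.d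
    else if k % 3 = 2 then s.al (k / 3) = true
    else k / 3 - 1 ≤ s.d ∧ (s.al (k / 3 - 1) = false ∨ s.pi (k / 3 - 1) = true)
  else if k = 3 * p.m + 2 then cF s
  else if k = 3 * p.m + 3 then s.d < p.m ∨ p.oF s
  else if k = 3 * p.m + 4 then p.qF s
  else True

/-- the separating slopes -/
noncomputable def sep (s : St) (k : ℕ) : ℝ :=
  if k ≤ 3 * p.m + 1 then
    if k % 3 = 1 then -p.U s.c (k / 3) + p.h (k / 3) + p.δ (k / 3) + 1
    else if k % 3 = 2 then -p.U s.c (k / 3) + 2 * p.H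
    else if s.al (k / 3 - 1) = true then -p.U s.c (k / 3 - 1) - p.H
    else -p.U s.c (k / 3 - 1) + 2 * p.H
  else if k = 3 * p.m + 2 then
    (if s.en = En.a1 then -p.U s.c p.m else p.q1 + p.κ - 1 / 2)
  else if k = 3 * p.m + 3 then
    (if s.d < p.m then p.q1 + 1 else
      match s.en with
      | En.e0 => (p.q1 - p.U s.c p.m) / 2
      | En.a1 => (p.q1 - p.U s.c p.m - p.κ) / 2
      | En.b1 => (p.q1 - p.κ - p.U s.c p.m) / 2
      | En.c2 => (-5 * p.U s.c p.m + (p.q1 - p.κ)) / 6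
      | En.d2 => (p.q1 - p.κ + p.q2) / 2)
  else if k = 3 * p.m + 4 then
    (if s.en = En.d2 then (p.q2 - p.U s.c p.m) / 2 else p.q2 + 1 / 2)
  else -(p.M / 2)

/-- The requirements for the end gadget, for the final direction `W`. -/
structure EndOK (W : ℝ) : Prop where
  e3 : p.q1 + W ≤ -1 ∨ 1 ≤ p.q1 + W
  e4 : p.q1 + W - p.κ ≤ -1 ∨ 1 ≤ p.q1 + W - p.κ
  e5 : p.q1 + W ≤ -1 → p.q1 + W + p.κ ≤ -1
  e6 : p.q2 + W ≤ -1 ∨ 1 ≤ p.q2 + W
  e7 : p.q1 + p.κ + W ≤ 4 * p.H
  e8 : 1 ≤ p.q1 + W → p.q2 + 1 ≤ (p.q1 - W) / 2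

/-- The requirements on the parameters; `Y` is a bound for all directions. -/
structure Ok (Y : ℝ) : Prop where
  hH : 1 ≤ p.H
  δpos : ∀ j < p.m, 1 ≤ p.δ j
  δnn : ∀ j, 0 ≤ p.δ j
  δle : ∀ j, 20 * p.δ j + 20 ≤ p.H
  δm : p.δ p.m = 0
  κ2 : 2 ≤ p.κ
  κH : p.κ ≤ p.H
  e2 : p.q2 + 1 ≤ p.q1 - p.κ
  fin : ∀ c, p.EndOK (p.U c p.m)
  Ule : ∀ c j, j ≤ p.m → 0 ≤ p.U c j ∧ p.U c j + 20 * p.H + 4 * p.m ≤ Y
  q1Y : |p.q1| ≤ Y
  q2Y : |p.q2| ≤ Y
  MY : 100 * 6 ^ p.m * Y ≤ p.M

/-- the invariants of the reachable states -/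
structure Valid (s : St) : Prop where
  dm : s.d ≤ p.m
  al_le : ∀ j, s.al j = true → j ≤ s.d ∧ j < p.m
  pi_le : ∀ j, s.pi j = true → j < s.d ∧ s.al j = true
  c_le : ∀ j, s.c j = true → j < s.d ∧ s.al j = true
  en0 : s.d < p.m → s.en = En.e0
  ena : s.en = En.a1 → p.q1 + p.U s.c p.m ≤ -1
  enb : s.en = En.b1 → 1 ≤ p.q1 + p.U s.c p.m
  enc : s.en = En.c2 → 1 ≤ p.q1 + p.U s.c p.m ∧ p.q1 + p.U s.c p.m - p.κ ≤ -1
  end2 : s.en = En.d2 → 1 ≤ p.q1 + p.U s.c p.m ∧ 1 ≤ p.q2 + p.U s.c p.m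

/-! ### Values at the different kinds of vertices -/

theorem pow_split {m j : ℕ} (hj : j < m) : (6:ℝ) ^ (m - j) = 6 * 6 ^ (m - (j + 1)) := by
  rw [show m - j = (m - (j + 1)) + 1 by omega, pow_succ]; ring

theorem x_zero : p.x 0 = -(2 * 6 ^ p.m + 1) := by simp [x]

theorem x_s {j : ℕ} (hj : j ≤ p.m) : p.x (3 * j + 1) = -(2 * 6 ^ (p.m - j)) := by
  unfold x
  rw [if_neg (by omega), if_pos (by omega), if_pos (by omega), show (3 * j + 1) / 3 = j by omega]

theorem x_a {j : ℕ} (hj : j ≤ p.m) : p.x (3 * j + 2) = -(6 ^ (p.m - j)) := by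
  unfold x
  rw [if_neg (by omega), if_pos (by omega), if_neg (by omega), if_pos (by omega),
    show (3 * j + 2) / 3 = j by omega]

theorem x_p {j : ℕ} (hj : j < p.m) : p.x (3 * j + 3) = -(4 * 6 ^ (p.m - (j + 1))) := by
  unfold x
  rw [if_neg (by omega), if_pos (by omega), if_neg (by omega), if_neg (by omega),
    show (3 * j + 3) / 3 = j + 1 by omega]

theorem x_O : p.x (3 * p.m + 3) = 0 := by
  unfold x
  rw [if_neg (by omega), if_neg (by omega), if_pos rfl]

theorem x_Q : p.x (3 * p.m + 4) = 2 := by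
  unfold x
  rw [if_neg (by omega), if_neg (by omega), if_neg (by omega), if_pos rfl]

theorem x_R : p.x (3 * p.m + 5) = 4 := by
  unfold x
  rw [if_neg (by omega), if_neg (by omega), if_neg (by omega), if_neg (by omega), if_pos rfl]

theorem x_Z : p.x (3 * p.m + 6) = 5 := by
  unfold x
  rw [if_neg (by omega), if_neg (by omega), if_neg (by omega), if_neg (by omega),
    if_neg (by omega)]

theorem F_zero (s : St) : p.F s 0 = -p.M := by simp [F]

theorem F_s (s : St) {j : ℕ} (hj : j ≤ p.m) :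
    p.F s (3 * j + 1) = 2 * 6 ^ (p.m - j) * p.uS s j := by
  unfold F
  rw [if_neg (by omega), if_pos (by omega), if_pos (by omega), show (3 * j + 1) / 3 = j by omega]

theorem F_a (s : St) {j : ℕ} (hj : j < p.m) :
    p.F s (3 * j + 2) = 6 ^ (p.m - j) * p.uA s j := by
  unfold F
  rw [if_neg (by omega), if_pos (by omega), if_neg (by omega), if_pos (by omega),
    show (3 * j + 2) / 3 = j by omega]

theorem F_p (s : St) {j : ℕ} (hj : j < p.m) :
    p.F s (3 * j + 3) = 4 * 6 ^ (p.m - (j + 1)) * p.uP s j := by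
  unfold F
  rw [if_neg (by omega), if_pos (by omega), if_neg (by omega), if_neg (by omega),
    show (3 * j + 3) / 3 = j + 1 by omega, Nat.add_sub_cancel]

theorem F_c (s : St) : p.F s (3 * p.m + 2) = p.fC s := by
  unfold F
  rw [if_neg (by omega), if_neg (by omega), if_pos rfl]

theorem F_O (s : St) : p.F s (3 * p.m + 3) = p.fO s := by
  unfold F
  rw [if_neg (by omega), if_neg (by omega), if_neg (by omega), if_pos rfl]

theorem F_Q (s : St) : p.F s (3 * p.m + 4) = p.fQ s := by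
  unfold F
  rw [if_neg (by omega), if_neg (by omega), if_neg (by omega), if_neg (by omega), if_pos rfl]

theorem F_R (s : St) : p.F s (3 * p.m + 5) = 2 * p.q1 + 2 * p.q2 := by
  unfold F
  rw [if_neg (by omega), if_neg (by omega), if_neg (by omega), if_neg (by omega),
    if_neg (by omega), if_pos rfl]

theorem F_Z (s : St) : p.F s (3 * p.m + 6) = -p.M := by
  unfold F
  rw [if_neg (by omega), if_neg (by omega), if_neg (by omega), if_neg (by omega),
    if_neg (by omega), if_neg (by omega)]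

theorem hull_zero (s : St) : p.hull s 0 := by simp [hull]

theorem hull_s (s : St) {j : ℕ} (hj : j ≤ p.m) : p.hull s (3 * j + 1) ↔ j ≤ s.d := by
  unfold hull
  rw [if_neg (by omega), if_pos (by omega), if_pos (by omega), show (3 * j + 1) / 3 = j by omega]

theorem hull_a (s : St) {j : ℕ} (hj : j < p.m) : p.hull s (3 * j + 2) ↔ s.al j = true := by
  unfold hull
  rw [if_neg (by omega), if_pos (by omega), if_neg (by omega), if_pos (by omega),
    show (3 * j + 2) / 3 = j by omega]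

theorem hull_p (s : St) {j : ℕ} (hj : j < p.m) :
    p.hull s (3 * j + 3) ↔ j ≤ s.d ∧ (s.al j = false ∨ s.pi j = true) := by
  unfold hull
  rw [if_neg (by omega), if_pos (by omega), if_neg (by omega), if_neg (by omega),
    show (3 * j + 3) / 3 = j + 1 by omega, Nat.add_sub_cancel]

theorem hull_c (s : St) : p.hull s (3 * p.m + 2) ↔ cF s := by
  unfold hull
  rw [if_neg (by omega), if_neg (by omega), if_pos rfl]

theorem hull_O (s : St) : p.hull s (3 * p.m + 3) ↔ (s.d < p.m ∨ p.oF s) := by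
  unfold hull
  rw [if_neg (by omega), if_neg (by omega), if_neg (by omega), if_pos rfl]

theorem hull_Q (s : St) : p.hull s (3 * p.m + 4) ↔ p.qF s := by
  unfold hull
  rw [if_neg (by omega), if_neg (by omega), if_neg (by omega), if_neg (by omega), if_pos rfl]

theorem hull_R (s : St) : p.hull s (3 * p.m + 5) := by
  unfold hull
  rw [if_neg (by omega), if_neg (by omega), if_neg (by omega), if_neg (by omega),
    if_neg (by omega)]
  trivial

theorem hull_Z (s : St) : p.hull s (3 * p.m + 6) := by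
  unfold hull
  rw [if_neg (by omega), if_neg (by omega), if_neg (by omega), if_neg (by omega),
    if_neg (by omega)]
  trivial

theorem sep_s (s : St) {j : ℕ} (hj : j ≤ p.m) :
    p.sep s (3 * j + 1) = -p.U s.c j + p.h j + p.δ j + 1 := by
  unfold sep
  rw [if_pos (by omega), if_pos (by omega), show (3 * j + 1) / 3 = j by omega]

theorem sep_a (s : St) {j : ℕ} (hj : j < p.m) :
    p.sep s (3 * j + 2) = -p.U s.c j + 2 * p.H := by
  unfold sep
  rw [if_pos (by omega), if_neg (by omega), if_pos (by omega),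
    show (3 * j + 2) / 3 = j by omega]

theorem sep_p (s : St) {j : ℕ} (hj : j < p.m) :
    p.sep s (3 * j + 3) =
      if s.al j = true then -p.U s.c j - p.H else -p.U s.c j + 2 * p.H := by
  unfold sep
  rw [if_pos (by omega), if_neg (by omega), if_neg (by omega),
    show (3 * j + 3) / 3 = j + 1 by omega, Nat.add_sub_cancel]

theorem sep_c (s : St) : p.sep s (3 * p.m + 2) =
    (if s.en = En.a1 then -p.U s.c p.m else p.q1 + p.κ - 1 / 2) := by
  unfold sep
  rw [if_neg (by omega), if_pos rfl]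

theorem sep_O (s : St) : p.sep s (3 * p.m + 3) =
    (if s.d < p.m then p.q1 + 1 else
      match s.en with
      | En.e0 => (p.q1 - p.U s.c p.m) / 2
      | En.a1 => (p.q1 - p.U s.c p.m - p.κ) / 2
      | En.b1 => (p.q1 - p.κ - p.U s.c p.m) / 2
      | En.c2 => (-5 * p.U s.c p.m + (p.q1 - p.κ)) / 6
      | En.d2 => (p.q1 - p.κ + p.q2) / 2) := by
  unfold sep
  rw [if_neg (by omega), if_neg (by omega), if_pos rfl]

theorem sep_Q (s : St) : p.sep s (3 * p.m + 4) =
    (if s.en = En.d2 then (p.q2 - p.U s.c p.m) / 2 else p.q2 + 1 / 2) := by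
  unfold sep
  rw [if_neg (by omega), if_neg (by omega), if_neg (by omega), if_pos rfl]

theorem sep_R (s : St) : p.sep s (3 * p.m + 5) = -(p.M / 2) := by
  unfold sep
  rw [if_neg (by omega), if_neg (by omega), if_neg (by omega), if_neg (by omega)]

/-- the consecutive pairs of hull vertices -/
inductive CP (s : St) : ℕ → ℕ → Prop
  | l : CP s 0 1
  | sa (t : ℕ) : t < p.m → t ≤ s.d → s.al t = true → CP s (3 * t + 1) (3 * t + 2)
  | sp (t : ℕ) : t < p.m → t ≤ s.d → s.al t = false → CP s (3 * t + 1) (3 * t + 3)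
  | ap (t : ℕ) : t < p.m → t < s.d → s.al t = true → s.pi t = true →
      CP s (3 * t + 2) (3 * t + 3)
  | as (t : ℕ) : t < p.m → t < s.d → s.al t = true → s.pi t = false →
      CP s (3 * t + 2) (3 * t + 4)
  | ps (t : ℕ) : t < p.m → t < s.d → (s.al t = false ∨ (s.al t = true ∧ s.pi t = true)) →
      CP s (3 * t + 3) (3 * t + 4)
  | aO : s.d < p.m → s.al s.d = true → CP s (3 * s.d + 2) (3 * p.m + 3)
  | pO : s.d < p.m → s.al s.d = false → CP s (3 * s.d + 3) (3 * p.m + 3)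
  | oq : s.d < p.m → CP s (3 * p.m + 3) (3 * p.m + 4)
  | qr : s.d < p.m → CP s (3 * p.m + 4) (3 * p.m + 5)
  | rz : CP s (3 * p.m + 5) (3 * p.m + 6)
  | wO : s.d = p.m → s.en = En.e0 → p.q1 + p.U s.c p.m < 0 → CP s (3 * p.m + 1) (3 * p.m + 3)
  | OQ0 : s.d = p.m → s.en = En.e0 → p.q1 + p.U s.c p.m < 0 → CP s (3 * p.m + 3) (3 * p.m + 4)
  | QR0 : s.d = p.m → s.en = En.e0 → CP s (3 * p.m + 4) (3 * p.m + 5)
  | wQ : s.d = p.m → s.en = En.e0 → ¬ p.q1 + p.U s.c p.m < 0 →
      CP s (3 * p.m + 1) (3 * p.m + 4)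
  | wc : s.d = p.m → s.en ≠ En.e0 → CP s (3 * p.m + 1) (3 * p.m + 2)
  | cO : s.d = p.m → s.en ≠ En.e0 → p.oF s → CP s (3 * p.m + 2) (3 * p.m + 3)
  | cQ : s.d = p.m → s.en = En.b1 → ¬ p.κ < p.q1 + p.U s.c p.m → p.q2 + p.U s.c p.m < 0 →
      CP s (3 * p.m + 2) (3 * p.m + 4)
  | OQ : s.d = p.m → s.en ≠ En.e0 → p.oF s → p.qF s → CP s (3 * p.m + 3) (3 * p.m + 4)
  | OR : s.d = p.m → s.en = En.b1 → p.κ < p.q1 + p.U s.c p.m → ¬ p.q2 + p.U s.c p.m < 0 →
      CP s (3 * p.m + 3) (3 * p.m + 5)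
  | QR : s.d = p.m → s.en ≠ En.e0 → p.qF s → CP s (3 * p.m + 4) (3 * p.m + 5)

end Par

end Pool.Agent.Helper480_Flip
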