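import Pool.Agent.Helper480_Flip.Pairs

/-!
# The inequalities of the flat model
-/

namespace Pool.Agent.Helper480_Flip

namespace Par

variable {p : Par} {s : St} {Y : ℝ}

theorem h_succ (p : Par) (t : ℕ) : p.h (t + 1) = p.h t - 1 := by
  unfold h; push_cast; ring

theorem h_m (p : Par) : p.h p.m = 5 * p.H := by unfold h; ring

theorem h_ge (p : Par) {t : ℕ} (ht : t ≤ p.m) : 5 * p.H ≤ p.h t := by
  unfold h
  have : (t : ℝ) ≤ p.m := by exact_mod_cast ht
  linarith

theorem h_anti (p : Par) {t r : ℕ} (ht : t < r) : p.h r + 1 ≤ p.h t := by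
  unfold h
  have : (t : ℝ) + 1 ≤ r := by exact_mod_cast ht
  linarith

theorem U_succ (p : Par) (c : ℕ → Bool) (t : ℕ) :
    p.U c (t + 1) = p.U c t + 2 * p.h t + p.H + (if c t then 2 * p.δ t else 0) := rfl

theorem U_step_le (hok : p.Ok Y) (c : ℕ → Bool) {t : ℕ} (ht : t < p.m) :
    p.U c t + 2 * p.h t + p.H ≤ p.U c (t + 1) := by
  rw [U_succ]
  have := hok.δnn t
  split_ifs <;> linarith

theorem U_mono (hok : p.Ok Y) (c : ℕ → Bool) {t r : ℕ} (htr : t ≤ r) (hr : r ≤ p.m) :
    p.U c t ≤ p.U c r := by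
  induction r with
  | zero =>
    have : t = 0 := by omega
    subst this; exact le_rfl
  | succ r ih =>
    rcases Nat.lt_or_ge t (r + 1) with h | h
    · have h1 := ih (by omega) (by omega)
      have h2 := U_step_le hok c (t := r) (by omega)
      have h3 := p.h_ge (t := r) (by omega)
      have := hok.hH
      linarith
    · have : t = r + 1 := by omega
      subst this; exact le_rfl

theorem top_le (hok : p.Ok Y) (c : ℕ → Bool) {t : ℕ} (ht : t < p.m) :
    p.U c t + p.h t + p.δ t + 2 ≤ -p.q1 := by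
  have h1 := (hok.fin c).e7
  have h2 := U_step_le hok c ht
  have h3 := U_mono hok c (t := t + 1) (r := p.m) (by omega) le_rfl
  have h4 := p.h_ge ht.le
  have h5 := hok.δle t
  have h6 := hok.κ2
  have h7 := hok.hH
  linarith

theorem uS_le {t : ℕ} (h : t ≤ s.d) : p.uS s t = p.U s.c t := by
  unfold uS; rw [if_pos h]

theorem uS_even {t : ℕ} (h : s.d < t) (h2 : (t + s.d) % 2 = 0) : p.uS s t = p.U s.c s.d := by
  unfold uS; rw [if_neg (by omega), if_pos h2]

theorem uS_odd {t : ℕ} (h : s.d < t) (h2 : ¬ (t + s.d) % 2 = 0) :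
    p.uS s t = p.U s.c s.d - p.H := by
  unfold uS; rw [if_neg (by omega), if_neg h2]

theorem uA_true {t : ℕ} (h : t ≤ s.d) (h2 : s.al t = true) :
    p.uA s t = p.U s.c t + p.h t + p.δ t := by
  unfold uA; rw [if_pos h, h2, if_pos rfl]

theorem uA_false {t : ℕ} (h : t ≤ s.d) (h2 : s.al t = false) :
    p.uA s t = p.U s.c t - p.δ t := by
  unfold uA; rw [if_pos h, h2]; simp

theorem uA_even {t : ℕ} (h : s.d < t) (h2 : (t + s.d) % 2 = 0) :
    p.uA s t = p.U s.c s.d - p.δ t := by
  unfold uA; rw [if_neg (by omega), if_pos h2]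

theorem uA_odd {t : ℕ} (h : s.d < t) (h2 : ¬ (t + s.d) % 2 = 0) :
    p.uA s t = p.U s.c s.d - p.H + p.δ t := by
  unfold uA; rw [if_neg (by omega), if_neg h2]

theorem uP_tt {t : ℕ} (h : t < s.d) (h2 : s.pi t = true) (h3 : s.c t = true) :
    p.uP s t = p.U s.c t + p.h t + (p.H + p.h t + p.δ t) / 2 := by
  unfold uP; rw [if_pos h, h2, if_pos rfl, h3, if_pos rfl]

theorem uP_tf {t : ℕ} (h : t < s.d) (h2 : s.pi t = true) (h3 : s.c t = false) :
    p.uP s t = p.U s.c t + p.h t + (p.H + p.h t + 3 * p.δ t) / 2 := by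
  unfold uP; rw [if_pos h, h2, if_pos rfl, h3]; simp

theorem uP_ft {t : ℕ} (h : t < s.d) (h2 : s.pi t = false) (h3 : s.c t = true) :
    p.uP s t = p.U s.c t + p.h t + 2 * p.δ t := by
  unfold uP; rw [if_pos h, h2, h3]; simp

theorem uP_ff {t : ℕ} (h : t < s.d) (h2 : s.pi t = false) (h3 : s.c t = false) :
    p.uP s t = p.U s.c t + p.h t := by
  unfold uP; rw [if_pos h, h2, h3]; simp

theorem uP_d : p.uP s s.d = p.U s.c s.d + p.h s.d := by
  unfold uP; rw [if_neg (by omega), if_pos (by omega)]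

theorem uP_even {t : ℕ} (h : s.d ≤ t) (h2 : (t + s.d) % 2 = 0) :
    p.uP s t = p.U s.c s.d + p.h t := by
  unfold uP; rw [if_neg (by omega), if_pos h2]

theorem uP_odd {t : ℕ} (h : s.d ≤ t) (h2 : ¬ (t + s.d) % 2 = 0) :
    p.uP s t = p.U s.c s.d - p.H - p.h t := by
  unfold uP; rw [if_neg (by omega), if_neg h2]

theorem c_false (hv : p.Valid s) {t : ℕ} (h : s.al t = false) : s.c t = false := by
  by_contra hc
  have := (hv.c_le t (by simpa using hc)).2
  rw [h] at this; cases this

theorem c_false' (hv : p.Valid s) {t : ℕ} (h : s.d ≤ t) : s.c t = false := by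
  by_contra hc
  have := (hv.c_le t (by simpa using hc)).1
  omega

theorem pi_false (hv : p.Valid s) {t : ℕ} (h : s.al t = false) : s.pi t = false := by
  by_contra hc
  have := (hv.pi_le t (by simpa using hc)).2
  rw [h] at this; cases this

/-- the height of `p_t` when the dent is not flipped -/
theorem uP_al_false (hv : p.Valid s) {t : ℕ} (ht : t ≤ s.d) (h : s.al t = false) :
    p.uP s t = p.U s.c t + p.h t := by
  rcases Nat.lt_or_ge t s.d with h1 | h1
  · exact uP_ff h1 (pi_false hv h) (c_false hv h)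
  · have : t = s.d := by omega
    subst this; exact uP_d

theorem six_pos (n : ℕ) : (1:ℝ) ≤ 6 ^ n := one_le_pow₀ (by norm_num)

theorem scale_le {Λ e : ℝ} (hΛ : 1 ≤ Λ) (he : 1 / 4 ≤ e) : 1 / 4 ≤ Λ * e := by
  nlinarith

theorem Y_ge (hok : p.Ok Y) : 20 * p.H + 4 * p.m ≤ Y := by
  have := hok.Ule (fun _ => false) 0 (Nat.zero_le _)
  have h0 : p.U (fun _ => false) 0 = 0 := rfl
  rw [h0] at this
  linarith [this.2]

theorem M_ge (hok : p.Ok Y) : 100 * Y ≤ p.M := by
  have h1 := Y_ge hok
  have h2 := hok.hH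
  have h3 : (0:ℝ) ≤ p.m := Nat.cast_nonneg _
  have h4 := six_pos p.m
  have h5 := hok.MY
  have h6 : 0 ≤ Y := by linarith
  nlinarith

theorem W_le (hok : p.Ok Y) (c : ℕ → Bool) : 0 ≤ p.U c p.m ∧ p.U c p.m ≤ Y := by
  have h1 := hok.Ule c p.m le_rfl
  have h2 := hok.hH
  have h3 : (0:ℝ) ≤ p.m := Nat.cast_nonneg _
  exact ⟨h1.1, by linarith [h1.2]⟩

theorem cp_out (hok : p.Ok Y) (hv : p.Valid s) {i j : ℕ} (h : p.CP s i j) (hi : i ≠ 0) :
    1 / 4 ≤ p.sep s i * (p.x j - p.x i) - (p.F s j - p.F s i) := by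
  have hH := hok.hH
  have hdm := hv.dm
  have hκ2 := hok.κ2
  have hκH := hok.κH
  have he2 := hok.e2
  have hM := M_ge hok
  have hYg := Y_ge hok
  have hmnn : (0:ℝ) ≤ p.m := Nat.cast_nonneg _
  have hW := W_le hok s.c
  have hq1 := abs_le.1 hok.q1Y
  have hq2 := abs_le.1 hok.q2Y
  obtain ⟨e3, e4, e5, e6, e7, e8⟩ := hok.fin s.c
  cases h with
  | l => exact absurd rfl hi
  | sa t ht htd hal =>
    rw [p.sep_s s ht.le, p.x_s ht.le, p.x_a ht.le, p.F_s s ht.le, p.F_a s ht, uS_le htd,
      uA_true htd hal]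
    have := scale_le (six_pos (p.m - t)) (show (1:ℝ) / 4 ≤ 1 by norm_num)
    linarith
  | sp t ht htd hal =>
    rw [p.sep_s s ht.le, p.x_s ht.le, p.x_p ht, p.F_s s ht.le, p.F_p s ht, uS_le htd,
      uP_al_false hv htd hal, pow_split ht]
    have h1 := p.h_ge ht.le
    have h2 := hok.δnn t
    have := scale_le (six_pos (p.m - (t + 1)))
      (show (1:ℝ) / 4 ≤ 4 * p.h t + 8 * p.δ t + 8 by linarith)
    linarith
  | ap t ht htd hal hpi =>
    rw [p.sep_a s ht, p.x_a ht.le, p.x_p ht, p.F_a s ht, p.F_p s ht, uA_true htd.le hal,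
      pow_split ht]
    have h1 := p.h_ge ht.le
    have h2 := hok.δnn t
    by_cases hc : s.c t = true
    · rw [uP_tt htd hpi hc]
      have := scale_le (six_pos (p.m - (t + 1)))
        (show (1:ℝ) / 4 ≤ 2 * p.H + 4 * p.δ t by linarith)
      linarith
    · rw [uP_tf htd hpi (by simpa using hc)]
      have := scale_le (six_pos (p.m - (t + 1)))
        (show (1:ℝ) / 4 ≤ 2 * p.H by linarith)
      linarith
  | as t ht htd hal hpi =>
    rw [p.sep_a s ht, p.x_a ht.le, p.F_a s ht, uA_true htd.le hal,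
      show 3 * t + 4 = 3 * (t + 1) + 1 by ring, p.x_s (j := t + 1) ht, p.F_s s (j := t + 1) ht,
      uS_le (t := t + 1) htd, U_succ, pow_split ht]
    have h1 := p.h_ge ht.le
    have h2 := hok.δnn t
    have h3 := hok.δle t
    by_cases hc : s.c t = true
    · rw [hc, if_pos rfl]
      have := scale_le (six_pos (p.m - (t + 1)))
        (show (1:ℝ) / 4 ≤ 6 * p.H + 2 * p.h t + 6 * p.δ t - 4 * p.δ t by linarith)
      linarith
    · rw [if_neg hc]
      have := scale_le (six_pos (p.m - (t + 1)))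
        (show (1:ℝ) / 4 ≤ 6 * p.H + 2 * p.h t + 6 * p.δ t by linarith)
      linarith
  | ps t ht htd hor =>
    rw [p.sep_p s ht, p.x_p ht, p.F_p s ht,
      show 3 * t + 4 = 3 * (t + 1) + 1 by ring, p.x_s (j := t + 1) ht, p.F_s s (j := t + 1) ht,
      uS_le (t := t + 1) htd, U_succ]
    have h1 := p.h_ge ht.le
    have h2 := hok.δnn t
    have h3 := hok.δle t
    rcases hor with hal | ⟨hal, hpi⟩
    · rw [uP_al_false hv htd.le hal, hal, c_false hv hal]
      simp only [Bool.false_eq_true, if_false]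
      have := scale_le (six_pos (p.m - (t + 1)))
        (show (1:ℝ) / 4 ≤ 2 * p.H by linarith)
      linarith
    · rw [hal, if_pos rfl]
      by_cases hc : s.c t = true
      · rw [uP_tt htd hpi hc, hc, if_pos rfl]
        have := scale_le (six_pos (p.m - (t + 1)))
          (show (1:ℝ) / 4 ≤ -2 * p.H + 2 * p.h t + 2 * p.δ t - 4 * p.δ t by linarith)
        linarith
      · rw [uP_tf htd hpi (by simpa using hc), if_neg hc]
        have := scale_le (six_pos (p.m - (t + 1)))
          (show (1:ℝ) / 4 ≤ -2 * p.H + 2 * p.h t + 6 * p.δ t by linarith)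
        linarith
  | aO hd hal =>
    rw [p.sep_a s hd, p.x_a hd.le, p.F_a s hd, uA_true le_rfl hal, p.x_O, p.F_O]
    have hO : p.fO s = 0 := by unfold fO; rw [hv.en0 hd]
    rw [hO]
    have h1 := p.h_ge hd.le
    have h2 := hok.δnn s.d
    have := scale_le (six_pos (p.m - s.d))
      (show (1:ℝ) / 4 ≤ 2 * p.H + p.h s.d + p.δ s.d by linarith)
    linarith
  | pO hd hal =>
    rw [p.sep_p s hd, p.x_p hd, p.F_p s hd, uP_d, p.x_O, p.F_O, hal]
    have hO : p.fO s = 0 := by unfold fO; rw [hv.en0 hd]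
    rw [hO]
    simp only [Bool.false_eq_true, if_false]
    have h1 := p.h_ge hd.le
    have := scale_le (six_pos (p.m - (s.d + 1)))
      (show (1:ℝ) / 4 ≤ 4 * (2 * p.H + p.h s.d) by linarith)
    linarith
  | oq hd =>
    rw [p.sep_O, p.x_O, p.x_Q, p.F_O, p.F_Q, if_pos hd]
    have hO : p.fO s = 0 := by unfold fO; rw [hv.en0 hd]
    have hQ : p.fQ s = 2 * p.q1 := by unfold fQ; rw [hv.en0 hd]
    rw [hO, hQ]
    linarith
  | qr hd =>
    rw [p.sep_Q, p.x_Q, p.x_R, p.F_Q, p.F_R]
    have hQ : p.fQ s = 2 * p.q1 := by unfold fQ; rw [hv.en0 hd]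
    rw [hQ, hv.en0 hd, if_neg (by decide)]
    linarith
  | rz =>
    rw [p.sep_R, p.x_R, p.x_Z, p.F_R, p.F_Z]
    linarith
  | wO hd hen ho =>
    rw [p.sep_s s le_rfl, p.x_s le_rfl, p.x_O, p.F_s s le_rfl, p.F_O, uS_le (by omega), h_m,
      hok.δm, Nat.sub_self, pow_zero]
    have hO : p.fO s = 0 := by unfold fO; rw [hen]
    rw [hO]
    linarith
  | OQ0 hd hen ho =>
    have hO : p.fO s = 0 := by unfold fO; rw [hen]
    have hQ : p.fQ s = 2 * p.q1 := by unfold fQ; rw [hen]
    rw [p.sep_O, p.x_O, p.x_Q, p.F_O, p.F_Q, if_neg (by omega), hO, hQ, hen]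
    simp only
    rcases e3 with h | h <;> linarith
  | QR0 hd hen =>
    have hQ : p.fQ s = 2 * p.q1 := by unfold fQ; rw [hen]
    rw [p.sep_Q, p.x_Q, p.x_R, p.F_Q, p.F_R, hQ, hen, if_neg (by decide)]
    linarith
  | wQ hd hen ho =>
    have hQ : p.fQ s = 2 * p.q1 := by unfold fQ; rw [hen]
    rw [p.sep_s s le_rfl, p.x_s le_rfl, p.x_Q, p.F_s s le_rfl, p.F_Q, uS_le (by omega), h_m,
      hok.δm, Nat.sub_self, pow_zero, hQ]
    linarith
  | wc hd hen =>
    rw [p.sep_s s le_rfl, p.x_s le_rfl, p.x_a le_rfl, p.F_s s le_rfl, p.F_c, uS_le (by omega), h_m,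
      hok.δm, Nat.sub_self, pow_zero]
    unfold fC
    rcases hh : s.en with _ | _ | _ | _ | _
    · exact absurd hh hen
    · simp only
      linarith
    · simp only
      linarith
    · simp only
      linarith
    · simp only
      linarith
  | cO hd hen ho =>
    rw [p.sep_c, p.x_a le_rfl, p.x_O, p.F_c, p.F_O, Nat.sub_self, pow_zero]
    unfold fC fO
    unfold oF at ho
    rcases hh : s.en with _ | _ | _ | _ | _
    · exact absurd hh hen
    · simp only [if_true]
      linarith
    · rw [hh] at ho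
      simp only [reduceCtorEq, if_false] at ho ⊢
      linarith
    · have := hv.enc hh
      simp only [reduceCtorEq, if_false]
      linarith
    · simp only [reduceCtorEq, if_false]
      linarith
  | cQ hd hen ho hq =>
    rw [p.sep_c, p.x_a le_rfl, p.x_Q, p.F_c, p.F_Q, Nat.sub_self, pow_zero]
    unfold fC fQ
    rw [hen]
    simp only [reduceCtorEq, if_false]
    have := hv.enb hen
    linarith
  | OQ hd hen ho hq =>
    rw [p.sep_O, p.x_O, p.x_Q, p.F_O, p.F_Q, if_neg (by omega)]
    unfold fO fQ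
    unfold oF at ho
    unfold qF at hq
    rcases hh : s.en with _ | _ | _ | _ | _
    · exact absurd hh hen
    · have := hv.ena hh
      have := e5 this
      simp only
      linarith
    · rw [hh] at ho hq
      simp only at ho hq ⊢
      rcases e4 with h | h <;> linarith
    · have := hv.enc hh
      simp only
      linarith
    · simp only
      linarith
  | OR hd hen ho hq =>
    rw [p.sep_O, p.x_O, p.x_R, p.F_O, p.F_R, if_neg (by omega)]
    unfold fO
    rw [hen]
    simp only
    linarith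
  | QR hd hen hq =>
    rw [p.sep_Q, p.x_Q, p.x_R, p.F_Q, p.F_R]
    unfold fQ
    rcases hh : s.en with _ | _ | _ | _ | _
    · exact absurd hh hen
    · simp only [reduceCtorEq, if_false]; linarith
    · simp only [reduceCtorEq, if_false]; linarith
    · simp only [reduceCtorEq, if_false]; linarith
    · have := hv.end2 hh
      simp only [if_true]
      linarith

theorem cp_in (hok : p.Ok Y) (hv : p.Valid s) {i j : ℕ} (h : p.CP s i j)
    (hj : j ≠ 3 * p.m + 6) :
    1 / 4 ≤ (p.F s j - p.F s i) - p.sep s j * (p.x j - p.x i) := by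
  have hH := hok.hH
  have hdm := hv.dm
  have hκ2 := hok.κ2
  have hκH := hok.κH
  have he2 := hok.e2
  have hM := M_ge hok
  have hYg := Y_ge hok
  have hmnn : (0:ℝ) ≤ p.m := Nat.cast_nonneg _
  have hW := W_le hok s.c
  have hq1 := abs_le.1 hok.q1Y
  have hq2 := abs_le.1 hok.q2Y
  obtain ⟨e3, e4, e5, e6, e7, e8⟩ := hok.fin s.c
  cases h with
  | l =>
    rw [show (1:ℕ) = 3 * 0 + 1 by norm_num, p.sep_s s (Nat.zero_le _), p.x_s (Nat.zero_le _),
      p.x_zero, p.F_zero, p.F_s s (Nat.zero_le _), uS_le (Nat.zero_le _)]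
    have h0 : p.U s.c 0 = 0 := rfl
    rw [h0, Nat.sub_zero]
    have h1 := hok.δle 0
    have h2 : p.h 0 = 5 * p.H + p.m := by unfold h; push_cast; ring
    rw [h2]
    linarith
  | sa t ht htd hal =>
    rw [p.sep_a s ht, p.x_s ht.le, p.x_a ht.le, p.F_s s ht.le, p.F_a s ht, uS_le htd,
      uA_true htd hal]
    have h1 := p.h_ge ht.le
    have h2 := hok.δnn t
    have := scale_le (six_pos (p.m - t)) (show (1:ℝ) / 4 ≤ p.h t + p.δ t - 2 * p.H by linarith)
    linarith
  | sp t ht htd hal =>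
    rw [p.sep_p s ht, p.x_s ht.le, p.x_p ht, p.F_s s ht.le, p.F_p s ht, uS_le htd,
      uP_al_false hv htd hal, pow_split ht, hal]
    simp only [Bool.false_eq_true, if_false]
    have h1 := p.h_ge ht.le
    have := scale_le (six_pos (p.m - (t + 1)))
      (show (1:ℝ) / 4 ≤ 4 * p.h t - 16 * p.H by linarith)
    linarith
  | ap t ht htd hal hpi =>
    rw [p.sep_p s ht, p.x_a ht.le, p.x_p ht, p.F_a s ht, p.F_p s ht, uA_true htd.le hal,
      pow_split ht, hal, if_pos rfl]
    have h1 := p.h_ge ht.le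
    have h2 := hok.δnn t
    have h3 := hok.δle t
    by_cases hc : s.c t = true
    · rw [uP_tt htd hpi hc]
      have := scale_le (six_pos (p.m - (t + 1)))
        (show (1:ℝ) / 4 ≤ 4 * p.H - 4 * p.δ t by linarith)
      linarith
    · rw [uP_tf htd hpi (by simpa using hc)]
      have := scale_le (six_pos (p.m - (t + 1)))
        (show (1:ℝ) / 4 ≤ 4 * p.H by linarith)
      linarith
  | as t ht htd hal hpi =>
    rw [p.x_a ht.le, p.F_a s ht, uA_true htd.le hal,
      show 3 * t + 4 = 3 * (t + 1) + 1 by ring, p.sep_s s (j := t + 1) ht,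
      p.x_s (j := t + 1) ht, p.F_s s (j := t + 1) ht,
      uS_le (t := t + 1) htd, U_succ, h_succ, pow_split ht]
    have h1 := p.h_ge ht.le
    have h2 := hok.δnn t
    have h3 := hok.δle t
    have h4 := hok.δle (t + 1)
    by_cases hc : s.c t = true
    · rw [hc, if_pos rfl]
      have := scale_le (six_pos (p.m - (t + 1)))
        (show (1:ℝ) / 4 ≤ 2 * p.h t + 6 * p.H + 12 * p.δ t - 6 * p.δ t - 4 * p.δ (t + 1) by
          linarith)
      linarith
    · rw [if_neg hc]
      have := scale_le (six_pos (p.m - (t + 1)))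
        (show (1:ℝ) / 4 ≤ 2 * p.h t + 6 * p.H - 6 * p.δ t - 4 * p.δ (t + 1) by linarith)
      linarith
  | ps t ht htd hor =>
    rw [p.x_p ht, p.F_p s ht,
      show 3 * t + 4 = 3 * (t + 1) + 1 by ring, p.sep_s s (j := t + 1) ht,
      p.x_s (j := t + 1) ht, p.F_s s (j := t + 1) ht,
      uS_le (t := t + 1) htd, U_succ, h_succ]
    have h1 := p.h_ge ht.le
    have h2 := hok.δnn t
    have h3 := hok.δle t
    have h4 := hok.δle (t + 1)
    rcases hor with hal | ⟨hal, hpi⟩
    · rw [uP_al_false hv htd.le hal, c_false hv hal]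
      simp only [Bool.false_eq_true, if_false]
      have := scale_le (six_pos (p.m - (t + 1)))
        (show (1:ℝ) / 4 ≤ 2 * p.h t + 4 * p.H - 2 * p.δ (t + 1) by linarith)
      linarith
    · by_cases hc : s.c t = true
      · rw [uP_tt htd hpi hc, hc, if_pos rfl]
        have := scale_le (six_pos (p.m - (t + 1)))
          (show (1:ℝ) / 4 ≤ 2 * p.H + 8 * p.δ t - 2 * p.δ t - 2 * p.δ (t + 1) by linarith)
        linarith
      · rw [uP_tf htd hpi (by simpa using hc), if_neg hc]
        have := scale_le (six_pos (p.m - (t + 1)))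
          (show (1:ℝ) / 4 ≤ 2 * p.H - 6 * p.δ t - 2 * p.δ (t + 1) by linarith)
        linarith
  | aO hd hal =>
    rw [p.sep_O, if_pos hd, p.x_a hd.le, p.F_a s hd, uA_true le_rfl hal, p.x_O, p.F_O]
    have hO : p.fO s = 0 := by unfold fO; rw [hv.en0 hd]
    rw [hO]
    have h1 := top_le hok s.c hd
    have := scale_le (six_pos (p.m - s.d))
      (show (1:ℝ) / 4 ≤ -p.U s.c s.d - p.h s.d - p.δ s.d - p.q1 - 1 by linarith)
    linarith
  | pO hd hal =>
    rw [p.sep_O, if_pos hd, p.x_p hd, p.F_p s hd, uP_d, p.x_O, p.F_O]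
    have hO : p.fO s = 0 := by unfold fO; rw [hv.en0 hd]
    rw [hO]
    have h1 := top_le hok s.c hd
    have h2 := hok.δnn s.d
    have := scale_le (six_pos (p.m - (s.d + 1)))
      (show (1:ℝ) / 4 ≤ 4 * (-p.U s.c s.d - p.h s.d - p.q1 - 1) by linarith)
    linarith
  | oq hd =>
    have hO : p.fO s = 0 := by unfold fO; rw [hv.en0 hd]
    have hQ : p.fQ s = 2 * p.q1 := by unfold fQ; rw [hv.en0 hd]
    rw [p.sep_Q, p.x_O, p.x_Q, p.F_O, p.F_Q, hO, hQ, hv.en0 hd, if_neg (by decide)]
    linarith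
  | qr hd =>
    have hQ : p.fQ s = 2 * p.q1 := by unfold fQ; rw [hv.en0 hd]
    rw [p.sep_R, p.x_Q, p.x_R, p.F_Q, p.F_R, hQ]
    linarith
  | rz => exact absurd rfl hj
  | wO hd hen ho =>
    have hO : p.fO s = 0 := by unfold fO; rw [hen]
    rw [p.sep_O, p.x_s le_rfl, p.x_O, p.F_s s le_rfl, p.F_O, uS_le (by omega),
      Nat.sub_self, pow_zero, hO, if_neg (by omega), hen]
    simp only
    rcases e3 with h | h <;> linarith
  | OQ0 hd hen ho =>
    have hO : p.fO s = 0 := by unfold fO; rw [hen]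
    have hQ : p.fQ s = 2 * p.q1 := by unfold fQ; rw [hen]
    rw [p.sep_Q, p.x_O, p.x_Q, p.F_O, p.F_Q, hO, hQ, hen, if_neg (by decide)]
    linarith
  | QR0 hd hen =>
    have hQ : p.fQ s = 2 * p.q1 := by unfold fQ; rw [hen]
    rw [p.sep_R, p.x_Q, p.x_R, p.F_Q, p.F_R, hQ]
    linarith
  | wQ hd hen ho =>
    have hQ : p.fQ s = 2 * p.q1 := by unfold fQ; rw [hen]
    rw [p.sep_Q, p.x_s le_rfl, p.x_Q, p.F_s s le_rfl, p.F_Q, uS_le (by omega),
      Nat.sub_self, pow_zero, hQ, hen, if_neg (by decide)]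
    have : 1 ≤ p.q1 + p.U s.c p.m := by
      rcases e3 with h | h
      · exact absurd (by linarith) ho
      · exact h
    have := e8 this
    linarith
  | wc hd hen =>
    rw [p.sep_c, p.x_s le_rfl, p.x_a le_rfl, p.F_s s le_rfl, p.F_c, uS_le (by omega),
      Nat.sub_self, pow_zero]
    unfold fC
    rcases hh : s.en with _ | _ | _ | _ | _
    · exact absurd hh hen
    · simp only [if_true]
      linarith
    · simp only [reduceCtorEq, if_false]
      linarith
    · simp only [reduceCtorEq, if_false]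
      linarith
    · simp only [reduceCtorEq, if_false]
      linarith
  | cO hd hen ho =>
    rw [p.sep_O, if_neg (by omega), p.x_a le_rfl, p.x_O, p.F_c, p.F_O, Nat.sub_self, pow_zero]
    unfold fC fO
    unfold oF at ho
    rcases hh : s.en with _ | _ | _ | _ | _
    · exact absurd hh hen
    · have := e5 (hv.ena hh)
      simp only
      linarith
    · rw [hh] at ho
      simp only at ho ⊢
      rcases e4 with h | h <;> linarith
    · have := hv.enc hh
      simp only
      linarith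
    · simp only
      linarith
  | cQ hd hen ho hq =>
    rw [p.sep_Q, p.x_a le_rfl, p.x_Q, p.F_c, p.F_Q, Nat.sub_self, pow_zero]
    unfold fC fQ
    rw [hen]
    simp only [reduceCtorEq, if_false]
    rcases e6 with h | h <;> linarith
  | OQ hd hen ho hq =>
    rw [p.sep_Q, p.x_O, p.x_Q, p.F_O, p.F_Q]
    unfold fO fQ
    unfold oF at ho
    unfold qF at hq
    rcases hh : s.en with _ | _ | _ | _ | _
    · exact absurd hh hen
    · simp only [reduceCtorEq, if_false]
      linarith
    · rw [hh] at ho hq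
      simp only [reduceCtorEq, if_false] at ho hq ⊢
      rcases e6 with h | h <;> linarith
    · have := hv.enc hh
      simp only [reduceCtorEq, if_false]
      linarith
    · have := hv.end2 hh
      simp only [if_true]
      linarith
  | OR hd hen ho hq =>
    rw [p.sep_R, p.x_O, p.x_R, p.F_O, p.F_R]
    unfold fO
    rw [hen]
    simp only
    linarith
  | QR hd hen hq =>
    rw [p.sep_R, p.x_Q, p.x_R, p.F_Q, p.F_R]
    unfold fQ
    rcases hh : s.en with _ | _ | _ | _ | _
    · exact absurd hh hen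
    · simp only; linarith
    · simp only; linarith
    · simp only; linarith
    · simp only; linarith

end Par

end Pool.Agent.Helper480_Flip
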