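import Pool.Agent.Helper480_Flip.Path

/-!
# The polygon and its flips
-/

namespace Pool.Agent.Helper480_Flip

namespace Par

variable {p : Par} {s : St} {Y : ℝ} {v : ℕ → Pt}

/-- growth of the error in one flip -/
noncomputable def K (p : Par) : ℝ := 256 * p.M ^ 3

/-- horizontal scale -/
noncomputable def E (p : Par) : ℝ := p.K ^ (3 * p.m + 4)

/-- the error after `r` flips -/
noncomputable def err (p : Par) (r : ℕ) : ℝ := p.K ^ r / p.E

theorem M_big (hok : p.Ok Y) : 2000 ≤ p.M := by
  have h1 := M_ge hok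
  have h2 := Y_ge hok
  have h3 := hok.hH
  have h4 : (0:ℝ) ≤ p.m := Nat.cast_nonneg _
  linarith

theorem K_big (hok : p.Ok Y) : 256 * p.M ≤ p.K := by
  have h := M_big hok
  unfold K
  have : 1 ≤ p.M ^ 2 := one_le_pow₀ (by linarith)
  nlinarith

theorem K_one (hok : p.Ok Y) : 1 ≤ p.K := by
  have h := M_big hok
  have := K_big hok
  linarith

theorem E_one (hok : p.Ok Y) : 1 ≤ p.E := one_le_pow₀ (K_one hok)

theorem err_succ (p : Par) (r : ℕ) : p.err (r + 1) = 256 * p.M ^ 3 * p.err r := by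
  unfold err
  rw [pow_succ, mul_comm (p.K ^ r), mul_div_assoc]
  rfl

theorem err_lower (hok : p.Ok Y) (r : ℕ) : 1 / p.E ^ 2 ≤ p.err r := by
  have h1 := E_one hok
  have h2 : 1 ≤ p.K ^ r := one_le_pow₀ (K_one hok)
  unfold err
  rw [div_le_div_iff₀ (by positivity) (by linarith)]
  nlinarith

theorem err_pos (hok : p.Ok Y) (r : ℕ) : 0 < p.err r := by
  have h1 := E_one hok
  exact lt_of_lt_of_le (by positivity) (err_lower hok r)

theorem err_upper (hok : p.Ok Y) {r : ℕ} (hr : r ≤ 3 * p.m + 2) : p.err r ≤ 1 / p.K ^ 2 := by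
  have h1 := K_one hok
  have h0 : 0 < p.K := by linarith
  unfold err E
  rw [div_le_div_iff₀ (by positivity) (by positivity), one_mul, ← pow_add]
  exact pow_le_pow_right₀ h1 (by omega)

theorem err_small (hok : p.Ok Y) {r : ℕ} (hr : r ≤ 3 * p.m + 2) :
    24 * p.M * p.err r < 1 / 4 ∧ 2 * (p.M + 1) * p.err r < 1 / 4 ∧ p.err r ≤ 1 / 8 := by
  have h0 := M_big hok
  have h1 := err_upper hok hr
  have h2 := K_big hok
  have h3 := K_one hok
  have h4 := err_pos hok r
  have hK0 : 0 < p.K := by linarith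
  have h5 : p.M * (1 / p.K ^ 2) ≤ 1 / 256 / p.K := by
    rw [div_div, mul_one_div, div_le_div_iff₀ (by positivity) (by positivity)]
    nlinarith
  have h6 : 1 / 256 / p.K ≤ 1 / 256 / 1000 := by
    apply div_le_div_of_nonneg_left (by norm_num) (by norm_num)
    linarith
  have h7 : p.M * p.err r ≤ 1 / 256 / 1000 := by
    have := mul_le_mul_of_nonneg_left h1 (show 0 ≤ p.M by linarith)
    linarith
  have h8 : p.err r ≤ p.M * p.err r := by nlinarith
  refine ⟨?_, ?_, ?_⟩ <;> nlinarith

/-- `v` is near the flat polygon of the state `s`, with the error bound after `r` flips -/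
structure Near (p : Par) (r : ℕ) (s : St) (v : ℕ → Pt) : Prop where
  left : (v 0).2 = -p.M
  right : (v (3 * p.m + 6)).2 = -p.M
  pt : ∀ k ≤ 3 * p.m + 6, NearPt p.E (p.err r) (p.x k) (p.F s k) (v k)

theorem F_le (hok : p.Ok Y) (hv : p.Valid s) {k : ℕ} (hk : k ≤ 3 * p.m + 6) :
    |p.F s k| ≤ p.M := by
  have h0 := M_big hok
  rcases Nat.eq_zero_or_pos k with rfl | h
  · rw [p.F_zero, abs_neg, abs_of_nonneg (by linarith)]
  · rcases Nat.lt_or_ge k (3 * p.m + 6) with h1 | h1
    · have := F_bound hok hv h h1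
      linarith
    · have : k = 3 * p.m + 6 := by omega
      subst this
      rw [p.F_Z, abs_neg, abs_of_nonneg (by linarith)]

theorem near_mono (hok : p.Ok Y) (hv : p.Valid s) {r : ℕ} (hr : r ≤ 3 * p.m + 2)
    (h : p.Near r s v) : Mono (3 * p.m + 6) v := by
  have hE := E_one hok
  obtain ⟨_, _, he⟩ := err_small hok hr
  have he0 := err_pos hok r
  have hM := M_big hok
  refine ⟨by omega, ?_, ?_, ?_⟩
  · intro i j hij hj
    have h1 := abs_le.1 (h.pt i (by omega)).1
    have h2 := abs_le.1 (h.pt j hj).1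
    have h3 := p.x_lt hij hj
    have h4 : p.E * p.err r ≤ p.E * (1 / 8) := mul_le_mul_of_nonneg_left he (by linarith)
    have h5 : p.E * (p.x i + 1) ≤ p.E * p.x j := mul_le_mul_of_nonneg_left h3 (by linarith)
    linarith
  · rw [h.left, h.right]
  · intro k h0 hk
    have h1 := abs_le.1 (h.pt k hk.le).2
    have h2 := abs_le.1 (F_bound hok hv h0 hk)
    rw [h.left]
    linarith

theorem near_cert (hok : p.Ok Y) (hv : p.Valid s) {r : ℕ} (hr : r ≤ 3 * p.m + 2)
    (h : p.Near r s v) : Cert (3 * p.m + 6) v (p.hull s) := by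
  have hE := E_one hok
  obtain ⟨he1, he2, he3⟩ := err_small hok hr
  have he0 := err_pos hok r
  have hM := M_big hok
  have hmono := near_mono hok hv hr h
  refine ⟨hmono, p.hull_zero s, p.hull_Z s, ?_, ?_⟩
  · intro i j k hij hjk hk hi hj hkk hno1 hno2
    have c1 := cp_of_consec hok hv (i := i) (j := j) ⟨hij, hi, hj, hno1⟩ (by omega)
    have c2 := cp_of_consec hok hv (i := j) (j := k) ⟨hjk, hj, hkk, hno2⟩ hk
    have s1 := near_slope_gt (by linarith) (sep_bound hok s (k := j) (by omega) (by omega))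
      (h.pt i (by omega)) (h.pt j (by omega))
      (lt_of_lt_of_le he2 (cp_in hok hv c1 (by omega)))
    have s2 := near_slope_lt (by linarith) (sep_bound hok s (k := j) (by omega) (by omega))
      (h.pt j (by omega)) (h.pt k hk)
      (lt_of_lt_of_le he2 (cp_out hok hv c2 (by omega)))
    have x1 := hmono.x i j hij (by omega)
    have x2 := hmono.x j k hjk hk
    have t1 : ((v j).1 - (v i).1) * (p.E * ((v k).2 - (v j).2)) <
        ((v j).1 - (v i).1) * (p.sep s j * ((v k).1 - (v j).1)) :=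
      mul_lt_mul_of_pos_left s2 (by linarith)
    have t2 : ((v k).1 - (v j).1) * (p.sep s j * ((v j).1 - (v i).1)) <
        ((v k).1 - (v j).1) * (p.E * ((v j).2 - (v i).2)) :=
      mul_lt_mul_of_pos_left s1 (by linarith)
    have t3 : p.E * cross (v i) (v j) (v k) < 0 := by
      unfold cross
      linarith
    by_contra hcon
    push Not at hcon
    have : 0 ≤ p.E * cross (v i) (v j) (v k) := mul_nonneg (by linarith) hcon
    linarith
  · intro i k j hik hkj hj hi hjj hno
    have c1 := cp_of_consec hok hv (i := i) (j := j) ⟨by omega, hi, hjj, hno⟩ hj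
    have hd := cp_dent hok hv c1 hik hkj
    refine near_cross (E := p.E) (e := p.err r) (B := p.M) (by linarith) he0.le (by linarith)
      (by linarith) (h.pt i (by omega)) (h.pt j hj) (h.pt k (by omega))
      (F_le hok hv (by omega)) (F_le hok hv hj) (F_le hok hv (by omega))
      (x_bound hok i (by omega)) (x_bound hok j hj) (x_bound hok k (by omega)) ?_
    linarith

/-- the result of a flip is near the flat polygon of the next state -/
theorem near_step (hok : p.Ok Y) (hv : p.Valid s) {r : ℕ} (hr : r ≤ 3 * p.m + 2)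
    (h : p.Near r s v) {s' : St} {i j : ℕ} (ht : p.Tr s s' i j) (hj : j ≤ 3 * p.m + 6)
    {w : ℕ → Pt} (hw1 : ∀ k, i < k → k < j → w k = mirror (v i) (v j) (v k))
    (hw2 : ∀ k ≤ 3 * p.m + 6, ¬ (i < k ∧ k < j) → w k = v k) : p.Near (r + 1) s' w := by
  have hE := E_one hok
  obtain ⟨he1, he2, he3⟩ := err_small hok hr
  have he0 := err_pos hok r
  have hM := M_big hok
  refine ⟨?_, ?_, ?_⟩
  · rw [hw2 0 (Nat.zero_le _) (by omega)]; exact h.left
  · rw [hw2 _ le_rfl (by omega)]; exact h.right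
  · intro k hk
    by_cases hin : i < k ∧ k < j
    · rw [hw1 k hin.1 hin.2, ht.fl k hin.1 hin.2, err_succ]
      exact near_mirror hE (by linarith) (err_lower hok r) he3
        (p.x_lt hin.1 hk) (p.x_lt hin.2 hj) (F_le hok hv (by omega)) (F_le hok hv hk)
        (F_le hok hv hj) (h.pt i (by omega)) (h.pt k hk) (h.pt j hj)
    · rw [hw2 k hk hin, ht.same k hk hin]
      refine (h.pt k hk).mono (by linarith) ?_
      rw [err_succ]
      have h1 : 1 ≤ 256 * p.M ^ 3 := K_one hok
      nlinarith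

theorem convexifies_iff (hok : p.Ok Y) : ∀ t (s : St) (v : ℕ → Pt), p.Valid s →
    p.Near (p.rank s) s v → (ConvexifiesIn (3 * p.m + 6 + 1) t v ↔ AConv p t s)
  | 0, s, v, hv, hn => (near_cert hok hv (rank_le hv) hn).convex_iff
  | t + 1, s, v, hv, hn => by
    have hcert := near_cert hok hv (rank_le hv) hn
    have hH : ∃ k, 0 < k ∧ k < 3 * p.m + 6 ∧ p.hull s k :=
      ⟨3 * 0 + 1, by omega, by omega, (p.hull_s s (Nat.zero_le _)).2 (Nat.zero_le _)⟩
    constructor
    · rintro ⟨w, hf, hc⟩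
      obtain ⟨i, j, h1, h2, h3, hw1, hw2, hw3⟩ := (hcert.flip_iff w hH).1 hf
      obtain ⟨s', ht⟩ := tr_exists hok hv (cp_of_consec hok hv h1 h2) h3
      have hn' := near_step hok hv (rank_le hv) hn ht h2 hw1 hw2
      rw [← ht.rk] at hn'
      exact ⟨s', i, j, ht, (convexifies_iff hok t s' w ht.val hn').1 hc⟩
    · rintro ⟨s', i, j, ht, hc⟩
      obtain ⟨hcon, hj⟩ := consec_of_cp hv ht.cp
      obtain ⟨w, hw⟩ : ∃ w : ℕ → Pt, w = fun k =>
        if i < k ∧ k < j then mirror (v i) (v j) (v k) else v k := ⟨_, rfl⟩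
      have hw1 : ∀ k, i < k → k < j → w k = mirror (v i) (v j) (v k) := by
        intro k h1 h2
        rw [hw]
        simp only
        rw [if_pos ⟨h1, h2⟩]
      have hw2 : ∀ k ≤ 3 * p.m + 6, ¬ (i < k ∧ k < j) → w k = v k := by
        intro k _ h2
        rw [hw]
        simp only
        rw [if_neg h2]
      have hn' := near_step hok hv (rank_le hv) hn ht hj hw1 hw2
      rw [← ht.rk] at hn'
      refine ⟨w, (hcert.flip_iff w hH).2 ⟨i, j, hcon, hj, ht.gap, hw1, hw2, ?_⟩,
        (convexifies_iff hok t s' w ht.val hn').2 hc⟩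
      exact (near_mono hok ht.val (rank_le ht.val) hn').simple

/-- The initial polygon is simple, and the numbers of flips of its convexifying sequences. -/
theorem main (hok : p.Ok Y) (hv : ∀ k ≤ 3 * p.m + 6, v k = (p.E * p.x k, p.F st0 k)) :
    IsSimple (3 * p.m + 6 + 1) v ∧ ∀ t, ConvexifiesIn (3 * p.m + 6 + 1) t v ↔
      ∃ c : ℕ → Bool, t = 3 * p.m + rho p (p.U c p.m) := by
  have hn : p.Near (p.rank st0) st0 v := by
    have hE := E_one hok
    have he := err_pos hok (p.rank st0)
    refine ⟨?_, ?_, ?_⟩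
    · rw [hv 0 (Nat.zero_le _), p.F_zero]
    · rw [hv _ le_rfl, p.F_Z]
    · intro k hk
      rw [hv k hk]
      refine ⟨?_, ?_⟩
      · simp only [sub_self, abs_zero]
        exact mul_nonneg (by linarith) he.le
      · simp only [sub_self, abs_zero]
        exact he.le
  refine ⟨(near_mono hok valid_st0 (rank_le valid_st0) hn).simple, ?_⟩
  intro t
  rw [convexifies_iff hok t st0 v valid_st0 hn, aconv_iff hok]

end Par

end Pool.Agent.Helper480_Flip
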