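import Pool.Agent.Helper480_Flip.Defs

/-!
# Polygons consisting of an `x`-monotone chain and its base edge
-/

namespace Pool.Agent.Helper480_Flip

/-- the fundamental affine identity -/
theorem cross_id (p q a b k : Pt) :
    (b.1 - a.1) * cross p q k =
      (b.1 - k.1) * cross p q a + (k.1 - a.1) * cross p q b + (q.1 - p.1) * cross a b k := by
  unfold cross; ring

theorem cross_cyc (a b c : Pt) : cross a b c = cross b c a := by
  unfold cross; ring

theorem cross_swap (a b c : Pt) : cross b a c = - cross a b c := by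
  unfold cross; ring

theorem cross_left (a b : Pt) : cross a b a = 0 := by unfold cross; ring

theorem cross_right (a b : Pt) : cross a b b = 0 := by unfold cross; ring

/-- the vertices `v 0, …, v N` have increasing first coordinates; `v 0` and `v N` are at the same
height, and the other vertices are higher -/
structure Mono (N : ℕ) (v : ℕ → Pt) : Prop where
  two : 2 ≤ N
  x : ∀ i j, i < j → j ≤ N → (v i).1 < (v j).1
  base : (v 0).2 = (v N).2
  up : ∀ k, 0 < k → k < N → (v 0).2 < (v k).2

theorem mod_lt_self {N i : ℕ} (h : i ≤ N) : i % (N + 1) = i := Nat.mod_eq_of_lt (by omega)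

theorem mod_self' (N : ℕ) : (N + 1) % (N + 1) = 0 := Nat.mod_self _

theorem seg_x {a b p : Pt} (h : p ∈ segment ℝ a b) (hab : a.1 < b.1) : a.1 ≤ p.1 ∧ p.1 ≤ b.1 := by
  obtain ⟨s, t, hs, ht, hst, rfl⟩ := h
  simp only [Prod.fst_add, Prod.smul_fst, smul_eq_mul]
  obtain rfl : s = 1 - t := by linarith
  have h1 : 0 ≤ t * (b.1 - a.1) := mul_nonneg ht (by linarith)
  have h2 : 0 ≤ (1 - t) * (b.1 - a.1) := mul_nonneg hs (by linarith)
  constructor <;> linarith

theorem seg_left {a b p : Pt} (h : p ∈ segment ℝ a b) (hab : a.1 < b.1) (hp : p.1 ≤ a.1) :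
    p = a := by
  obtain ⟨s, t, hs, ht, hst, rfl⟩ := h
  simp only [Prod.fst_add, Prod.smul_fst, smul_eq_mul] at hp
  obtain rfl : s = 1 - t := by linarith
  have h1 : t * (b.1 - a.1) ≤ 0 := by linarith
  have h2 : t = 0 := by
    by_contra hne
    have : 0 < t := lt_of_le_of_ne ht (Ne.symm hne)
    have : 0 < t * (b.1 - a.1) := mul_pos this (by linarith)
    linarith
  subst h2
  simp

theorem seg_right {a b p : Pt} (h : p ∈ segment ℝ a b) (hab : a.1 < b.1) (hp : b.1 ≤ p.1) :
    p = b := by
  obtain ⟨s, t, hs, ht, hst, rfl⟩ := h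
  simp only [Prod.fst_add, Prod.smul_fst, smul_eq_mul] at hp
  obtain rfl : t = 1 - s := by linarith
  have h1 : s * (b.1 - a.1) ≤ 0 := by linarith
  have h2 : s = 0 := by
    by_contra hne
    have : 0 < s := lt_of_le_of_ne hs (Ne.symm hne)
    have : 0 < s * (b.1 - a.1) := mul_pos this (by linarith)
    linarith
  subst h2
  simp

/-- a point of a segment at the height of its lower endpoint -/
theorem seg_low {a b p : Pt} (h : p ∈ segment ℝ a b) (hab : a.2 < b.2) (hp : p.2 ≤ a.2) :
    p = a := by
  obtain ⟨s, t, hs, ht, hst, rfl⟩ := h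
  simp only [Prod.snd_add, Prod.smul_snd, smul_eq_mul] at hp
  obtain rfl : s = 1 - t := by linarith
  have h1 : t * (b.2 - a.2) ≤ 0 := by linarith
  have h2 : t = 0 := by
    by_contra hne
    have : 0 < t := lt_of_le_of_ne ht (Ne.symm hne)
    have : 0 < t * (b.2 - a.2) := mul_pos this (by linarith)
    linarith
  subst h2
  simp

theorem seg_height {a b p : Pt} (h : p ∈ segment ℝ a b) {c : ℝ} (ha : c < a.2) (hb : c < b.2) :
    c < p.2 := by
  obtain ⟨s, t, hs, ht, hst, rfl⟩ := h
  simp only [Prod.snd_add, Prod.smul_snd, smul_eq_mul]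
  rcases eq_or_lt_of_le hs with h0 | h0
  · have : t = 1 := by linarith
    subst this
    rw [← h0]
    linarith
  · have h1 := mul_pos h0 (sub_pos.2 ha)
    have h2 := mul_nonneg ht (sub_pos.2 hb).le
    obtain rfl : t = 1 - s := by linarith
    linarith

theorem seg_level {a b p : Pt} (h : p ∈ segment ℝ a b) (hab : a.2 = b.2) : p.2 = a.2 := by
  obtain ⟨s, t, hs, ht, hst, rfl⟩ := h
  simp only [Prod.snd_add, Prod.smul_snd, smul_eq_mul, ← hab]
  rw [← add_mul, hst, one_mul]

namespace Mono

variable {N : ℕ} {v : ℕ → Pt}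

theorem inj (h : Mono N v) : ∀ i < N + 1, ∀ j < N + 1, v i = v j → i = j := by
  intro i hi j hj hij
  rcases lt_trichotomy i j with hl | hl | hl
  · have := h.x i j hl (by omega)
    rw [hij] at this
    exact absurd this (lt_irrefl _)
  · exact hl
  · have := h.x j i hl (by omega)
    rw [hij] at this
    exact absurd this (lt_irrefl _)

theorem simple_aux (h : Mono N v) {i j : ℕ} (hij : i < j) (hj : j ≤ N) :
    edge (N + 1) v i ∩ edge (N + 1) v j ⊆
      {v i, v ((i + 1) % (N + 1))} ∩ {v j, v ((j + 1) % (N + 1))} := by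
  have hi1 : (i + 1) % (N + 1) = i + 1 := Nat.mod_eq_of_lt (by omega)
  rintro p ⟨hp1, hp2⟩
  unfold edge at hp1 hp2
  rw [hi1] at hp1
  rw [hi1]
  rcases Nat.lt_or_ge j N with hjN | hjN
  · have hj1 : (j + 1) % (N + 1) = j + 1 := Nat.mod_eq_of_lt (by omega)
    rw [hj1] at hp2 ⊢
    have h1 := seg_x hp1 (h.x i (i + 1) (by omega) (by omega))
    have h2 := seg_x hp2 (h.x j (j + 1) (by omega) (by omega))
    have hji : j = i + 1 := by
      by_contra hne
      have := h.x (i + 1) j (by omega) (by omega)
      linarith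
    subst hji
    have h3 : p = v (i + 1) := seg_left hp2 (h.x _ _ (by omega) (by omega)) h1.2
    subst h3
    simp
  · have hjN' : j = N := by omega
    subst hjN'
    rw [mod_self'] at hp2 ⊢
    have hlev : p.2 = (v j).2 := seg_level hp2 h.base.symm
    rw [← h.base] at hlev
    rcases Nat.eq_zero_or_pos i with hi0 | hi0
    · subst hi0
      have h3 : p = v 0 := seg_low hp1 (h.up _ (by omega) (by have := h.two; omega)) hlev.le
      subst h3
      simp
    · rcases Nat.lt_or_ge (i + 1) j with hi2 | hi2
      · have := seg_height hp1 (h.up i hi0 (by omega)) (h.up (i + 1) (by omega) hi2)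
        linarith
      · have hi3 : i + 1 = j := by omega
        have h3 : p = v (i + 1) := by
          rw [segment_symm] at hp1
          refine seg_low hp1 ?_ ?_
          · rw [hi3, ← h.base]
            exact h.up i hi0 (by omega)
          · rw [hi3, ← h.base]
            exact hlev.le
        subst h3
        rw [hi3]
        simp

theorem simple (h : Mono N v) : IsSimple (N + 1) v := by
  refine ⟨by have := h.two; omega, h.inj, ?_⟩
  intro i hi j hj hij
  rcases Nat.lt_or_ge i j with hl | hl
  · exact h.simple_aux hl (by omega)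
  · have := h.simple_aux (i := j) (j := i) (by omega) (by omega)
    rw [Set.inter_comm, Set.inter_comm {v i, _}]
    exact this

theorem cross_base (h : Mono N v) {k : ℕ} (h0 : 0 < k) (hk : k < N) :
    0 < cross (v 0) (v N) (v k) := by
  unfold cross
  rw [h.base.symm]
  have h1 := h.up k h0 hk
  have h2 := h.x 0 N (by omega) le_rfl
  simp only [sub_self, mul_zero, sub_zero]
  exact mul_pos (by linarith) (by linarith)

/-- the vertices cannot all be above a line through two vertices, unless it is the base line -/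
theorem not_above (h : Mono N v) {i j : ℕ} (hij : i < j) (hj : j ≤ N) (hne : ¬(i = 0 ∧ j = N))
    (hall : ∀ k < N + 1, 0 ≤ cross (v i) (v j) (v k)) : False := by
  obtain ⟨m, hm0, hmN, hm⟩ : ∃ m, 0 < m ∧ m < N ∧ cross (v i) (v j) (v m) = 0 := by
    by_cases hi : i = 0
    · exact ⟨j, by omega, by omega, cross_right _ _⟩
    · exact ⟨i, by omega, by omega, cross_left _ _⟩
  have h1 := cross_id (v i) (v j) (v 0) (v N) (v m)
  rw [hm] at h1
  have h2 := h.cross_base hm0 hmN
  have h3 := h.x i j hij hj
  have h4 := h.x 0 m hm0 hmN.le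
  have h5 := h.x m N hmN le_rfl
  have h6 := hall 0 (by omega)
  have h7 := hall N (by omega)
  have h8 : 0 < ((v j).1 - (v i).1) * cross (v 0) (v N) (v m) := mul_pos (by linarith) h2
  have h9 : 0 ≤ ((v N).1 - (v m).1) * cross (v i) (v j) (v 0) := mul_nonneg (by linarith) h6
  have h10 : 0 ≤ ((v m).1 - (v 0).1) * cross (v i) (v j) (v N) := mul_nonneg (by linarith) h7
  linarith

end Mono

/-- `H` is the set of the vertices of the upper hull of the chain (certificate) -/
structure Cert (N : ℕ) (v : ℕ → Pt) (H : ℕ → Prop) : Prop where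
  mono : Mono N v
  h0 : H 0
  hN : H N
  conc : ∀ i j k, i < j → j < k → k ≤ N → H i → H j → H k → (∀ l, i < l → l < j → ¬ H l) →
    (∀ l, j < l → l < k → ¬ H l) → cross (v i) (v j) (v k) < 0
  dent : ∀ i k j, i < k → k < j → j ≤ N → H i → H j → (∀ l, i < l → l < j → ¬ H l) →
    cross (v i) (v j) (v k) < 0

/-- `i < j` are consecutive elements of `H` -/
def Consec (H : ℕ → Prop) (i j : ℕ) : Prop := i < j ∧ H i ∧ H j ∧ ∀ l, i < l → l < j → ¬ H l

theorem exists_below {H : ℕ → Prop} (h0 : H 0) (k : ℕ) (hk : 0 < k) :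
    ∃ i, i < k ∧ H i ∧ ∀ l, i < l → l < k → ¬ H l := by
  induction k with
  | zero => omega
  | succ k ih =>
    by_cases hH : H k
    · exact ⟨k, by omega, hH, fun l h1 h2 => by omega⟩
    · rcases Nat.eq_zero_or_pos k with h1 | h1
      · subst h1; exact absurd h0 hH
      · obtain ⟨i, hi1, hi2, hi3⟩ := ih h1
        refine ⟨i, by omega, hi2, ?_⟩
        intro l hl1 hl2
        rcases Nat.lt_or_ge l k with h | h
        · exact hi3 l hl1 h
        · have : l = k := by omega
          subst this; exact hH

theorem exists_above {H : ℕ → Prop} {N : ℕ} (hN : H N) (k : ℕ) (hk : k < N) :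
    ∃ j, k < j ∧ j ≤ N ∧ H j ∧ ∀ l, k < l → l < j → ¬ H l := by
  classical
  have hex : ∃ j, k < j ∧ H j := ⟨N, hk, hN⟩
  have hsp := Nat.find_spec hex
  refine ⟨Nat.find hex, hsp.1, Nat.find_min' hex ⟨hk, hN⟩, hsp.2, ?_⟩
  intro l hl1 hl2 hl3
  exact Nat.find_min hex hl2 ⟨hl1, hl3⟩

namespace Cert

variable {N : ℕ} {v : ℕ → Pt} {H : ℕ → Prop}

theorem bracket (h : Cert N v H) {k : ℕ} (hk : k ≤ N) (hH : ¬ H k) :
    ∃ i j, i < k ∧ k < j ∧ j ≤ N ∧ H i ∧ H j ∧ (∀ l, i < l → l < j → ¬ H l) := by
  have hk0 : 0 < k := by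
    rcases Nat.eq_zero_or_pos k with h1 | h1
    · subst h1; exact absurd h.h0 hH
    · exact h1
  have hkN : k < N := by
    rcases Nat.lt_or_ge k N with h1 | h1
    · exact h1
    · have : k = N := by omega
      subst this; exact absurd h.hN hH
  obtain ⟨i, hi1, hi2, hi3⟩ := exists_below h.h0 k hk0
  obtain ⟨j, hj1, hj2, hj3, hj4⟩ := exists_above h.hN k hkN
  refine ⟨i, j, hi1, hj1, hj2, hi2, hj3, ?_⟩
  intro l h1 h2
  rcases lt_trichotomy l k with h3 | h3 | h3
  · exact hi3 l h1 h3
  · subst h3; exact hH
  · exact hj4 l h3 h2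

/-- all triples of hull vertices make a right turn -/
theorem triple (h : Cert N v H) : ∀ n i j k, k - i ≤ n → i < j → j < k → k ≤ N → H i → H j → H k →
    cross (v i) (v j) (v k) < 0 := by
  intro n
  induction n with
  | zero => intro i j k h1 h2 h3; omega
  | succ n ih =>
    intro i j k hn hij hjk hkN hi hj hk
    by_cases h1 : ∃ l, i < l ∧ l < j ∧ H l
    · obtain ⟨l, hl1, hl2, hl3⟩ := h1
      have c1 := ih i l j (by omega) hl1 hl2 (by omega) hi hl3 hj
      have c2 := ih l j k (by omega) hl2 hjk hkN hl3 hj hk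
      have x1 := h.mono.x i l hl1 (by omega)
      have x2 := h.mono.x l j hl2 (by omega)
      have x3 := h.mono.x j k hjk hkN
      -- `cross l j (·)` is affine; `i` is below the line `l j`
      have e := cross_id (v i) (v j) (v l) (v j) (v k)
      -- use identity with (p,q) = (i,j), (a,b) = (l,j)
      rw [cross_right] at e
      have c1' : cross (v i) (v j) (v l) = - cross (v i) (v l) (v j) := by unfold cross; ring
      rw [c1'] at e
      have t1 : ((v j).1 - (v k).1) * (-cross (v i) (v l) (v j)) < 0 :=
        mul_neg_of_neg_of_pos (by linarith) (by linarith)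
      have t2 : ((v j).1 - (v i).1) * cross (v l) (v j) (v k) < 0 :=
        mul_neg_of_pos_of_neg (by linarith) c2
      have t3 : ((v j).1 - (v l).1) * cross (v i) (v j) (v k) < 0 := by linarith
      by_contra hcon
      push Not at hcon
      have : 0 ≤ ((v j).1 - (v l).1) * cross (v i) (v j) (v k) := mul_nonneg (by linarith) hcon
      linarith
    · by_cases h2 : ∃ l, j < l ∧ l < k ∧ H l
      · obtain ⟨l, hl1, hl2, hl3⟩ := h2
        have c1 := ih i j l (by omega) hij hl1 (by omega) hi hj hl3
        have c2 := ih j l k (by omega) hl1 hl2 hkN hj hl3 hk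
        have x1 := h.mono.x i j hij (by omega)
        have x2 := h.mono.x j l hl1 (by omega)
        have x3 := h.mono.x l k hl2 hkN
        have e := cross_id (v i) (v j) (v j) (v l) (v k)
        rw [cross_right] at e
        have t1 : ((v k).1 - (v j).1) * cross (v i) (v j) (v l) < 0 :=
          mul_neg_of_pos_of_neg (by linarith) c1
        have t2 : ((v j).1 - (v i).1) * cross (v j) (v l) (v k) < 0 :=
          mul_neg_of_pos_of_neg (by linarith) c2
        by_contra hcon
        push Not at hcon
        have : 0 ≤ ((v l).1 - (v j).1) * cross (v i) (v j) (v k) := mul_nonneg (by linarith) hcon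
        linarith
      · push Not at h1 h2
        exact h.conc i j k hij hjk hkN hi hj hk (fun l a b c => h1 l a b c)
          (fun l a b c => h2 l a b c)

theorem triple' (h : Cert N v H) {i j k : ℕ} (hij : i < j) (hjk : j < k) (hkN : k ≤ N) (hi : H i)
    (hj : H j) (hk : H k) : cross (v i) (v j) (v k) < 0 :=
  h.triple (k - i) i j k le_rfl hij hjk hkN hi hj hk

/-- a hull vertex other than `i`, `j` is below the line through consecutive hull vertices -/
theorem below_hull (h : Cert N v H) {i j : ℕ} (hij : Consec H i j) (hj : j ≤ N) {k : ℕ}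
    (hk : k ≤ N) (hki : k ≠ i) (hkj : k ≠ j) (hH : H k) : cross (v i) (v j) (v k) < 0 := by
  obtain ⟨h1, h2, h3, h4⟩ := hij
  rcases Nat.lt_or_ge k i with hlt | hge
  · have := h.triple' hlt h1 hj hH h2 h3
    rw [cross_cyc] at this
    exact this
  · have hki' : i < k := by omega
    rcases Nat.lt_or_ge k j with hlt | hge'
    · exact absurd hH (h4 k hki' hlt)
    · exact h.triple' h1 (by omega) hk h2 h3 hH

theorem below (h : Cert N v H) {i j : ℕ} (hij : Consec H i j) (hj : j ≤ N) {k : ℕ}
    (hk : k ≤ N) (hki : k ≠ i) (hkj : k ≠ j) : cross (v i) (v j) (v k) < 0 := by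
  by_cases hH : H k
  · exact h.below_hull hij hj hk hki hkj hH
  · have hij' := hij
    obtain ⟨h1, h2, h3, h4⟩ := hij'
    by_cases hin : i < k ∧ k < j
    · exact h.dent i k j hin.1 hin.2 hj h2 h3 h4
    · obtain ⟨a, b, ha, hb, hbN, hHa, hHb, hno⟩ := h.bracket hk hH
      have d := h.dent a k b ha hb hbN hHa hHb hno
      have e := cross_id (v i) (v j) (v a) (v b) (v k)
      have x1 := h.mono.x a k ha hk
      have x2 := h.mono.x k b hb hbN
      have x3 := h.mono.x i j h1 hj
      have wa : cross (v i) (v j) (v a) ≤ 0 := by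
        by_cases e1 : a = i
        · subst e1; rw [cross_left]
        · by_cases e2 : a = j
          · subst e2; rw [cross_right]
          · exact (h.below_hull hij hj (by omega) e1 e2 hHa).le
      have wb : cross (v i) (v j) (v b) ≤ 0 := by
        by_cases e1 : b = i
        · subst e1; rw [cross_left]
        · by_cases e2 : b = j
          · subst e2; rw [cross_right]
          · exact (h.below_hull hij hj hbN e1 e2 hHb).le
      have t1 : ((v b).1 - (v k).1) * cross (v i) (v j) (v a) ≤ 0 :=
        mul_nonpos_of_nonneg_of_nonpos (by linarith) wa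
      have t2 : ((v k).1 - (v a).1) * cross (v i) (v j) (v b) ≤ 0 :=
        mul_nonpos_of_nonneg_of_nonpos (by linarith) wb
      have t3 : ((v j).1 - (v i).1) * cross (v a) (v b) (v k) < 0 :=
        mul_neg_of_pos_of_neg (by linarith) d
      by_contra hcon
      push Not at hcon
      have : 0 ≤ ((v b).1 - (v a).1) * cross (v i) (v j) (v k) := mul_nonneg (by linarith) hcon
      linarith

theorem hullEdge_symm {n : ℕ} {v : ℕ → Pt} {i j : ℕ} (h : IsHullEdge n v i j) :
    IsHullEdge n v j i := by
  obtain ⟨h1, h2, h3⟩ := h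
  refine ⟨h1.symm, ?_, ?_⟩
  · rcases h2 with h2 | h2
    · right; intro k hk; rw [cross_swap]; linarith [h2 k hk]
    · left; intro k hk; rw [cross_swap]; linarith [h2 k hk]
  · intro k hk hc
    rw [segment_symm]
    exact h3 k hk (by rw [cross_swap] at hc; linarith)

theorem hullEdge_of_consec (h : Cert N v H) {i j : ℕ} (hij : Consec H i j) (hj : j ≤ N) :
    IsHullEdge (N + 1) v i j := by
  refine ⟨?_, Or.inr ?_, ?_⟩
  · intro he
    have := h.mono.x i j hij.1 hj
    rw [he] at this
    exact lt_irrefl _ this
  · intro k hk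
    by_cases e1 : k = i
    · subst e1; rw [cross_left]
    · by_cases e2 : k = j
      · subst e2; rw [cross_right]
      · exact (h.below hij hj (by omega) e1 e2).le
  · intro k hk hc
    by_cases e1 : k = i
    · subst e1; exact left_mem_segment _ _ _
    · by_cases e2 : k = j
      · subst e2; exact right_mem_segment _ _ _
      · exact absurd hc (h.below hij hj (by omega) e1 e2).ne

theorem hullEdge_base (h : Mono N v) : IsHullEdge (N + 1) v 0 N := by
  have h2 := h.two
  refine ⟨?_, Or.inl ?_, ?_⟩
  · intro he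
    have := h.x 0 N (by omega) le_rfl
    rw [he] at this
    exact lt_irrefl _ this
  · intro k hk
    by_cases e1 : k = 0
    · subst e1; rw [cross_left]
    · by_cases e2 : k = N
      · subst e2; rw [cross_right]
      · exact (h.cross_base (by omega) (by omega)).le
  · intro k hk hc
    by_cases e1 : k = 0
    · subst e1; exact left_mem_segment _ _ _
    · by_cases e2 : k = N
      · subst e2; exact right_mem_segment _ _ _
      · exact absurd hc (h.cross_base (by omega) (by omega)).ne'

/-- an index on a line above which there is no vertex is a hull index -/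
theorem hull_of_top (h : Cert N v H) {i j m : ℕ} (hij : i < j) (hj : j ≤ N) (hm : m ≤ N)
    (hc : cross (v i) (v j) (v m) = 0) (hall : ∀ k < N + 1, cross (v i) (v j) (v k) ≤ 0) : H m := by
  by_contra hH
  obtain ⟨a, b, ha, hb, hbN, hHa, hHb, hno⟩ := h.bracket hm hH
  have d := h.dent a m b ha hb hbN hHa hHb hno
  have e := cross_id (v i) (v j) (v a) (v b) (v m)
  rw [hc] at e
  have x1 := h.mono.x a m ha hm
  have x2 := h.mono.x m b hb hbN
  have x3 := h.mono.x i j hij hj
  have t1 : ((v b).1 - (v m).1) * cross (v i) (v j) (v a) ≤ 0 :=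
    mul_nonpos_of_nonneg_of_nonpos (by linarith) (hall a (by omega))
  have t2 : ((v m).1 - (v a).1) * cross (v i) (v j) (v b) ≤ 0 :=
    mul_nonpos_of_nonneg_of_nonpos (by linarith) (hall b (by omega))
  have t3 : ((v j).1 - (v i).1) * cross (v a) (v b) (v m) < 0 :=
    mul_neg_of_pos_of_neg (by linarith) d
  linarith

theorem consec_of_hullEdge (h : Cert N v H) {i j : ℕ} (hij : i < j) (hj : j ≤ N)
    (he : IsHullEdge (N + 1) v i j) : (i = 0 ∧ j = N) ∨ Consec H i j := by
  by_cases hb : i = 0 ∧ j = N
  · exact Or.inl hb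
  · right
    obtain ⟨_, h2, _⟩ := he
    rcases h2 with h2 | h2
    · exact (h.mono.not_above hij hj hb h2).elim
    · have hHi : H i := h.hull_of_top hij hj (by omega) (cross_left _ _) h2
      have hHj : H j := h.hull_of_top hij hj hj (cross_right _ _) h2
      refine ⟨hij, hHi, hHj, ?_⟩
      intro l hl1 hl2 hHl
      have h3 := h.triple' hl1 hl2 hj hHi hHl hHj
      have h4 := h2 l (by omega)
      have h5 : cross (v i) (v j) (v l) = - cross (v i) (v l) (v j) := by unfold cross; ring
      linarith

theorem hullVertex_iff (h : Cert N v H) {k : ℕ} (hk : k ≤ N) : IsHullVertex (N + 1) v k ↔ H k := by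
  have h2 := h.mono.two
  constructor
  · rintro ⟨j, hj, he⟩
    rcases lt_trichotomy k j with h1 | h1 | h1
    · rcases h.consec_of_hullEdge h1 (by omega) he with h3 | h3
      · rw [h3.1]; exact h.h0
      · exact h3.2.1
    · subst h1; exact absurd rfl he.1
    · rcases h.consec_of_hullEdge h1 hk (hullEdge_symm he) with h3 | h3
      · rw [h3.2]; exact h.hN
      · exact h3.2.2.1
  · intro hH
    rcases Nat.lt_or_ge k N with h1 | h1
    · obtain ⟨j, hj1, hj2, hj3, hj4⟩ := exists_above h.hN k h1
      exact ⟨j, by omega, h.hullEdge_of_consec ⟨hj1, hH, hj3, hj4⟩ hj2⟩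
    · have : k = N := by omega
      subst this
      exact ⟨0, by omega, hullEdge_symm (hullEdge_base h.mono)⟩

/-- the pockets are given by consecutive hull indices -/
theorem consec_of_pocket (h : Cert N v H) {i l : ℕ} (hp : IsPocket (N + 1) v i l) :
    i + l ≤ N ∧ Consec H i (i + l) := by
  obtain ⟨hi, hl, hln, he, hno, _⟩ := hp
  have hle : i + l ≤ N := by
    by_contra hgt
    rcases Nat.lt_or_ge i N with h1 | h1
    · refine hno (N - i) (by omega) (by omega) ?_
      rw [show i + (N - i) = N by omega, mod_lt_self le_rfl]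
      exact (h.hullVertex_iff le_rfl).2 h.hN
    · refine hno 1 (by omega) (by omega) ?_
      have : i = N := by omega
      subst this
      rw [mod_self']
      exact (h.hullVertex_iff (Nat.zero_le _)).2 h.h0
  refine ⟨hle, ?_⟩
  rw [mod_lt_self hle] at he
  rcases h.consec_of_hullEdge (by omega) hle he with h3 | h3
  · omega
  · exact h3

theorem pocket_of_consec (h : Cert N v H) {i j : ℕ} (hij : Consec H i j) (hj : j ≤ N)
    (h2 : i + 2 ≤ j) (hne : ¬ (i = 0 ∧ j = N)) : IsPocket (N + 1) v i (j - i) := by
  have hji : i + (j - i) = j := by omega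
  refine ⟨by omega, by omega, by omega, ?_, ?_, ?_⟩
  · rw [hji, mod_lt_self hj]
    exact h.hullEdge_of_consec hij hj
  · intro r hr1 hr2
    rw [mod_lt_self (by omega), h.hullVertex_iff (by omega)]
    exact hij.2.2.2 _ (by omega) (by omega)
  · refine ⟨1, by omega, by omega, ?_⟩
    rw [hji, mod_lt_self hj, mod_lt_self (by omega)]
    exact (h.dent i (i + 1) j (by omega) (by omega) hj hij.2.1 hij.2.2.1 hij.2.2.2).ne

/-- what a flip does -/
theorem flip_iff (h : Cert N v H) (w : ℕ → Pt) (hH : ∃ k, 0 < k ∧ k < N ∧ H k) :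
    Flip (N + 1) v w ↔ ∃ i j, Consec H i j ∧ j ≤ N ∧ i + 2 ≤ j ∧
      (∀ k, i < k → k < j → w k = mirror (v i) (v j) (v k)) ∧
      (∀ k ≤ N, ¬ (i < k ∧ k < j) → w k = v k) ∧ IsSimple (N + 1) w := by
  constructor
  · rintro ⟨i, l, hp, hw1, hw2, hw3⟩
    obtain ⟨h1, h2⟩ := h.consec_of_pocket hp
    refine ⟨i, i + l, h2, h1, by have := hp.2.1; omega, ?_, ?_, hw3⟩
    · intro k hk1 hk2
      have := hw1 (k - i) (by omega) (by omega)
      rw [show i + (k - i) = k by omega, mod_lt_self (show k ≤ N by omega), mod_lt_self h1] at this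
      exact this
    · intro k hk hnk
      rcases Nat.lt_or_ge i k with h3 | h3
      · have := hw2 (k - i) (by omega) (by omega)
        rw [show i + (k - i) = k by omega, mod_lt_self hk] at this
        exact this
      · have := hw2 (N + 1 - i + k) (by omega) (by omega)
        rw [show i + (N + 1 - i + k) = k + (N + 1) by omega, Nat.add_mod_right,
          mod_lt_self hk] at this
        exact this
  · rintro ⟨i, j, h1, h2, h3, hw1, hw2, hw3⟩
    have hji : i + (j - i) = j := by omega
    refine ⟨i, j - i, h.pocket_of_consec h1 h2 h3 ?_, ?_, ?_, hw3⟩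
    · rintro ⟨e1, e2⟩
      obtain ⟨k, hk1, hk2, hk3⟩ := hH
      exact h1.2.2.2 k (by omega) (by omega) hk3
    · intro r hr1 hr2
      rw [hji, mod_lt_self h2, mod_lt_self (by omega)]
      exact hw1 _ (by omega) (by omega)
    · intro r hr1 hr2
      rcases Nat.lt_or_ge (i + r) (N + 1) with h4 | h4
      · rw [mod_lt_self (by omega)]
        exact hw2 _ (by omega) (by omega)
      · have : (i + r) % (N + 1) = i + r - (N + 1) := by
          rw [Nat.mod_eq_sub_mod h4, Nat.mod_eq_of_lt (by omega)]
        rw [this]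
        exact hw2 _ (by omega) (by omega)

theorem convex_iff (h : Cert N v H) : IsConvex (N + 1) v ↔ ∀ k ≤ N, H k := by
  have htwo := h.mono.two
  constructor
  · intro hc k hk
    by_contra hH
    obtain ⟨a, b, ha, hb, hbN, hHa, hHb, hno⟩ := h.bracket hk hH
    have d := h.dent a k b ha hb hbN hHa hHb hno
    have hk1 : (k + 1) % (N + 1) = k + 1 := Nat.mod_eq_of_lt (by omega)
    have hck := hc k (by omega)
    rw [hk1] at hck
    rcases hck with h1 | h1
    · exact h.mono.not_above (by omega) (by omega) (by omega) h1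
    · have e := cross_id (v k) (v (k + 1)) (v a) (v b) (v k)
      rw [cross_left] at e
      have x1 := h.mono.x a k ha hk
      have x2 := h.mono.x k b hb hbN
      have x3 := h.mono.x k (k + 1) (by omega) (by omega)
      have t1 : ((v b).1 - (v k).1) * cross (v k) (v (k + 1)) (v a) ≤ 0 :=
        mul_nonpos_of_nonneg_of_nonpos (by linarith) (h1 a (by omega))
      have t2 : ((v k).1 - (v a).1) * cross (v k) (v (k + 1)) (v b) ≤ 0 :=
        mul_nonpos_of_nonneg_of_nonpos (by linarith) (h1 b (by omega))
      have t3 : ((v (k + 1)).1 - (v k).1) * cross (v a) (v b) (v k) < 0 :=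
        mul_neg_of_pos_of_neg (by linarith) d
      linarith
  · intro hall i hi
    rcases Nat.lt_or_ge i N with h1 | h1
    · right
      have hi1 : (i + 1) % (N + 1) = i + 1 := Nat.mod_eq_of_lt (by omega)
      rw [hi1]
      intro k hk
      have hcon : Consec H i (i + 1) :=
        ⟨by omega, hall _ (by omega), hall _ (by omega), fun l a b => by omega⟩
      by_cases e1 : k = i
      · subst e1; rw [cross_left]
      · by_cases e2 : k = i + 1
        · subst e2; rw [cross_right]
        · exact (h.below hcon (by omega) (by omega) e1 e2).le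
    · right
      have : i = N := by omega
      subst this
      rw [mod_self']
      intro k hk
      rw [cross_swap]
      by_cases e1 : k = 0
      · subst e1; rw [cross_left]; simp
      · by_cases e2 : k = i
        · subst e2; rw [cross_right]; simp
        · linarith [h.mono.cross_base (show 0 < k by omega) (show k < i by omega)]

end Cert

end Pool.Agent.Helper480_Flip
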