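import Pool.Agent.Helper480_Flip.Flat

/-!
# The consecutive pairs of hull vertices, and the inequalities
-/

namespace Pool.Agent.Helper480_Flip

namespace Par

variable {p : Par} {s : St} {Y : ℝ}

theorem no_hull (hv : p.Valid s) (hd : s.d < p.m) {k : ℕ} (h1 : 3 * s.d + 4 ≤ k)
    (h2 : k ≤ 3 * p.m + 2) : ¬ p.hull s k := by
  obtain ⟨t, ht⟩ : ∃ t, k = 3 * t + 1 ∨ k = 3 * t + 2 ∨ k = 3 * t + 3 :=
    ⟨(k - 1) / 3, by omega⟩
  rcases ht with rfl | rfl | rfl
  · rw [p.hull_s s (by omega)]; omega
  · rcases Nat.lt_or_ge t p.m with h | h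
    · rw [p.hull_a s h]
      intro hc
      have := (hv.al_le t hc).1
      omega
    · have : t = p.m := by omega
      subst this
      rw [p.hull_c s]
      intro hc
      exact hc (hv.en0 hd)
  · rw [p.hull_p s (by omega)]
    rintro ⟨h, -⟩
    omega

theorem cp_of_consec (hok : p.Ok Y) (hv : p.Valid s) {i j : ℕ} (h : Consec (p.hull s) i j)
    (hj : j ≤ 3 * p.m + 6) : p.CP s i j := by
  obtain ⟨hij, hi, hjj, hno⟩ := h
  have hdm := hv.dm
  have key : ∀ n, i < n → p.hull s n → j ≤ n := by
    intro n h1 h2
    by_contra h3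
    exact hno n h1 (by omega) h2
  have hfin := hok.fin s.c
  have hcase : i = 0 ∨ (∃ t, t < p.m ∧ i = 3 * t + 1) ∨ (∃ t, t < p.m ∧ i = 3 * t + 2) ∨
      (∃ t, t < p.m ∧ i = 3 * t + 3) ∨ i = 3 * p.m + 1 ∨ i = 3 * p.m + 2 ∨ i = 3 * p.m + 3 ∨
      i = 3 * p.m + 4 ∨ i = 3 * p.m + 5 := by
    by_cases h0 : i = 0
    · exact Or.inl h0
    · by_cases h1 : i ≤ 3 * p.m
      · right
        have : i = 3 * ((i - 1) / 3) + 1 ∨ i = 3 * ((i - 1) / 3) + 2 ∨
            i = 3 * ((i - 1) / 3) + 3 := by omega
        rcases this with h | h | h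
        · exact Or.inl ⟨_, by omega, h⟩
        · exact Or.inr (Or.inl ⟨_, by omega, h⟩)
        · exact Or.inr (Or.inr (Or.inl ⟨_, by omega, h⟩))
      · omega
  rcases hcase with rfl | ⟨t, ht, rfl⟩ | ⟨t, ht, rfl⟩ | ⟨t, ht, rfl⟩ | rfl | rfl | rfl | rfl | rfl
  · have := key 1 (by omega) ((p.hull_s s (j := 0) (by omega)).2 (Nat.zero_le _))
    have : j = 1 := by omega
    subst this
    exact CP.l
  · have htd := (p.hull_s s ht.le).1 hi
    by_cases hal : s.al t = true
    · have := key (3 * t + 2) (by omega) ((p.hull_a s ht).2 hal)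
      have : j = 3 * t + 2 := by omega
      subst this
      exact CP.sa t ht htd hal
    · have hal' : s.al t = false := by simpa using hal
      have := key (3 * t + 3) (by omega) ((p.hull_p s ht).2 ⟨htd, Or.inl hal'⟩)
      have hne : j ≠ 3 * t + 2 := by
        rintro rfl
        exact hal ((p.hull_a s ht).1 hjj)
      have : j = 3 * t + 3 := by omega
      subst this
      exact CP.sp t ht htd hal'
  · have hal := (p.hull_a s ht).1 hi
    have htd := (hv.al_le t hal).1
    rcases Nat.lt_or_ge t s.d with h1 | h1
    · by_cases hpi : s.pi t = true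
      · have := key (3 * t + 3) (by omega) ((p.hull_p s ht).2 ⟨htd, Or.inr hpi⟩)
        have : j = 3 * t + 3 := by omega
        subst this
        exact CP.ap t ht h1 hal hpi
      · have := key (3 * (t + 1) + 1) (by omega) ((p.hull_s s (by omega)).2 (by omega))
        have hne : j ≠ 3 * t + 3 := by
          rintro rfl
          have := ((p.hull_p s ht).1 hjj).2
          rcases this with h | h
          · rw [hal] at h; cases h
          · exact hpi h
        have : j = 3 * t + 4 := by omega
        subst this
        exact CP.as t ht h1 hal (by simpa using hpi)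
    · have htd' : t = s.d := by omega
      subst htd'
      have hpi : ¬ s.pi s.d = true := fun h => by have := (hv.pi_le _ h).1; omega
      have := key (3 * p.m + 3) (by omega) ((p.hull_O s).2 (Or.inl ht))
      have : j = 3 * p.m + 3 := by
        by_contra hne
        by_cases h3 : j = 3 * s.d + 3
        · subst h3
          rcases ((p.hull_p s ht).1 hjj).2 with h | h
          · rw [hal] at h; cases h
          · exact hpi h
        · exact no_hull hv ht (by omega) (by omega) hjj
      subst this
      exact CP.aO ht hal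
  · obtain ⟨htd, hor⟩ := (p.hull_p s ht).1 hi
    rcases Nat.lt_or_ge t s.d with h1 | h1
    · have := key (3 * (t + 1) + 1) (by omega) ((p.hull_s s (by omega)).2 (by omega))
      have : j = 3 * t + 4 := by omega
      subst this
      refine CP.ps t ht h1 ?_
      rcases hor with h | h
      · exact Or.inl h
      · exact Or.inr ⟨(hv.pi_le t h).2, h⟩
    · have htd' : t = s.d := by omega
      subst htd'
      have hpi : ¬ s.pi s.d = true := fun h => by have := (hv.pi_le _ h).1; omega
      have hal : s.al s.d = false := by
        rcases hor with h | h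
        · exact h
        · exact absurd h hpi
      have := key (3 * p.m + 3) (by omega) ((p.hull_O s).2 (Or.inl ht))
      have : j = 3 * p.m + 3 := by
        by_contra hne
        exact no_hull hv ht (by omega) (by omega) hjj
      subst this
      exact CP.pO ht hal
  · have hd : s.d = p.m := by
      have := (p.hull_s s le_rfl).1 hi
      omega
    by_cases hen : s.en = En.e0
    · have hc : ¬ p.hull s (3 * p.m + 2) := by
        rw [p.hull_c]; exact fun h => h hen
      by_cases ho : p.q1 + p.U s.c p.m < 0
      · have hO : p.oF s := by unfold oF; rw [hen]; exact ho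
        have := key (3 * p.m + 3) (by omega) ((p.hull_O s).2 (Or.inr hO))
        have : j = 3 * p.m + 3 := by
          by_contra hne
          have : j = 3 * p.m + 2 := by omega
          subst this
          exact hc hjj
        subst this
        exact CP.wO hd hen ho
      · have hO : ¬ p.hull s (3 * p.m + 3) := by
          rw [p.hull_O]
          rintro (h | h)
          · omega
          · unfold oF at h; rw [hen] at h; exact ho h
        have hQ : p.qF s := by unfold qF; rw [hen]; trivial
        have := key (3 * p.m + 4) (by omega) ((p.hull_Q s).2 hQ)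
        have : j = 3 * p.m + 4 := by
          by_contra hne
          have : j = 3 * p.m + 2 ∨ j = 3 * p.m + 3 := by omega
          rcases this with rfl | rfl
          · exact hc hjj
          · exact hO hjj
        subst this
        exact CP.wQ hd hen ho
    · have := key (3 * p.m + 2) (by omega) ((p.hull_c s).2 hen)
      have : j = 3 * p.m + 2 := by omega
      subst this
      exact CP.wc hd hen
  · have hen := (p.hull_c s).1 hi
    have hd : s.d = p.m := by
      by_contra hne
      exact hen (hv.en0 (by omega))
    by_cases hO : p.oF s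
    · have := key (3 * p.m + 3) (by omega) ((p.hull_O s).2 (Or.inr hO))
      have : j = 3 * p.m + 3 := by omega
      subst this
      exact CP.cO hd hen hO
    · have hb : s.en = En.b1 := by
        unfold oF at hO
        unfold cF at hen
        rcases h : s.en with _ | _ | _ | _ | _ <;> rw [h] at hO hen
        · exact absurd rfl hen
        · exact absurd trivial hO
        · exact absurd trivial hO
        · exact absurd trivial hO
      have hO' : ¬ p.κ < p.q1 + p.U s.c p.m := by
        unfold oF at hO; rw [hb] at hO; exact hO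
      have hlt : p.q2 + p.U s.c p.m < 0 := by
        have := hok.e2
        push Not at hO'
        linarith
      have hQ : p.qF s := by unfold qF; rw [hb]; exact hlt
      have := key (3 * p.m + 4) (by omega) ((p.hull_Q s).2 hQ)
      have : j = 3 * p.m + 4 := by
        by_contra hne
        have : j = 3 * p.m + 3 := by omega
        subst this
        rcases (p.hull_O s).1 hjj with h | h
        · omega
        · exact hO h
      subst this
      exact CP.cQ hd hb hO' hlt
  · have hO := (p.hull_O s).1 hi
    rcases Nat.lt_or_ge s.d p.m with hd | hd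
    · have hQ : p.qF s := by unfold qF; rw [hv.en0 hd]; trivial
      have := key (3 * p.m + 4) (by omega) ((p.hull_Q s).2 hQ)
      have : j = 3 * p.m + 4 := by omega
      subst this
      exact CP.oq hd
    · have hd' : s.d = p.m := by omega
      have hO' : p.oF s := by
        rcases hO with h | h
        · omega
        · exact h
      by_cases hQ : p.qF s
      · have := key (3 * p.m + 4) (by omega) ((p.hull_Q s).2 hQ)
        have : j = 3 * p.m + 4 := by omega
        subst this
        by_cases hen : s.en = En.e0
        · refine CP.OQ0 hd' hen ?_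
          unfold oF at hO'; rw [hen] at hO'; exact hO'
        · exact CP.OQ hd' hen hO' hQ
      · have hb : s.en = En.b1 := by
          unfold qF at hQ
          rcases h : s.en with _ | _ | _ | _ | _ <;> rw [h] at hQ
          · exact absurd trivial hQ
          · exact absurd trivial hQ
          · exact absurd trivial hQ
          · exact absurd trivial hQ
        have := key (3 * p.m + 5) (by omega) (p.hull_R s)
        have : j = 3 * p.m + 5 := by
          by_contra hne
          have : j = 3 * p.m + 4 := by omega
          subst this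
          exact hQ ((p.hull_Q s).1 hjj)
        subst this
        refine CP.OR hd' hb ?_ ?_
        · unfold oF at hO'; rw [hb] at hO'; exact hO'
        · unfold qF at hQ; rw [hb] at hQ; exact hQ
  · have hQ := (p.hull_Q s).1 hi
    have := key (3 * p.m + 5) (by omega) (p.hull_R s)
    have : j = 3 * p.m + 5 := by omega
    subst this
    rcases Nat.lt_or_ge s.d p.m with hd | hd
    · exact CP.qr hd
    · by_cases hen : s.en = En.e0
      · exact CP.QR0 (by omega) hen
      · exact CP.QR (by omega) hen hQ
  · have := key (3 * p.m + 6) (by omega) (p.hull_Z s)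
    have : j = 3 * p.m + 6 := by omega
    subst this
    exact CP.rz

theorem consec_of_cp (hv : p.Valid s) {i j : ℕ} (h : p.CP s i j) :
    Consec (p.hull s) i j ∧ j ≤ 3 * p.m + 6 := by
  have hdm := hv.dm
  cases h with
  | l => exact ⟨⟨by omega, p.hull_zero s, (p.hull_s s (j := 0) (by omega)).2 (Nat.zero_le _),
      fun l h1 h2 => by omega⟩, by omega⟩
  | sa t ht htd hal =>
    exact ⟨⟨by omega, (p.hull_s s ht.le).2 htd, (p.hull_a s ht).2 hal,
      fun l h1 h2 => by omega⟩, by omega⟩
  | sp t ht htd hal =>
    refine ⟨⟨by omega, (p.hull_s s ht.le).2 htd, (p.hull_p s ht).2 ⟨htd, Or.inl hal⟩, ?_⟩,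
      by omega⟩
    intro l h1 h2
    have : l = 3 * t + 2 := by omega
    subst this
    rw [p.hull_a s ht, hal]
    simp
  | ap t ht htd hal hpi =>
    exact ⟨⟨by omega, (p.hull_a s ht).2 hal, (p.hull_p s ht).2 ⟨htd.le, Or.inr hpi⟩,
      fun l h1 h2 => by omega⟩, by omega⟩
  | as t ht htd hal hpi =>
    refine ⟨⟨by omega, (p.hull_a s ht).2 hal, (p.hull_s s (j := t + 1) (by omega)).2 (by omega),
      ?_⟩, by omega⟩
    intro l h1 h2
    have : l = 3 * t + 3 := by omega
    subst this
    rw [p.hull_p s ht, hal, hpi]
    simp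
  | ps t ht htd hor =>
    refine ⟨⟨by omega, (p.hull_p s ht).2 ⟨htd.le, ?_⟩,
      (p.hull_s s (j := t + 1) (by omega)).2 (by omega), fun l h1 h2 => by omega⟩, by omega⟩
    rcases hor with h | h
    · exact Or.inl h
    · exact Or.inr h.2
  | aO hd hal =>
    refine ⟨⟨by omega, (p.hull_a s hd).2 hal, (p.hull_O s).2 (Or.inl hd), ?_⟩, by omega⟩
    intro l h1 h2
    by_cases h3 : l = 3 * s.d + 3
    · subst h3
      rw [p.hull_p s hd, hal]
      rintro ⟨_, h | h⟩
      · cases h
      · have := (hv.pi_le _ h).1
        omega
    · exact no_hull hv hd (by omega) (by omega)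
  | pO hd hal =>
    refine ⟨⟨by omega, (p.hull_p s hd).2 ⟨le_rfl, Or.inl hal⟩, (p.hull_O s).2 (Or.inl hd), ?_⟩,
      by omega⟩
    intro l h1 h2
    exact no_hull hv hd (by omega) (by omega)
  | oq hd =>
    exact ⟨⟨by omega, (p.hull_O s).2 (Or.inl hd), (p.hull_Q s).2 (by
      unfold qF; rw [hv.en0 hd]; trivial), fun l h1 h2 => by omega⟩, by omega⟩
  | qr hd =>
    exact ⟨⟨by omega, (p.hull_Q s).2 (by unfold qF; rw [hv.en0 hd]; trivial), p.hull_R s,
      fun l h1 h2 => by omega⟩, by omega⟩
  | rz => exact ⟨⟨by omega, p.hull_R s, p.hull_Z s, fun l h1 h2 => by omega⟩, by omega⟩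
  | wO hd hen ho =>
    refine ⟨⟨by omega, (p.hull_s s le_rfl).2 (by omega), (p.hull_O s).2 (Or.inr (by
      unfold oF; rw [hen]; exact ho)), ?_⟩, by omega⟩
    intro l h1 h2
    have : l = 3 * p.m + 2 := by omega
    subst this
    rw [p.hull_c s]
    exact fun h => h hen
  | OQ0 hd hen ho =>
    exact ⟨⟨by omega, (p.hull_O s).2 (Or.inr (by unfold oF; rw [hen]; exact ho)),
      (p.hull_Q s).2 (by unfold qF; rw [hen]; trivial), fun l h1 h2 => by omega⟩, by omega⟩
  | QR0 hd hen =>
    exact ⟨⟨by omega, (p.hull_Q s).2 (by unfold qF; rw [hen]; trivial), p.hull_R s,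
      fun l h1 h2 => by omega⟩, by omega⟩
  | wQ hd hen ho =>
    refine ⟨⟨by omega, (p.hull_s s le_rfl).2 (by omega), (p.hull_Q s).2 (by
      unfold qF; rw [hen]; trivial), ?_⟩, by omega⟩
    intro l h1 h2
    have : l = 3 * p.m + 2 ∨ l = 3 * p.m + 3 := by omega
    rcases this with rfl | rfl
    · rw [p.hull_c s]
      exact fun h => h hen
    · rw [p.hull_O s]
      rintro (h | h)
      · omega
      · unfold oF at h; rw [hen] at h; exact ho h
  | wc hd hen =>
    exact ⟨⟨by omega, (p.hull_s s le_rfl).2 (by omega), (p.hull_c s).2 hen,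
      fun l h1 h2 => by omega⟩, by omega⟩
  | cO hd hen ho =>
    exact ⟨⟨by omega, (p.hull_c s).2 hen, (p.hull_O s).2 (Or.inr ho),
      fun l h1 h2 => by omega⟩, by omega⟩
  | cQ hd hen ho hq =>
    refine ⟨⟨by omega, (p.hull_c s).2 (by rw [cF, hen]; decide), (p.hull_Q s).2 (by
      unfold qF; rw [hen]; exact hq), ?_⟩, by omega⟩
    intro l h1 h2
    have : l = 3 * p.m + 3 := by omega
    subst this
    rw [p.hull_O s]
    rintro (h | h)
    · omega
    · unfold oF at h; rw [hen] at h; exact ho h
  | OQ hd hen ho hq =>
    exact ⟨⟨by omega, (p.hull_O s).2 (Or.inr ho), (p.hull_Q s).2 hq,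
      fun l h1 h2 => by omega⟩, by omega⟩
  | OR hd hen ho hq =>
    refine ⟨⟨by omega, (p.hull_O s).2 (Or.inr (by unfold oF; rw [hen]; exact ho)), p.hull_R s,
      ?_⟩, by omega⟩
    intro l h1 h2
    have : l = 3 * p.m + 4 := by omega
    subst this
    rw [p.hull_Q s]
    intro h
    unfold qF at h; rw [hen] at h; exact hq h
  | QR hd hen hq =>
    exact ⟨⟨by omega, (p.hull_Q s).2 hq, p.hull_R s, fun l h1 h2 => by omega⟩, by omega⟩

end Par

end Pool.Agent.Helper480_Flip
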