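import Pool.Agent.Helper480_Flip.Trans

/-!
# The lengths of the maximal paths of the flat model
-/

namespace Pool.Agent.Helper480_Flip

open Finset

/-- a path of length `t` to a state in which all vertices are hull vertices -/
def AConv (p : Par) : ℕ → St → Prop
  | 0, s => ∀ k ≤ 3 * p.m + 6, p.hull s k
  | t + 1, s => ∃ s' i j, p.Tr s s' i j ∧ AConv p t s'

/-- the number of flips needed in the end gadget -/
noncomputable def rho (p : Par) (W : ℝ) : ℕ := by
  classical
  exact if p.q1 + W < 0 then 1 else if p.κ < p.q1 + W ∧ p.q2 + W < 0 then 1 else 2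

/-- the initial state -/
def st0 : St := ⟨0, fun _ => false, fun _ => false, fun _ => false, En.e0⟩

namespace Par

variable {p : Par} {s : St} {Y : ℝ}

theorem valid_st0 : p.Valid st0 := by
  refine ⟨Nat.zero_le _, ?_, ?_, ?_, fun _ => rfl, ?_, ?_, ?_, ?_⟩ <;> intro h <;>
    simp [st0] at *

theorem rank_st0 : p.rank st0 = 0 := by simp [rank, st0, En.rank]

theorem rank_le (hv : p.Valid s) : p.rank s ≤ 3 * p.m + 2 := by
  unfold rank
  have h1 := hv.dm
  have h2 : ∀ f : ℕ → Bool, (∑ j ∈ range p.m, (if f j = true then 1 else 0)) ≤ p.m := by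
    intro f
    calc (∑ j ∈ range p.m, (if f j = true then 1 else 0)) ≤ ∑ _j ∈ range p.m, 1 :=
          Finset.sum_le_sum fun j _ => by split_ifs <;> omega
      _ = p.m := by simp
  have h3 := h2 s.al
  have h4 := h2 s.pi
  have h5 : s.en.rank ≤ 2 := by rcases s.en with _ | _ | _ | _ | _ <;> simp [En.rank]
  omega

theorem term_iff (hdm : s.d ≤ p.m) : (∀ k ≤ 3 * p.m + 6, p.hull s k) ↔
    (s.d = p.m ∧ (∀ j < p.m, s.al j = true ∧ s.pi j = true) ∧ cF s ∧ p.oF s ∧ p.qF s) := by
  constructor
  · intro h
    have hd : s.d = p.m := by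
      have := (p.hull_s s le_rfl).1 (h _ (by omega))
      omega
    refine ⟨hd, ?_, (p.hull_c s).1 (h _ (by omega)), ?_, (p.hull_Q s).1 (h _ (by omega))⟩
    · intro j hj
      have h1 := (p.hull_a s hj).1 (h _ (by omega))
      have h2 := ((p.hull_p s hj).1 (h _ (by omega))).2
      refine ⟨h1, ?_⟩
      rcases h2 with h2 | h2
      · rw [h1] at h2; cases h2
      · exact h2
    · rcases (p.hull_O s).1 (h _ (by omega)) with h1 | h1
      · omega
      · exact h1
  · rintro ⟨hd, hall, hc, ho, hq⟩ k hk
    rcases kinds p.m k hk with rfl | ⟨r, hr, rfl⟩ | ⟨r, hr, rfl⟩ | ⟨r, hr, rfl⟩ | rfl | rfl |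
      rfl | rfl | rfl
    · exact p.hull_zero s
    · exact (p.hull_s s hr).2 (by omega)
    · exact (p.hull_a s hr).2 (hall r hr).1
    · exact (p.hull_p s hr).2 ⟨by omega, Or.inr (hall r hr).2⟩
    · exact (p.hull_c s).2 hc
    · exact (p.hull_O s).2 (Or.inr ho)
    · exact (p.hull_Q s).2 hq
    · exact p.hull_R s
    · exact p.hull_Z s

theorem rank_term (h : ∀ k ≤ 3 * p.m + 6, p.hull s k) (hok : p.Ok Y) (hv : p.Valid s) :
    p.rank s = 3 * p.m + rho p (p.U s.c p.m) := by
  obtain ⟨hd, hall, hc, ho, hq⟩ := (term_iff hv.dm).1 h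
  have h1 : (∑ j ∈ range p.m, (if s.al j = true then 1 else 0)) = p.m := by
    rw [Finset.sum_congr rfl (g := fun _ => 1)
      (fun j hj => by rw [(hall j (Finset.mem_range.1 hj)).1, if_pos rfl])]
    simp
  have h2 : (∑ j ∈ range p.m, (if s.pi j = true then 1 else 0)) = p.m := by
    rw [Finset.sum_congr rfl (g := fun _ => 1)
      (fun j hj => by rw [(hall j (Finset.mem_range.1 hj)).2, if_pos rfl])]
    simp
  have h3 : s.en.rank = rho p (p.U s.c p.m) := by
    unfold rho
    unfold cF at hc
    unfold oF at ho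
    unfold qF at hq
    have hκ := hok.κ2
    rcases hh : s.en with _ | _ | _ | _ | _
    · exact absurd hh hc
    · have := hv.ena hh
      rw [if_pos (by linarith)]; rfl
    · rw [hh] at ho hq
      simp only at ho hq
      rw [if_neg (by linarith), if_pos ⟨ho, hq⟩]; rfl
    · have := hv.enc hh
      rw [if_neg (by linarith [this.1]), if_neg (by rintro ⟨h1, h2⟩; linarith [this.2])]; rfl
    · have := hv.end2 hh
      rw [if_neg (by linarith [this.1]), if_neg (by rintro ⟨h1, h2⟩; linarith [this.2])]; rfl
  unfold rank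
  rw [h1, h2, h3, hd]
  omega

theorem aconv_rank (hok : p.Ok Y) : ∀ t (s : St), p.Valid s → AConv p t s →
    ∃ c : ℕ → Bool, p.rank s + t = 3 * p.m + rho p (p.U c p.m)
  | 0, s, hv, h => ⟨s.c, by rw [Nat.add_zero]; exact rank_term h hok hv⟩
  | t + 1, s, hv, ⟨s', i, j, htr, h⟩ => by
    obtain ⟨c, hc⟩ := aconv_rank hok t s' htr.val h
    exact ⟨c, by rw [← hc, htr.rk]; omega⟩

/-- the state after the stages before `j`, for given choices -/
def stT (c : ℕ → Bool) (j : ℕ) : St :=
  ⟨j, fun i => decide (i < j), fun i => decide (i < j), fun i => c i && decide (i < j), En.e0⟩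

theorem stT_zero (c : ℕ → Bool) : stT c 0 = st0 := by
  simp [stT, st0]

theorem valid_stT (c : ℕ → Bool) {j : ℕ} (hj : j ≤ p.m) : p.Valid (stT c j) := by
  refine ⟨hj, ?_, ?_, ?_, fun _ => rfl, ?_, ?_, ?_, ?_⟩
  · intro i hi
    simp only [stT, decide_eq_true_eq] at hi
    exact ⟨by simp only [stT]; omega, by omega⟩
  · intro i hi
    simp only [stT, decide_eq_true_eq] at hi ⊢
    omega
  · intro i hi
    simp only [stT, Bool.and_eq_true, decide_eq_true_eq] at hi ⊢
    omega
  · intro h; simp only [stT] at h; cases h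
  · intro h; simp only [stT] at h; cases h
  · intro h; simp only [stT] at h; cases h
  · intro h; simp only [stT] at h; cases h

theorem stT_step1 (c : ℕ → Bool) (j : ℕ) (hc : c j = true) :
    stP (stB (stA (stT c j) j)) j = stT c (j + 1) := by
  unfold stP stB stA stT
  simp only [St.mk.injEq, true_and, and_true]
  refine ⟨?_, ?_, ?_⟩
  · funext i
    by_cases e : i = j
    · subst e; simp
    · rw [Function.update_of_ne e]
      have : (i < j) = (i < j + 1) := by rw [eq_iff_iff]; omega
      simp only [this]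
  · funext i
    by_cases e : i = j
    · subst e; simp
    · rw [Function.update_of_ne e]
      have : (i < j) = (i < j + 1) := by rw [eq_iff_iff]; omega
      simp only [this]
  · funext i
    by_cases e : i = j
    · subst e; simp [hc]
    · rw [Function.update_of_ne e]
      have : (i < j) = (i < j + 1) := by rw [eq_iff_iff]; omega
      simp only [this]

theorem stT_step0 (c : ℕ → Bool) (j : ℕ) (hc : c j = false) :
    stP (stA (stB (stT c j)) j) j = stT c (j + 1) := by
  unfold stP stB stA stT
  simp only [St.mk.injEq, true_and, and_true]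
  refine ⟨?_, ?_, ?_⟩
  · funext i
    by_cases e : i = j
    · subst e; simp
    · rw [Function.update_of_ne e]
      have : (i < j) = (i < j + 1) := by rw [eq_iff_iff]; omega
      simp only [this]
  · funext i
    by_cases e : i = j
    · subst e; simp
    · rw [Function.update_of_ne e]
      have : (i < j) = (i < j + 1) := by rw [eq_iff_iff]; omega
      simp only [this]
  · funext i
    by_cases e : i = j
    · subst e; simp [hc]
    · rw [Function.update_of_ne e]
      have : (i < j) = (i < j + 1) := by rw [eq_iff_iff]; omega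
      simp only [this]

theorem aconv_step (hok : p.Ok Y) (c : ℕ → Bool) {j t : ℕ} (hj : j < p.m)
    (h : AConv p t (stT c (j + 1))) : AConv p (t + 3) (stT c j) := by
  have hv := valid_stT (p := p) c hj.le
  by_cases hc : c j = true
  · have h1 := tr_A hok hv (t := j) hj le_rfl (by simp [stT])
    have h2 := tr_B1 hok h1.val (show (stA (stT c j) j).d < p.m from hj)
      (by simp [stA, stT])
    have h3 := tr_P hok h2.val (t := j) hj (show j < (stB (stA (stT c j) j)).d by simp [stB, stA, stT])
      (by simp [stB, stA, stT]) (by simp [stB, stA, stT])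
    rw [stT_step1 c j hc] at h3
    exact ⟨_, _, _, h1, _, _, _, h2, _, _, _, h3, h⟩
  · have hc' : c j = false := by simpa using hc
    have h1 := tr_B0 hok hv (show (stT c j).d < p.m from hj) (by simp [stT])
    have h2 := tr_A hok h1.val (t := j) hj (show j ≤ (stB (stT c j)).d by simp [stB, stT])
      (by simp [stB, stT])
    have h3 := tr_P hok h2.val (t := j) hj (show j < (stA (stB (stT c j)) j).d by simp [stB, stA, stT])
      (by simp [stB, stA, stT]) (by simp [stB, stA, stT])
    rw [stT_step0 c j hc'] at h3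
    exact ⟨_, _, _, h1, _, _, _, h2, _, _, _, h3, h⟩

theorem aconv_back (hok : p.Ok Y) (c : ℕ → Bool) : ∀ j ≤ p.m, ∀ t, AConv p t (stT c j) →
    AConv p (t + 3 * j) (stT c 0)
  | 0, _, t, h => h
  | j + 1, hj, t, h => by
    have h1 := aconv_step hok c hj h
    have h2 := aconv_back hok c j (by omega) _ h1
    rw [show t + 3 * (j + 1) = t + 3 + 3 * j by ring]
    exact h2

theorem aconv_end (hok : p.Ok Y) (c : ℕ → Bool) :
    AConv p (rho p (p.U c p.m)) (stT c p.m) := by
  have hv := valid_stT (p := p) c le_rfl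
  have hU : p.U (stT c p.m).c p.m = p.U c p.m :=
    p.U_congr fun i hi => by simp [stT, hi]
  have hall : ∀ e, (∀ j < p.m, (stE (stT c p.m) e).al j = true ∧
      (stE (stT c p.m) e).pi j = true) := by
    intro e j hj
    simp [stE, stT, hj]
  have hκ := hok.κ2
  have he2 := hok.e2
  unfold rho
  by_cases h1 : p.q1 + p.U c p.m < 0
  · rw [if_pos h1]
    refine ⟨_, _, _, tr_wO hok hv rfl rfl (by rw [hU]; exact h1), ?_⟩
    refine (term_iff (by simp [stE, stT])).2 ⟨rfl, hall _, ?_, ?_, ?_⟩
    · simp [cF, stE]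
    · simp [oF, stE]
    · simp [qF, stE]
  · rw [if_neg h1]
    have t1 := tr_wQ hok hv rfl rfl (by rw [hU]; exact h1)
    by_cases h2 : p.κ < p.q1 + p.U c p.m
    · by_cases h3 : p.q2 + p.U c p.m < 0
      · rw [if_pos ⟨h2, h3⟩]
        refine ⟨_, _, _, t1, ?_⟩
        refine (term_iff (by simp [stE, stT])).2 ⟨rfl, hall _, ?_, ?_, ?_⟩
        · simp [cF, stE]
        · simp only [oF, stE]; rw [hU]; exact h2
        · simp only [qF, stE]; rw [hU]; exact h3
      · rw [if_neg (fun h => h3 h.2)]
        refine ⟨_, _, _, t1, _, _, _, tr_OR hok t1.val rfl rfl ?_ ?_, ?_⟩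
        · simp only [stE]; rw [hU]; exact h2
        · simp only [stE]; rw [hU]; exact h3
        · refine (term_iff (by simp [stE, stT])).2 ⟨rfl, hall _, ?_, ?_, ?_⟩
          · simp [cF, stE]
          · simp [oF, stE]
          · simp [qF, stE]
    · rw [if_neg (fun h => h2 h.1)]
      refine ⟨_, _, _, t1, _, _, _, tr_cQ hok t1.val rfl rfl ?_ ?_, ?_⟩
      · simp only [stE]; rw [hU]; exact h2
      · simp only [stE]; rw [hU]; push Not at h2; linarith
      · refine (term_iff (by simp [stE, stT])).2 ⟨rfl, hall _, ?_, ?_, ?_⟩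
        · simp [cF, stE]
        · simp [oF, stE]
        · simp [qF, stE]

/-- the possible lengths of the paths from the initial state -/
theorem aconv_iff (hok : p.Ok Y) (t : ℕ) :
    AConv p t st0 ↔ ∃ c : ℕ → Bool, t = 3 * p.m + rho p (p.U c p.m) := by
  constructor
  · intro h
    obtain ⟨c, hc⟩ := aconv_rank hok t st0 valid_st0 h
    exact ⟨c, by rw [rank_st0] at hc; omega⟩
  · rintro ⟨c, rfl⟩
    have h := aconv_back hok c p.m le_rfl _ (aconv_end hok c)
    rw [stT_zero] at h
    rw [show 3 * p.m + rho p (p.U c p.m) = rho p (p.U c p.m) + 3 * p.m by ring]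
    exact h

end Par

end Pool.Agent.Helper480_Flip
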