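import Pool.Agent.Helper480_Flip.Mono

/-!
# Reflections in nearly horizontal lines

The polygon is stretched horizontally by a huge factor `E`. The mirror image of a vertex in the line
through two other vertices is then nearly its vertical reflection.
-/

namespace Pool.Agent.Helper480_Flip

/-- `p` is near the point `(E x, y)` -/
def NearPt (E e x y : ℝ) (p : Pt) : Prop := |p.1 - E * x| ≤ E * e ∧ |p.2 - y| ≤ e

theorem NearPt.mono {E e e' x y : ℝ} {p : Pt} (hE : 0 ≤ E) (h : NearPt E e x y p) (he : e ≤ e') :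
    NearPt E e' x y p :=
  ⟨h.1.trans (mul_le_mul_of_nonneg_left he hE), h.2.trans he⟩

/-- the height of the vertical reflection of `(x2, y2)` in the line through `(x1, y1)` and
`(x3, y3)` -/
noncomputable def vref (x1 y1 x3 y3 x2 y2 : ℝ) : ℝ :=
  2 * (y1 + (y3 - y1) * ((x2 - x1) / (x3 - x1))) - y2

theorem near_mirror {E e B : ℝ} (hE : 1 ≤ E) (hB : 1 ≤ B) (he0 : 1 / E ^ 2 ≤ e) (he : e ≤ 1 / 8)
    {x1 x2 x3 y1 y2 y3 : ℝ} {a p b : Pt} (h12 : x1 + 1 ≤ x2) (h23 : x2 + 1 ≤ x3)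
    (hy1 : |y1| ≤ B) (hy2 : |y2| ≤ B) (hy3 : |y3| ≤ B)
    (ha : NearPt E e x1 y1 a) (hp : NearPt E e x2 y2 p) (hb : NearPt E e x3 y3 b) :
    NearPt E (256 * B ^ 3 * e) x2 (vref x1 y1 x3 y3 x2 y2) (mirror a b p) := by
  have hE0 : 0 < E := by linarith
  have hB0 : 0 < B := by linarith
  have he1 : 0 < e := lt_of_lt_of_le (by positivity) he0
  obtain ⟨ha1, ha2⟩ := ha
  obtain ⟨hp1, hp2⟩ := hp
  obtain ⟨hb1, hb2⟩ := hb
  rw [abs_le] at ha1 ha2 hp1 hp2 hb1 hb2 hy1 hy2 hy3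
  obtain ⟨D, hD⟩ : ∃ D, D = b.1 - a.1 := ⟨_, rfl⟩
  obtain ⟨G, hG⟩ : ∃ G, G = b.2 - a.2 := ⟨_, rfl⟩
  obtain ⟨P, hP⟩ : ∃ P, P = p.1 - a.1 := ⟨_, rfl⟩
  obtain ⟨q, hq⟩ : ∃ q, q = p.2 - a.2 := ⟨_, rfl⟩
  have hEe : E * e ≤ E / 8 := by
    have := mul_le_mul_of_nonneg_left he hE0.le
    linarith
  -- sizes
  have hxE : E * (x1 + 1) ≤ E * x2 := mul_le_mul_of_nonneg_left h12 hE0.le
  have hxE' : E * (x2 + 1) ≤ E * x3 := mul_le_mul_of_nonneg_left h23 hE0.le
  have hP0 : 0 < P := by rw [hP]; nlinarith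
  have hPD : P < D := by rw [hP, hD]; nlinarith
  have hD0 : 0 < D := hP0.trans hPD
  have hD1 : 3 / 4 * E ≤ D := by rw [hD]; nlinarith
  have hGB : |G| ≤ 3 * B := by rw [abs_le, hG]; constructor <;> linarith
  have hqB : |q| ≤ 3 * B := by rw [abs_le, hq]; constructor <;> linarith
  have hS : 0 < D ^ 2 + G ^ 2 := by positivity
  have hSD : D ^ 2 ≤ D ^ 2 + G ^ 2 := by nlinarith [sq_nonneg G]
  -- the deviation
  have hW : |q * D - P * G| ≤ 6 * B * D := by
    calc |q * D - P * G| ≤ |q * D| + |P * G| := abs_sub _ _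
      _ = |q| * D + P * |G| := by rw [abs_mul, abs_mul, abs_of_pos hD0, abs_of_pos hP0]
      _ ≤ (3 * B) * D + D * (3 * B) := by
          refine add_le_add (mul_le_mul_of_nonneg_right hqB hD0.le) ?_
          exact mul_le_mul hPD.le hGB (abs_nonneg _) hD0.le
      _ = 6 * B * D := by ring
  have hx' : (mirror a b p).1 - p.1 = 2 * G * (q * D - P * G) / (D ^ 2 + G ^ 2) := by
    unfold mirror
    simp only
    rw [← hD, ← hG, ← hP, ← hq]
    have : p.1 = a.1 + P := by rw [hP]; ring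
    rw [this]
    field_simp
    ring
  have hy' : (mirror a b p).2 - (2 * (a.2 + G * (P / D)) - p.2) =
      2 * G ^ 2 * (q * D - P * G) / ((D ^ 2 + G ^ 2) * D) := by
    unfold mirror
    simp only
    rw [← hD, ← hG, ← hP, ← hq]
    field_simp
    ring
  have hx'' : |(mirror a b p).1 - p.1| ≤ 48 * B ^ 2 / E := by
    rw [hx', abs_div, abs_of_pos hS, div_le_div_iff₀ hS hE0, abs_mul, abs_mul, abs_two]
    have h1 : 2 * |G| * |q * D - P * G| ≤ 2 * (3 * B) * (6 * B * D) :=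
      mul_le_mul (mul_le_mul_of_nonneg_left hGB (by norm_num)) hW (abs_nonneg _) (by positivity)
    calc 2 * |G| * |q * D - P * G| * E ≤ 2 * (3 * B) * (6 * B * D) * E :=
          mul_le_mul_of_nonneg_right h1 hE0.le
      _ = 48 * B ^ 2 * (D * (3 / 4 * E)) := by ring
      _ ≤ 48 * B ^ 2 * (D * D) := by
          refine mul_le_mul_of_nonneg_left ?_ (by positivity)
          exact mul_le_mul_of_nonneg_left hD1 hD0.le
      _ = 48 * B ^ 2 * D ^ 2 := by ring
      _ ≤ 48 * B ^ 2 * (D ^ 2 + G ^ 2) := mul_le_mul_of_nonneg_left hSD (by positivity)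
  have hy'' : |(mirror a b p).2 - (2 * (a.2 + G * (P / D)) - p.2)| ≤ 192 * B ^ 3 / E ^ 2 := by
    have hE2 : 0 < E ^ 2 := by positivity
    have hSD' : 0 < (D ^ 2 + G ^ 2) * D := by positivity
    rw [hy', abs_div, abs_of_pos hSD', div_le_div_iff₀ hSD' hE2, abs_mul, abs_mul, abs_two,
      abs_pow]
    have hG2 : |G| ^ 2 ≤ (3 * B) ^ 2 := pow_le_pow_left₀ (abs_nonneg _) hGB 2
    have h1 : 2 * |G| ^ 2 * |q * D - P * G| ≤ 2 * (3 * B) ^ 2 * (6 * B * D) :=
      mul_le_mul (mul_le_mul_of_nonneg_left hG2 (by norm_num)) hW (abs_nonneg _) (by positivity)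
    calc 2 * |G| ^ 2 * |q * D - P * G| * E ^ 2 ≤ 2 * (3 * B) ^ 2 * (6 * B * D) * E ^ 2 :=
          mul_le_mul_of_nonneg_right h1 hE2.le
      _ = 192 * B ^ 3 * (D * (3 / 4 * E) ^ 2) := by ring
      _ ≤ 192 * B ^ 3 * (D * D ^ 2) := by
          refine mul_le_mul_of_nonneg_left ?_ (by positivity)
          exact mul_le_mul_of_nonneg_left (pow_le_pow_left₀ (by positivity) hD1 2) hD0.le
      _ ≤ 192 * B ^ 3 * ((D ^ 2 + G ^ 2) * D) := by
          refine mul_le_mul_of_nonneg_left ?_ (by positivity)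
          nlinarith
  have hinv : 1 / E ^ 2 ≤ e := he0
  constructor
  · calc |(mirror a b p).1 - E * x2| = |((mirror a b p).1 - p.1) + (p.1 - E * x2)| := by ring_nf
      _ ≤ |(mirror a b p).1 - p.1| + |p.1 - E * x2| := abs_add_le _ _
      _ ≤ 48 * B ^ 2 / E + E * e := add_le_add hx'' (abs_le.2 hp1)
      _ = E * (48 * B ^ 2 * (1 / E ^ 2) + e) := by field_simp
      _ ≤ E * (48 * B ^ 2 * e + e) := by
          refine mul_le_mul_of_nonneg_left ?_ hE0.le
          have := mul_le_mul_of_nonneg_left hinv (show 0 ≤ 48 * B ^ 2 by positivity)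
          linarith
      _ ≤ E * (256 * B ^ 3 * e) := by
          refine mul_le_mul_of_nonneg_left ?_ hE0.le
          have h1 : (48 * B ^ 2 + 1) ≤ 256 * B ^ 3 := by
            have : 1 ≤ B ^ 2 := one_le_pow₀ hB
            nlinarith
          calc 48 * B ^ 2 * e + e = (48 * B ^ 2 + 1) * e := by ring
            _ ≤ 256 * B ^ 3 * e := mul_le_mul_of_nonneg_right h1 he1.le
  · -- the parameter
    have hgap : 1 ≤ x3 - x1 := by linarith
    have hgap0 : 0 < x3 - x1 := by linarith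
    obtain ⟨t, ht⟩ : ∃ t, t = P / D := ⟨_, rfl⟩
    obtain ⟨t0, ht0⟩ : ∃ t0, t0 = (x2 - x1) / (x3 - x1) := ⟨_, rfl⟩
    rw [← ht] at hy''
    have ht0' : 0 ≤ t0 ∧ t0 ≤ 1 := by
      constructor
      · rw [ht0]; exact div_nonneg (by linarith) hgap0.le
      · rw [ht0, div_le_one hgap0]; linarith
    have ht1 : 0 ≤ t ∧ t ≤ 1 := by
      constructor
      · rw [ht]; exact div_nonneg hP0.le hD0.le
      · rw [ht, div_le_one hD0]; linarith
    have htt : |t - t0| ≤ 6 * e := by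
      have e1 : t * D = P := by rw [ht]; field_simp
      have e2 : t0 * (x3 - x1) = x2 - x1 := by rw [ht0]; field_simp
      have e3 : (t - t0) * D = (P - E * (x2 - x1)) + t0 * (E * (x3 - x1) - D) := by
        rw [sub_mul, e1, ← e2]; ring
      have b1 : |P - E * (x2 - x1)| ≤ 2 * (E * e) := by
        rw [abs_le, hP]; constructor <;> linarith
      have b2 : |E * (x3 - x1) - D| ≤ 2 * (E * e) := by
        rw [abs_le, hD]; constructor <;> linarith
      have b3 : |(t - t0) * D| ≤ 4 * (E * e) := by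
        rw [e3]
        calc |(P - E * (x2 - x1)) + t0 * (E * (x3 - x1) - D)|
            ≤ |P - E * (x2 - x1)| + |t0 * (E * (x3 - x1) - D)| := abs_add_le _ _
          _ = |P - E * (x2 - x1)| + t0 * |E * (x3 - x1) - D| := by
              rw [abs_mul, abs_of_nonneg ht0'.1]
          _ ≤ 2 * (E * e) + 1 * (2 * (E * e)) := by
              refine add_le_add b1 (mul_le_mul ht0'.2 b2 (abs_nonneg _) zero_le_one)
          _ = 4 * (E * e) := by ring
      rw [abs_mul, abs_of_pos hD0] at b3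
      have b4 : |t - t0| * (3 / 4 * E) ≤ 4 * (E * e) :=
        (mul_le_mul_of_nonneg_left hD1 (abs_nonneg _)).trans b3
      have b5 : |t - t0| * (3 / 4) ≤ 4 * e := by
        have : E * (|t - t0| * (3 / 4)) ≤ E * (4 * e) := by linarith
        exact le_of_mul_le_mul_left this hE0
      linarith
    have hflat : |(2 * (a.2 + G * t) - p.2) - vref x1 y1 x3 y3 x2 y2| ≤ 31 * B * e := by
      have e1 : (2 * (a.2 + G * t) - p.2) - vref x1 y1 x3 y3 x2 y2 =
          2 * (a.2 - y1) + 2 * ((G - (y3 - y1)) * t) + 2 * ((y3 - y1) * (t - t0)) -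
            (p.2 - y2) := by
        unfold vref; rw [← ht0]; ring
      have c1 : |a.2 - y1| ≤ e := abs_le.2 ha2
      have c2 : |(G - (y3 - y1)) * t| ≤ 2 * e := by
        rw [abs_mul, abs_of_nonneg ht1.1]
        have : |G - (y3 - y1)| ≤ 2 * e := by rw [abs_le, hG]; constructor <;> linarith
        calc |G - (y3 - y1)| * t ≤ (2 * e) * 1 :=
              mul_le_mul this ht1.2 ht1.1 (by positivity)
          _ = 2 * e := by ring
      have c3 : |(y3 - y1) * (t - t0)| ≤ 2 * B * (6 * e) := by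
        rw [abs_mul]
        have : |y3 - y1| ≤ 2 * B := by rw [abs_le]; constructor <;> linarith
        exact mul_le_mul this htt (abs_nonneg _) (by positivity)
      have c4 : |p.2 - y2| ≤ e := abs_le.2 hp2
      rw [e1]
      rw [abs_le] at c1 c2 c3 c4 ⊢
      have : e ≤ B * e := by nlinarith
      constructor <;> linarith
    calc |(mirror a b p).2 - vref x1 y1 x3 y3 x2 y2| =
          |((mirror a b p).2 - (2 * (a.2 + G * t) - p.2)) +
            ((2 * (a.2 + G * t) - p.2) - vref x1 y1 x3 y3 x2 y2)| := by ring_nf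
      _ ≤ |(mirror a b p).2 - (2 * (a.2 + G * t) - p.2)| +
            |(2 * (a.2 + G * t) - p.2) - vref x1 y1 x3 y3 x2 y2| := abs_add_le _ _
      _ ≤ 192 * B ^ 3 / E ^ 2 + 31 * B * e := add_le_add hy'' hflat
      _ = 192 * B ^ 3 * (1 / E ^ 2) + 31 * B * e := by ring
      _ ≤ 192 * B ^ 3 * e + 31 * B ^ 3 * e := by
          have h1 := mul_le_mul_of_nonneg_left hinv (show 0 ≤ 192 * B ^ 3 by positivity)
          have h2 : B ≤ B ^ 3 := by
            have : 1 ≤ B ^ 2 := one_le_pow₀ hB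
            nlinarith
          have h3 : 31 * B * e ≤ 31 * B ^ 3 * e := by
            refine mul_le_mul_of_nonneg_right ?_ he1.le
            linarith
          linarith
      _ ≤ 256 * B ^ 3 * e := by
          have : 0 ≤ B ^ 3 * e := by positivity
          linarith

/-- the sign of `g (x₂ - x₁) - (y₂ - y₁)` is stable -/
theorem near_slope_lt {E e B g : ℝ} (hE : 0 < E) (hg : |g| ≤ B) {x1 x2 y1 y2 : ℝ}
    {a b : Pt} (ha : NearPt E e x1 y1 a) (hb : NearPt E e x2 y2 b)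
    (h : 2 * (B + 1) * e < g * (x2 - x1) - (y2 - y1)) :
    E * (b.2 - a.2) < g * (b.1 - a.1) := by
  obtain ⟨ha1, ha2⟩ := ha
  obtain ⟨hb1, hb2⟩ := hb
  rw [abs_le] at ha2 hb2
  have h1 : |(b.1 - a.1) - E * (x2 - x1)| ≤ 2 * (E * e) := by
    rw [abs_le] at ha1 hb1 ⊢
    constructor <;> linarith
  have h2 : |g * ((b.1 - a.1) - E * (x2 - x1))| ≤ B * (2 * (E * e)) := by
    rw [abs_mul]
    exact mul_le_mul hg h1 (abs_nonneg _) ((abs_nonneg _).trans hg)
  rw [abs_le] at h2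
  have h3 : E * (2 * (B + 1) * e) < E * (g * (x2 - x1) - (y2 - y1)) :=
    mul_lt_mul_of_pos_left h hE
  have h4 : E * ((b.2 - a.2) - (y2 - y1)) ≤ E * (2 * e) :=
    mul_le_mul_of_nonneg_left (by linarith) hE.le
  nlinarith

/-- the sign of `g (x₂ - x₁) - (y₂ - y₁)` is stable -/
theorem near_slope_gt {E e B g : ℝ} (hE : 0 < E) (hg : |g| ≤ B) {x1 x2 y1 y2 : ℝ}
    {a b : Pt} (ha : NearPt E e x1 y1 a) (hb : NearPt E e x2 y2 b)
    (h : 2 * (B + 1) * e < (y2 - y1) - g * (x2 - x1)) :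
    g * (b.1 - a.1) < E * (b.2 - a.2) := by
  obtain ⟨ha1, ha2⟩ := ha
  obtain ⟨hb1, hb2⟩ := hb
  rw [abs_le] at ha2 hb2
  have h1 : |(b.1 - a.1) - E * (x2 - x1)| ≤ 2 * (E * e) := by
    rw [abs_le] at ha1 hb1 ⊢
    constructor <;> linarith
  have h2 : |g * ((b.1 - a.1) - E * (x2 - x1))| ≤ B * (2 * (E * e)) := by
    rw [abs_mul]
    exact mul_le_mul hg h1 (abs_nonneg _) ((abs_nonneg _).trans hg)
  rw [abs_le] at h2
  have h3 : E * (2 * (B + 1) * e) < E * ((y2 - y1) - g * (x2 - x1)) :=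
    mul_lt_mul_of_pos_left h hE
  have h4 : E * ((y2 - y1) - (b.2 - a.2)) ≤ E * (2 * e) :=
    mul_le_mul_of_nonneg_left (by linarith) hE.le
  nlinarith

/-- the sign of the orientation is stable -/
theorem near_cross {E e B : ℝ} (hE : 0 < E) (he0 : 0 ≤ e) (he : e ≤ 1) (hB : 1 ≤ B)
    {x1 x2 x3 y1 y2 y3 : ℝ} {a b c : Pt}
    (ha : NearPt E e x1 y1 a) (hb : NearPt E e x2 y2 b) (hc : NearPt E e x3 y3 c)
    (hy1 : |y1| ≤ B) (hy2 : |y2| ≤ B) (hy3 : |y3| ≤ B)
    (hx1 : |x1| ≤ B) (hx2 : |x2| ≤ B) (hx3 : |x3| ≤ B)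
    (h : (x2 - x1) * (y3 - y1) - (x3 - x1) * (y2 - y1) < - (24 * B * e)) :
    cross a b c < 0 := by
  obtain ⟨ha1, ha2⟩ := ha
  obtain ⟨hb1, hb2⟩ := hb
  obtain ⟨hc1, hc2⟩ := hc
  unfold cross
  have key : ∀ {X Y x y : ℝ}, |X - E * x| ≤ 2 * (E * e) → |Y - y| ≤ 2 * e → |y| ≤ 2 * B →
      |x| ≤ 2 * B → |X * Y - E * (x * y)| ≤ E * (8 * B * e + 4 * e ^ 2) := by
    intro X Y x y h1 h2 h3 h4
    have e1 : X * Y - E * (x * y) = (X - E * x) * (Y - y) + (X - E * x) * y + E * x * (Y - y) := by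
      ring
    rw [e1]
    have i1 : |(X - E * x) * (Y - y)| ≤ (2 * (E * e)) * (2 * e) := by
      rw [abs_mul]; exact mul_le_mul h1 h2 (abs_nonneg _) (by positivity)
    have i2 : |(X - E * x) * y| ≤ (2 * (E * e)) * (2 * B) := by
      rw [abs_mul]; exact mul_le_mul h1 h3 (abs_nonneg _) (by positivity)
    have i3 : |E * x * (Y - y)| ≤ E * (2 * B) * (2 * e) := by
      rw [abs_mul, abs_mul, abs_of_pos hE]
      exact mul_le_mul (mul_le_mul_of_nonneg_left h4 hE.le) h2 (abs_nonneg _) (by positivity)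
    calc _ ≤ |(X - E * x) * (Y - y)| + |(X - E * x) * y| + |E * x * (Y - y)| := abs_add_three _ _ _
      _ ≤ _ := by nlinarith
  have k1 := key (X := b.1 - a.1) (Y := c.2 - a.2) (x := x2 - x1) (y := y3 - y1)
    (by rw [abs_le] at *; constructor <;> linarith) (by rw [abs_le] at *; constructor <;> linarith)
    (by rw [abs_le] at *; constructor <;> linarith) (by rw [abs_le] at *; constructor <;> linarith)
  have k2 := key (X := c.1 - a.1) (Y := b.2 - a.2) (x := x3 - x1) (y := y2 - y1)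
    (by rw [abs_le] at *; constructor <;> linarith) (by rw [abs_le] at *; constructor <;> linarith)
    (by rw [abs_le] at *; constructor <;> linarith) (by rw [abs_le] at *; constructor <;> linarith)
  have h5 : E * ((x2 - x1) * (y3 - y1) - (x3 - x1) * (y2 - y1)) < E * (- (24 * B * e)) :=
    mul_lt_mul_of_pos_left h hE
  have h6 : e ^ 2 ≤ B * e := by nlinarith
  have h7 : E * (8 * B * e + 4 * e ^ 2) ≤ E * (12 * B * e) :=
    mul_le_mul_of_nonneg_left (by linarith) hE.le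
  rw [abs_le] at k1 k2
  linarith

end Pool.Agent.Helper480_Flip
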