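import Pool.Agent.Helper480_Flip.Main
import Pool.Agent.H671R2.SubsetSum
import Pool.Agent.H532R2.IntPoly

/-!
# The reduction from Subset Sum: the polygon, and its correctness
-/

namespace Pool.Agent.Helper480_Flip

open Pool.Agent.NPC Pool.Agent.NPC.R671.SS Finset

/-- number of items -/
def rm (I : List ℕ × ℕ) : ℕ := I.1.length

/-- basic size -/
def rH (I : List ℕ × ℕ) : ℕ := 100 * (I.1.sum + 1)

/-- the final direction for a solution -/
def ruT (I : List ℕ × ℕ) : ℕ := 11 * (rm I * rH I) + rm I * (rm I + 1) + 4 * I.2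

def rκ (b : Bool) (I : List ℕ × ℕ) : ℕ := if b = true then rH I else 2

def rq1 (b : Bool) (I : List ℕ × ℕ) : ℤ :=
  if b = true then -(ruT I : ℤ) + ((rH I + 1 : ℕ) : ℤ) else -(ruT I : ℤ) + 1

def rq2 (b : Bool) (I : List ℕ × ℕ) : ℤ :=
  if b = true then -(ruT I : ℤ) + (-2) else -(ruT I : ℤ) + -((2 * rH I : ℕ) : ℤ)

def rY (I : List ℕ × ℕ) : ℕ :=
  11 * (rm I * rH I) + rm I * (rm I + 1) + 4 * I.1.sum + 20 * rH I + 4 * rm I + 4

def rM (I : List ℕ × ℕ) : ℕ := 100 * 6 ^ rm I * rY I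

/-- horizontal scale -/
def rE (I : List ℕ × ℕ) : ℕ := (256 * (rM I * rM I * rM I)) ^ (3 * rm I + 4)

def rx (I : List ℕ × ℕ) (k : ℕ) : ℤ :=
  if k = 0 then -((2 * 6 ^ rm I + 1 : ℕ) : ℤ)
  else if k ≤ 3 * rm I + 2 then
    if k % 3 = 1 then -((2 * 6 ^ (rm I - k / 3) : ℕ) : ℤ)
    else if k % 3 = 2 then -((6 ^ (rm I - k / 3) : ℕ) : ℤ)
    else -((4 * 6 ^ (rm I - k / 3) : ℕ) : ℤ)
  else if k = 3 * rm I + 3 then 0
  else if k = 3 * rm I + 4 then 2
  else if k = 3 * rm I + 5 then 4
  else 5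

def ry (b : Bool) (I : List ℕ × ℕ) (k : ℕ) : ℤ :=
  if k = 0 then -(rM I : ℤ)
  else if k ≤ 3 * rm I + 1 then
    if k % 3 = 1 then
      (if (k / 3) % 2 = 0 then 0 else -((2 * 6 ^ (rm I - k / 3) * rH I : ℕ) : ℤ))
    else if k % 3 = 2 then
      (if (k / 3) % 2 = 0 then -((6 ^ (rm I - k / 3) * (2 * I.1.getD (k / 3) 0) : ℕ) : ℤ)
        else ((6 ^ (rm I - k / 3) : ℕ) : ℤ) * (-(rH I : ℤ) + ((2 * I.1.getD (k / 3) 0 : ℕ) : ℤ)))
    else
      (if (k / 3 - 1) % 2 = 0 then
        ((4 * 6 ^ (rm I - k / 3) * (5 * rH I + (rm I - (k / 3 - 1))) : ℕ) : ℤ)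
        else -((4 * 6 ^ (rm I - k / 3) * (rH I + (5 * rH I + (rm I - (k / 3 - 1)))) : ℕ) : ℤ))
  else if k = 3 * rm I + 2 then
    (if rm I % 2 = 0 then -(rκ b I : ℤ) else -(rH I : ℤ) + (rκ b I : ℤ))
  else if k = 3 * rm I + 3 then 0
  else if k = 3 * rm I + 4 then 2 * rq1 b I
  else if k = 3 * rm I + 5 then 2 * rq1 b I + 2 * rq2 b I
  else -(rM I : ℤ)

/-- the polygon -/
def rP (b : Bool) (I : List ℕ × ℕ) : List (ℚ × ℚ) :=
  (List.range (3 * rm I + 7)).map fun k =>
    ((((rE I : ℤ) * rx I k : ℤ) : ℚ), ((ry b I k : ℤ) : ℚ))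

/-- the parameters -/
noncomputable def rp (b : Bool) (I : List ℕ × ℕ) : Par where
  m := rm I
  δ := fun j => 2 * (I.1.getD j 0 : ℝ)
  H := rH I
  κ := rκ b I
  q1 := rq1 b I
  q2 := rq2 b I
  M := rM I

theorem rP_length (b : Bool) (I : List ℕ × ℕ) : (rP b I).length = 3 * rm I + 6 + 1 := by
  simp [rP]

theorem rx_cast (b : Bool) (I : List ℕ × ℕ) (k : ℕ) : ((rx I k : ℤ) : ℝ) = (rp b I).x k := by
  unfold rx Par.x rp
  simp only
  split_ifs <;> push_cast <;> ring

theorem ry_cast (b : Bool) (I : List ℕ × ℕ) (k : ℕ) (hk : k ≤ 3 * rm I + 6) :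
    ((ry b I k : ℤ) : ℝ) = (rp b I).F st0 k := by
  have hU0 : (rp b I).U st0.c 0 = 0 := rfl
  have hd0 : st0.d = 0 := rfl
  rcases Par.kinds (rm I) k hk with rfl | ⟨t, ht, rfl⟩ | ⟨t, ht, rfl⟩ | ⟨t, ht, rfl⟩ | rfl | rfl |
    rfl | rfl | rfl
  · rw [Par.F_zero]
    unfold ry
    rw [if_pos rfl]
    simp [rp]
  · rw [Par.F_s _ _ (show t ≤ (rp b I).m from ht)]
    unfold ry
    rw [if_neg (by omega), if_pos (by omega), if_pos (by omega),
      show (3 * t + 1) / 3 = t by omega]
    by_cases hpar : t % 2 = 0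
    · rw [if_pos hpar]
      have : (rp b I).uS st0 t = 0 := by
        unfold Par.uS
        rw [hd0, Nat.add_zero, if_pos hpar]
        split_ifs with h
        · have : t = 0 := by omega
          subst this; exact hU0
        · exact hU0
      rw [this]; simp
    · rw [if_neg hpar]
      have : (rp b I).uS st0 t = -(rH I : ℝ) := by
        unfold Par.uS
        rw [hd0, Nat.add_zero, if_neg hpar, if_neg (by omega), hU0]
        simp [rp]
      rw [this]
      simp only [rp]
      push_cast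
      ring
  · rw [Par.F_a _ _ (show t < (rp b I).m from ht)]
    unfold ry
    rw [if_neg (by omega), if_pos (by omega), if_neg (by omega), if_pos (by omega),
      show (3 * t + 2) / 3 = t by omega]
    by_cases hpar : t % 2 = 0
    · rw [if_pos hpar]
      have : (rp b I).uA st0 t = -(2 * (I.1.getD t 0 : ℝ)) := by
        unfold Par.uA
        rw [hd0, Nat.add_zero, if_pos hpar]
        split_ifs with h h2
        · simp [st0] at h2
        · have : t = 0 := by omega
          subst this; rw [hU0]; simp [rp]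
        · rw [hU0]; simp [rp]
      rw [this]
      simp only [rp]
      push_cast
      ring
    · rw [if_neg hpar]
      have : (rp b I).uA st0 t = -(rH I : ℝ) + 2 * (I.1.getD t 0 : ℝ) := by
        unfold Par.uA
        rw [hd0, Nat.add_zero, if_neg hpar, if_neg (by omega), hU0]
        simp [rp]
      rw [this]
      simp only [rp]
      push_cast
      ring
  · rw [Par.F_p _ _ (show t < (rp b I).m from ht)]
    unfold ry
    rw [if_neg (by omega), if_pos (by omega), if_neg (by omega), if_neg (by omega),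
      show (3 * t + 3) / 3 = t + 1 by omega, Nat.add_sub_cancel]
    have hsub : (((rm I - t : ℕ) : ℤ) : ℝ) = (rm I : ℝ) - (t : ℝ) := by
      rw [Int.cast_natCast, Nat.cast_sub ht.le]
    by_cases hpar : t % 2 = 0
    · rw [if_pos hpar]
      have : (rp b I).uP st0 t = 5 * (rH I : ℝ) + ((rm I : ℝ) - (t : ℝ)) := by
        unfold Par.uP
        rw [hd0, Nat.add_zero, if_neg (by omega), if_pos hpar, hU0]
        simp [rp, Par.h]
      rw [this, ← hsub]
      simp only [rp]
      push_cast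
      ring
    · rw [if_neg hpar]
      have : (rp b I).uP st0 t =
          -((rH I : ℝ) + (5 * (rH I : ℝ) + ((rm I : ℝ) - (t : ℝ)))) := by
        unfold Par.uP
        rw [hd0, Nat.add_zero, if_neg (by omega), if_neg hpar, hU0]
        simp only [rp, Par.h]
        ring
      rw [this, ← hsub]
      simp only [rp]
      push_cast
      ring
  · have : (3 * rm I + 2) = 3 * (rp b I).m + 2 := rfl
    rw [this, Par.F_c, ← this]
    unfold ry
    rw [if_neg (by omega), if_neg (by omega), if_pos rfl]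
    rw [Par.fC_e0 rfl, hd0, Nat.add_zero, hU0]
    simp only [rp]
    split_ifs <;> push_cast <;> ring
  · have : (3 * rm I + 3) = 3 * (rp b I).m + 3 := rfl
    rw [this, Par.F_O, ← this]
    unfold ry
    rw [if_neg (by omega), if_neg (by omega), if_neg (by omega), if_pos rfl]
    rw [Par.fO_e0 rfl]
    simp
  · have : (3 * rm I + 4) = 3 * (rp b I).m + 4 := rfl
    rw [this, Par.F_Q, ← this]
    unfold ry
    rw [if_neg (by omega), if_neg (by omega), if_neg (by omega), if_neg (by omega), if_pos rfl]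
    rw [Par.fQ_e0 rfl]
    simp [rp]
  · have : (3 * rm I + 5) = 3 * (rp b I).m + 5 := rfl
    rw [this, Par.F_R, ← this]
    unfold ry
    rw [if_neg (by omega), if_neg (by omega), if_neg (by omega), if_neg (by omega),
      if_neg (by omega), if_pos rfl]
    simp [rp]
  · have : (3 * rm I + 6) = 3 * (rp b I).m + 6 := rfl
    rw [this, Par.F_Z, ← this]
    unfold ry
    rw [if_neg (by omega), if_neg (by omega), if_neg (by omega), if_neg (by omega),
      if_neg (by omega), if_neg (by omega)]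
    simp [rp]

theorem rE_cast (b : Bool) (I : List ℕ × ℕ) : ((rE I : ℕ) : ℝ) = (rp b I).E := by
  unfold rE Par.E Par.K rp
  simp only
  push_cast
  congr 1
  ring

theorem rP_vertices (b : Bool) (I : List ℕ × ℕ) (k : ℕ) (hk : k ≤ 3 * rm I + 6) :
    vertices (rP b I) k = ((rp b I).E * (rp b I).x k, (rp b I).F st0 k) := by
  have h : (rP b I).getD k (0, 0) =
      ((((rE I : ℤ) * rx I k : ℤ) : ℚ), ((ry b I k : ℤ) : ℚ)) := by
    unfold rP
    rw [List.getD_eq_getElem?_getD, List.getElem?_map, List.getElem?_range (by omega)]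
    rfl
  unfold vertices
  rw [h, ← rE_cast, ← rx_cast, ← ry_cast b I k hk]
  simp

/-! ### The directions -/

/-- the sum of the chosen items -/
def rsum (l : List ℕ) (c : ℕ → Bool) (j : ℕ) : ℕ :=
  ∑ i ∈ range j, (if c i = true then l.getD i 0 else 0)

theorem U_eq (b : Bool) (I : List ℕ × ℕ) (c : ℕ → Bool) (j : ℕ) :
    (rp b I).U c j = (j : ℝ) * (11 * (rH I : ℝ) + 2 * (rm I : ℝ)) - (j : ℝ) * ((j : ℝ) - 1) +
      4 * (rsum I.1 c j : ℝ) := by
  induction j with
  | zero => simp [Par.U, rsum]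
  | succ j ih =>
    rw [Par.U_succ, ih]
    have h1 : rsum I.1 c (j + 1) = rsum I.1 c j + (if c j = true then I.1.getD j 0 else 0) := by
      unfold rsum
      rw [Finset.sum_range_succ]
    rw [h1]
    simp only [rp, Par.h]
    split_ifs <;> push_cast <;> ring

theorem sum_getD (l : List ℕ) : ∑ i ∈ range l.length, l.getD i 0 = l.sum := by
  induction l with
  | nil => simp
  | cons a l ih =>
    rw [List.length_cons, Finset.sum_range_succ', List.sum_cons]
    simp only [List.getD_cons_succ, List.getD_cons_zero]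
    rw [ih, add_comm]

theorem rsum_le (l : List ℕ) (c : ℕ → Bool) {j : ℕ} (hj : j ≤ l.length) : rsum l c j ≤ l.sum := by
  rw [← sum_getD]
  unfold rsum
  calc ∑ i ∈ range j, (if c i = true then l.getD i 0 else 0) ≤ ∑ i ∈ range j, l.getD i 0 :=
        Finset.sum_le_sum fun i _ => by split_ifs <;> omega
    _ ≤ ∑ i ∈ range l.length, l.getD i 0 :=
        Finset.sum_le_sum_of_subset (Finset.range_mono hj)

theorem getD_le_sum (l : List ℕ) (j : ℕ) : l.getD j 0 ≤ l.sum := by
  rcases Nat.lt_or_ge j l.length with h | h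
  · rw [← sum_getD]
    exact Finset.single_le_sum (f := fun i => l.getD i 0) (fun _ _ => Nat.zero_le _)
      (Finset.mem_range.2 h)
  · rw [List.getD_eq_default _ _ h]
    exact Nat.zero_le _

/-- subset sums as sums over choices -/
theorem subsetSum_iff (l : List ℕ) (T : ℕ) :
    SubsetSum (l, T) ↔ ∃ c : ℕ → Bool, rsum l c l.length = T := by
  unfold SubsetSum rsum
  simp only
  induction l generalizing T with
  | nil =>
    constructor
    · rintro ⟨s, hs, rfl⟩
      rw [List.sublist_nil] at hs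
      subst hs
      exact ⟨fun _ => false, by simp⟩
    · rintro ⟨c, rfl⟩
      exact ⟨[], List.Sublist.refl _, by simp⟩
  | cons a l ih =>
    constructor
    · rintro ⟨s, hs, rfl⟩
      rcases List.sublist_cons_iff.1 hs with h | ⟨r, rfl, h⟩
      · obtain ⟨c, hc⟩ := (ih s.sum).1 ⟨s, h, rfl⟩
        refine ⟨fun i => match i with | 0 => false | i + 1 => c i, ?_⟩
        rw [List.length_cons, Finset.sum_range_succ']
        simpa using hc
      · obtain ⟨c, hc⟩ := (ih r.sum).1 ⟨r, h, rfl⟩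
        refine ⟨fun i => match i with | 0 => true | i + 1 => c i, ?_⟩
        rw [List.length_cons, Finset.sum_range_succ']
        simp only [List.getD_cons_succ, List.getD_cons_zero, List.sum_cons, if_true]
        rw [hc, add_comm]
    · rintro ⟨c, rfl⟩
      obtain ⟨s, hs1, hs2⟩ := (ih (∑ i ∈ range l.length,
        (if c (i + 1) = true then l.getD i 0 else 0))).2 ⟨fun i => c (i + 1), rfl⟩
      rw [List.length_cons, Finset.sum_range_succ']
      simp only [List.getD_cons_succ, List.getD_cons_zero]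
      by_cases h0 : c 0 = true
      · refine ⟨a :: s, List.Sublist.cons_cons _ hs1, ?_⟩
        rw [List.sum_cons, hs2, if_pos h0, add_comm]
      · refine ⟨s, List.Sublist.cons _ hs1, ?_⟩
        rw [hs2, if_neg h0, Nat.add_zero]

/-- the final direction -/
theorem U_m (b : Bool) (I : List ℕ × ℕ) (c : ℕ → Bool) :
    (rp b I).U c (rp b I).m = (ruT I : ℝ) - 4 * (I.2 : ℝ) + 4 * (rsum I.1 c I.1.length : ℝ) := by
  have : (rp b I).m = rm I := rfl
  rw [this, U_eq]
  unfold ruT
  have h : rsum I.1 c (rm I) = rsum I.1 c I.1.length := rfl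
  rw [h]
  push_cast
  ring

theorem rp_endOK (b : Bool) (I : List ℕ × ℕ) (hI : Nice I) (c : ℕ → Bool) :
    (rp b I).EndOK ((rp b I).U c (rp b I).m) := by
  rw [U_m]
  have h1 := rsum_le I.1 c le_rfl
  have h2 := hI.2
  obtain ⟨σ, hσ⟩ : ∃ σ, σ = rsum I.1 c I.1.length := ⟨_, rfl⟩
  rw [← hσ] at h1 ⊢
  have hS : (σ : ℝ) ≤ (I.1.sum : ℝ) := by exact_mod_cast h1
  have hT : (I.2 : ℝ) + 1 ≤ (I.1.sum : ℝ) := by exact_mod_cast h2
  have hσ0 : (0 : ℝ) ≤ σ := Nat.cast_nonneg _
  have hT0 : (0 : ℝ) ≤ (I.2 : ℝ) := Nat.cast_nonneg _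
  have hH : (rH I : ℝ) = 100 * ((I.1.sum : ℝ) + 1) := by unfold rH; push_cast; ring
  have hdich : (σ : ℝ) + 1 ≤ (I.2 : ℝ) ∨ (I.2 : ℝ) ≤ (σ : ℝ) := by
    rcases Nat.lt_or_ge σ I.2 with h | h
    · left; exact_mod_cast h
    · right; exact_mod_cast h
  have hdich2 : (I.2 : ℝ) + 1 ≤ (σ : ℝ) ∨ (σ : ℝ) ≤ (I.2 : ℝ) := by
    rcases Nat.lt_or_ge I.2 σ with h | h
    · left; exact_mod_cast h
    · right; exact_mod_cast h
  cases b
  · have q1 : (rp false I).q1 = -(ruT I : ℝ) + 1 := by simp [rp, rq1]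
    have q2 : (rp false I).q2 = -(ruT I : ℝ) - 2 * (rH I : ℝ) := by
      simp only [rp, rq2]
      simp only [Bool.false_eq_true, if_false]
      push_cast
      ring
    have k : (rp false I).κ = 2 := by simp [rp, rκ]
    have hh : (rp false I).H = rH I := rfl
    refine ⟨?_, ?_, ?_, ?_, ?_, ?_⟩ <;> (try rw [q1]) <;> (try rw [q2]) <;> (try rw [k]) <;>
      (try rw [hh])
    · rcases hdich with h | h
      · left; linarith
      · right; linarith
    · rcases hdich2 with h | h
      · right; linarith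
      · left; linarith
    · intro h3
      rcases hdich with h | h
      · linarith
      · linarith
    · left; linarith
    · linarith
    · intro h3; linarith
  · have q1 : (rp true I).q1 = -(ruT I : ℝ) + (rH I : ℝ) + 1 := by
      simp only [rp, rq1, if_true]
      push_cast
      ring
    have q2 : (rp true I).q2 = -(ruT I : ℝ) - 2 := by
      simp only [rp, rq2, if_true]
      push_cast
      ring
    have k : (rp true I).κ = rH I := by simp [rp, rκ]
    have hh : (rp true I).H = rH I := rfl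
    refine ⟨?_, ?_, ?_, ?_, ?_, ?_⟩ <;> (try rw [q1]) <;> (try rw [q2]) <;> (try rw [k]) <;>
      (try rw [hh])
    · right; linarith
    · rcases hdich with h | h
      · left; linarith
      · right; linarith
    · intro h3; linarith
    · rcases hdich2 with h | h
      · right; linarith
      · left; linarith
    · linarith
    · intro h3; linarith

theorem rp_ok (b : Bool) (I : List ℕ × ℕ) (hI : Nice I) : (rp b I).Ok (rY I) := by
  have h2 := hI.2
  have hT : (I.2 : ℝ) + 1 ≤ (I.1.sum : ℝ) := by exact_mod_cast h2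
  have hT0 : (0 : ℝ) ≤ (I.2 : ℝ) := Nat.cast_nonneg _
  have hH : (rH I : ℝ) = 100 * ((I.1.sum : ℝ) + 1) := by unfold rH; push_cast; ring
  have hm0 : (0 : ℝ) ≤ (rm I : ℝ) := Nat.cast_nonneg _
  have hmH : (0 : ℝ) ≤ (rm I : ℝ) * (rH I : ℝ) := by positivity
  have hmm : (0 : ℝ) ≤ (rm I : ℝ) * ((rm I : ℝ) + 1) := by positivity
  have huT : (ruT I : ℝ) = 11 * ((rm I : ℝ) * (rH I : ℝ)) + (rm I : ℝ) * ((rm I : ℝ) + 1) +
      4 * (I.2 : ℝ) := by unfold ruT; push_cast; ring
  have hY : (rY I : ℝ) = 11 * ((rm I : ℝ) * (rH I : ℝ)) + (rm I : ℝ) * ((rm I : ℝ) + 1) +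
      4 * (I.1.sum : ℝ) + 20 * (rH I : ℝ) + 4 * (rm I : ℝ) + 4 := by unfold rY; push_cast; ring
  have hgl : ∀ j, ((I.1.getD j 0 : ℕ) : ℝ) ≤ (I.1.sum : ℝ) := fun j => by
    exact_mod_cast getD_le_sum I.1 j
  have q1 : |(rp b I).q1| ≤ (rY I : ℝ) := by
    cases b
    · have : (rp false I).q1 = -(ruT I : ℝ) + 1 := by simp [rp, rq1]
      rw [this, abs_le, hY, huT]
      constructor <;> linarith
    · have : (rp true I).q1 = -(ruT I : ℝ) + (rH I : ℝ) + 1 := by
        simp only [rp, rq1, if_true]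
        push_cast
        ring
      rw [this, abs_le, hY, huT]
      constructor <;> linarith
  have q2 : |(rp b I).q2| ≤ (rY I : ℝ) := by
    cases b
    · have : (rp false I).q2 = -(ruT I : ℝ) - 2 * (rH I : ℝ) := by
        simp only [rp, rq2]
        simp only [Bool.false_eq_true, if_false]
        push_cast
        ring
      rw [this, abs_le, hY, huT]
      constructor <;> linarith
    · have : (rp true I).q2 = -(ruT I : ℝ) - 2 := by
        simp only [rp, rq2, if_true]
        push_cast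
        ring
      rw [this, abs_le, hY, huT]
      constructor <;> linarith
  refine ⟨?_, ?_, ?_, ?_, ?_, ?_, ?_, ?_, rp_endOK b I hI, ?_, q1, q2, ?_⟩
  · show (1 : ℝ) ≤ (rH I : ℝ)
    linarith
  · intro j hj
    show (1 : ℝ) ≤ 2 * ((I.1.getD j 0 : ℕ) : ℝ)
    have hj' : j < I.1.length := hj
    have h3 : 0 < I.1.getD j 0 := by
      rw [List.getD_eq_getElem _ _ hj']
      exact (hI.1 _ (List.getElem_mem hj')).1
    have h4 : (1 : ℝ) ≤ ((I.1.getD j 0 : ℕ) : ℝ) := by exact_mod_cast h3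
    linarith
  · intro j
    show (0 : ℝ) ≤ 2 * ((I.1.getD j 0 : ℕ) : ℝ)
    positivity
  · intro j
    show 20 * (2 * ((I.1.getD j 0 : ℕ) : ℝ)) + 20 ≤ (rH I : ℝ)
    have := hgl j
    linarith
  · show 2 * ((I.1.getD (rm I) 0 : ℕ) : ℝ) = 0
    have : I.1.getD (rm I) 0 = 0 := List.getD_eq_default _ _ le_rfl
    rw [this]; simp
  · cases b
    · have : (rp false I).κ = 2 := by simp [rp, rκ]
      rw [this]
    · have : (rp true I).κ = rH I := by simp [rp, rκ]
      rw [this]; linarith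
  · cases b
    · have : (rp false I).κ = 2 := by simp [rp, rκ]
      rw [this]
      show (2 : ℝ) ≤ (rH I : ℝ)
      linarith
    · have : (rp true I).κ = rH I := by simp [rp, rκ]
      rw [this]
      exact le_rfl
  · cases b
    · have e1 : (rp false I).q1 = -(ruT I : ℝ) + 1 := by simp [rp, rq1]
      have e2 : (rp false I).q2 = -(ruT I : ℝ) - 2 * (rH I : ℝ) := by
        simp only [rp, rq2]
        simp only [Bool.false_eq_true, if_false]
        push_cast
        ring
      have e3 : (rp false I).κ = 2 := by simp [rp, rκ]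
      rw [e1, e2, e3]
      linarith
    · have e1 : (rp true I).q1 = -(ruT I : ℝ) + (rH I : ℝ) + 1 := by
        simp only [rp, rq1, if_true]
        push_cast
        ring
      have e2 : (rp true I).q2 = -(ruT I : ℝ) - 2 := by
        simp only [rp, rq2, if_true]
        push_cast
        ring
      have e3 : (rp true I).κ = rH I := by simp [rp, rκ]
      rw [e1, e2, e3]
      linarith
  · intro c j hj
    have hj' : j ≤ rm I := hj
    have hjR : (j : ℝ) ≤ (rm I : ℝ) := by exact_mod_cast hj'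
    have hj0 : (0 : ℝ) ≤ (j : ℝ) := Nat.cast_nonneg _
    have hs : (rsum I.1 c j : ℝ) ≤ (I.1.sum : ℝ) := by exact_mod_cast rsum_le I.1 c hj'
    have hs0 : (0 : ℝ) ≤ (rsum I.1 c j : ℝ) := Nat.cast_nonneg _
    rw [U_eq]
    have hm' : (rp b I).m = rm I := rfl
    have hH' : (rp b I).H = rH I := rfl
    rw [hm', hH', hY]
    have hHp : (0 : ℝ) ≤ (rH I : ℝ) := Nat.cast_nonneg _
    constructor
    · have e1 : 0 ≤ (j : ℝ) * (11 * (rH I : ℝ) + 2 * (rm I : ℝ) - (j : ℝ) + 1) :=
        mul_nonneg hj0 (by linarith)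
      linarith
    · have e1 : 0 ≤ ((rm I : ℝ) - (j : ℝ)) *
          (11 * (rH I : ℝ) + 2 * (rm I : ℝ) - (rm I : ℝ) - (j : ℝ) + 1) :=
        mul_nonneg (by linarith) (by linarith)
      linarith
  · show 100 * 6 ^ (rm I) * (rY I : ℝ) ≤ (rM I : ℝ)
    unfold rM
    push_cast
    exact le_rfl

/-- The convexifying sequences of the polygon. -/
theorem rP_main (b : Bool) (I : List ℕ × ℕ) (hI : Nice I) :
    IsSimple (rP b I).length (vertices (rP b I)) ∧
      ∀ t, ConvexifiesIn (rP b I).length t (vertices (rP b I)) ↔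
        ∃ c : ℕ → Bool, t = 3 * rm I + rho (rp b I) ((rp b I).U c (rp b I).m) := by
  rw [rP_length]
  exact Par.main (rp_ok b I hI) (fun k hk => rP_vertices b I k hk)

theorem rho_short (I : List ℕ × ℕ) (hI : Nice I) (c : ℕ → Bool) :
    rho (rp true I) ((rp true I).U c (rp true I).m) =
      if rsum I.1 c I.1.length = I.2 then 1 else 2 := by
  rw [U_m]
  have h1 := rsum_le I.1 c le_rfl
  obtain ⟨σ, hσ⟩ : ∃ σ, σ = rsum I.1 c I.1.length := ⟨_, rfl⟩
  rw [← hσ] at h1 ⊢
  have hS : (σ : ℝ) ≤ (I.1.sum : ℝ) := by exact_mod_cast h1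
  have hT : (I.2 : ℝ) + 1 ≤ (I.1.sum : ℝ) := by exact_mod_cast hI.2
  have hσ0 : (0 : ℝ) ≤ σ := Nat.cast_nonneg _
  have hH : (rH I : ℝ) = 100 * ((I.1.sum : ℝ) + 1) := by unfold rH; push_cast; ring
  have q1 : (rp true I).q1 = -(ruT I : ℝ) + (rH I : ℝ) + 1 := by
    simp only [rp, rq1, if_true]
    push_cast
    ring
  have q2 : (rp true I).q2 = -(ruT I : ℝ) - 2 := by
    simp only [rp, rq2, if_true]
    push_cast
    ring
  have k : (rp true I).κ = rH I := by simp [rp, rκ]
  unfold rho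
  rw [q1, q2, k, if_neg (by linarith)]
  rcases lt_trichotomy σ I.2 with h | h | h
  · have h' : (σ : ℝ) + 1 ≤ (I.2 : ℝ) := by exact_mod_cast h
    rw [if_neg (by rintro ⟨a, b⟩; linarith), if_neg h.ne]
  · have h' : (σ : ℝ) = (I.2 : ℝ) := by exact_mod_cast h
    rw [if_pos (by constructor <;> linarith), if_pos h]
  · have h' : (I.2 : ℝ) + 1 ≤ (σ : ℝ) := by exact_mod_cast h
    rw [if_neg (by rintro ⟨a, b⟩; linarith), if_neg h.ne']

theorem rho_long (I : List ℕ × ℕ) (hI : Nice I) (c : ℕ → Bool) :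
    rho (rp false I) ((rp false I).U c (rp false I).m) =
      if rsum I.1 c I.1.length = I.2 then 2 else 1 := by
  rw [U_m]
  have h1 := rsum_le I.1 c le_rfl
  obtain ⟨σ, hσ⟩ : ∃ σ, σ = rsum I.1 c I.1.length := ⟨_, rfl⟩
  rw [← hσ] at h1 ⊢
  have hS : (σ : ℝ) ≤ (I.1.sum : ℝ) := by exact_mod_cast h1
  have hT : (I.2 : ℝ) + 1 ≤ (I.1.sum : ℝ) := by exact_mod_cast hI.2
  have hσ0 : (0 : ℝ) ≤ σ := Nat.cast_nonneg _
  have hT0 : (0 : ℝ) ≤ (I.2 : ℝ) := Nat.cast_nonneg _
  have hH : (rH I : ℝ) = 100 * ((I.1.sum : ℝ) + 1) := by unfold rH; push_cast; ring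
  have q1 : (rp false I).q1 = -(ruT I : ℝ) + 1 := by simp [rp, rq1]
  have q2 : (rp false I).q2 = -(ruT I : ℝ) - 2 * (rH I : ℝ) := by
    simp only [rp, rq2]
    simp only [Bool.false_eq_true, if_false]
    push_cast
    ring
  have k : (rp false I).κ = 2 := by simp [rp, rκ]
  unfold rho
  rw [q1, q2, k]
  rcases lt_trichotomy σ I.2 with h | h | h
  · have h' : (σ : ℝ) + 1 ≤ (I.2 : ℝ) := by exact_mod_cast h
    rw [if_pos (by linarith), if_neg h.ne]
  · have h' : (σ : ℝ) = (I.2 : ℝ) := by exact_mod_cast h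
    rw [if_neg (by linarith), if_neg (by rintro ⟨a, b⟩; linarith), if_pos h]
  · have h' : (I.2 : ℝ) + 1 ≤ (σ : ℝ) := by exact_mod_cast h
    rw [if_neg (by linarith), if_pos (by constructor <;> linarith), if_neg h.ne']

theorem correct_short (I : List ℕ × ℕ) (hI : Nice I) :
    SubsetSum I ↔ Shortest (rP true I, 3 * rm I + 1) := by
  obtain ⟨h1, h2⟩ := rP_main true I hI
  have hss : SubsetSum I ↔ ∃ c : ℕ → Bool, rsum I.1 c I.1.length = I.2 := subsetSum_iff I.1 I.2
  rw [hss]
  unfold Shortest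
  simp only
  constructor
  · rintro ⟨c, hc⟩
    refine ⟨h1, 3 * rm I + 1, le_rfl, (h2 _).2 ⟨c, ?_⟩⟩
    rw [rho_short I hI, if_pos hc]
  · rintro ⟨-, t, ht, hconv⟩
    obtain ⟨c, hc⟩ := (h2 t).1 hconv
    rw [rho_short I hI] at hc
    refine ⟨c, ?_⟩
    by_contra hne
    rw [if_neg hne] at hc
    omega

theorem correct_long (I : List ℕ × ℕ) (hI : Nice I) :
    SubsetSum I ↔ Longest (rP false I, 3 * rm I + 2) := by
  obtain ⟨h1, h2⟩ := rP_main false I hI
  have hss : SubsetSum I ↔ ∃ c : ℕ → Bool, rsum I.1 c I.1.length = I.2 := subsetSum_iff I.1 I.2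
  rw [hss]
  unfold Longest
  simp only
  constructor
  · rintro ⟨c, hc⟩
    refine ⟨h1, 3 * rm I + 2, le_rfl, (h2 _).2 ⟨c, ?_⟩⟩
    rw [rho_long I hI, if_pos hc]
  · rintro ⟨-, t, ht, hconv⟩
    obtain ⟨c, hc⟩ := (h2 t).1 hconv
    rw [rho_long I hI] at hc
    refine ⟨c, ?_⟩
    by_contra hne
    rw [if_neg hne] at hc
    omega

end Pool.Agent.Helper480_Flip
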