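import Pool.Agent.Helper480_Flip.Red
import Pool.Agent.H671R2.PolyAuto

/-!
# The reduction is computable in polynomial time
-/

namespace Pool.Agent.NPC.Flip480

open Pool.Agent.Helper480_Flip Pool.Agent.NPC.R671.SS Pool.Agent.NPC.H532

section closure

variable {α β : Type} [TEnc α] [TEnc β]

theorem size_mul_le' (m n : ℕ) : (m * n).size ≤ m.size + n.size := by
  rw [Nat.size_le, pow_add]
  exact Nat.mul_lt_mul'' (Nat.lt_size_self m) (Nat.lt_size_self n)

/-- products of lists of numbers -/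
theorem poly_listProd {l : α → List ℕ} (hl : Poly l) : Poly (fun a => (l a).prod) := by
  obtain ⟨r, hr⟩ := hl.sz_le
  refine (Poly.foldr (s := fun _ => 1) (F := fun _ x s => x * s) hl (Poly.const 1)
    (Poly.mul (Poly.fst (Poly.snd Poly.id)) (Poly.snd (Poly.snd Poly.id)))
    (Polynomial.C 4 * r + Polynomial.C 5) ?_).congr fun a => ?_
  · intro a k hk
    have key : ∀ l : List ℕ, (l.foldr (fun x s => x * s) 1).size ≤ sz l + 1 := by
      intro l
      induction l with
      | nil => simp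
      | cons x l ih =>
        rw [List.foldr_cons]
        set s := l.foldr (fun x s => x * s) 1
        have h1 := size_mul_le' x s
        have h5 := size_le_sz x
        simp
        omega
    have h1 := sz_nat_le (((l a).drop k).foldr (fun x s => x * s) 1)
    have h2 := key ((l a).drop k)
    have h3 := Poly.sz_drop_le (l a) k
    have h4 := hr a
    simp only [Polynomial.eval_add, Polynomial.eval_mul, Polynomial.eval_C]
    omega
  · rw [List.prod_eq_foldr]

/-- powers with a small exponent -/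
theorem poly_pow {n x : α → ℕ} (hn : UPoly n) (hx : Poly x) : Poly (fun a => x a ^ n a) :=
  (poly_listProd (Poly.map (F := fun a (_ : Unit) => x a) hn (hx.comp (Poly.fst Poly.id)))).congr
    fun a => by simp

/-- an integer, as a rational number -/
theorem poly_intCast {f : α → ℤ} (hf : Poly f) : Poly (fun a => ((f a : ℤ) : ℚ)) :=
  Poly.of_toT ((Poly.toT' (Poly.pair hf (Poly.const 1))).congr fun a => by
    change toT (f a, 1) = toT ((((f a : ℤ) : ℚ)).num, (((f a : ℤ) : ℚ)).den)
    simp)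

end closure

theorem upoly_rm : UPoly rm := UPoly.length (Poly.fst Poly.id)

theorem poly_rH : Poly rH :=
  Poly.mul (Poly.const 100) (Poly.succ (Poly.sum (Poly.fst Poly.id)))

theorem poly_ruT : Poly ruT :=
  Poly.add (Poly.add (Poly.mul (Poly.const 11) (Poly.mul upoly_rm.toPoly poly_rH))
    (Poly.mul upoly_rm.toPoly (Poly.succ upoly_rm.toPoly)))
    (Poly.mul (Poly.const 4) (Poly.snd Poly.id))

theorem poly_rκ (b : Bool) : Poly (rκ b) := by
  cases b
  · exact (Poly.const 2).congr fun a => by simp [rκ]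
  · exact poly_rH.congr fun a => by simp [rκ]

theorem poly_rq1 (b : Bool) : Poly (rq1 b) := by
  cases b
  · exact (Poly_addZ (Poly_neg (Poly_ofNat poly_ruT)) (Poly.const 1)).congr fun a => by
      simp [rq1]
  · exact (Poly_addZ (Poly_neg (Poly_ofNat poly_ruT)) (Poly_ofNat (Poly.succ poly_rH))).congr
      fun a => by simp [rq1]

theorem poly_rq2 (b : Bool) : Poly (rq2 b) := by
  cases b
  · exact (Poly_addZ (Poly_neg (Poly_ofNat poly_ruT))
      (Poly_neg (Poly_ofNat (Poly.mul (Poly.const 2) poly_rH)))).congr fun a => by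
      simp [rq2]
  · exact (Poly_addZ (Poly_neg (Poly_ofNat poly_ruT)) (Poly.const (-2))).congr
      fun a => by simp [rq2]

theorem poly_rY : Poly rY :=
  Poly.add (Poly.add (Poly.add (Poly.add (Poly.add
    (Poly.mul (Poly.const 11) (Poly.mul upoly_rm.toPoly poly_rH))
    (Poly.mul upoly_rm.toPoly (Poly.succ upoly_rm.toPoly)))
    (Poly.mul (Poly.const 4) (Poly.sum (Poly.fst Poly.id))))
    (Poly.mul (Poly.const 20) poly_rH)) (Poly.mul (Poly.const 4) upoly_rm.toPoly)) (Poly.const 4)

theorem poly_rM : Poly rM :=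
  Poly.mul (Poly.mul (Poly.const 100) (poly_pow upoly_rm (Poly.const 6))) poly_rY

theorem poly_rE : Poly rE :=
  poly_pow (UPoly.add (UPoly.mul (UPoly.const 3) upoly_rm) (UPoly.const 4))
    (Poly.mul (Poly.const 256) (Poly.mul (Poly.mul poly_rM poly_rM) poly_rM))

section coords

/-- the instance, in a pair with an index -/
theorem poly_I : Poly (fun p : (List ℕ × ℕ) × ℕ => p.1) := Poly.fst Poly.id

theorem poly_k : Poly (fun p : (List ℕ × ℕ) × ℕ => p.2) := Poly.snd Poly.id

theorem poly_k3 : Poly (fun p : (List ℕ × ℕ) × ℕ => p.2 / 3) := Poly.div poly_k (Poly.const 3)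

theorem upoly_m : UPoly (fun p : (List ℕ × ℕ) × ℕ => rm p.1) := upoly_rm.comp poly_I

/-- the width of a stage -/
theorem poly_w : Poly (fun p : (List ℕ × ℕ) × ℕ => 6 ^ (rm p.1 - p.2 / 3)) :=
  poly_pow (UPoly.of_le (Poly.sub upoly_m.toPoly poly_k3) upoly_m fun _ => Nat.sub_le _ _)
    (Poly.const 6)

theorem poly_end (c : ℕ) : Poly (fun p : (List ℕ × ℕ) × ℕ => 3 * rm p.1 + c) :=
  Poly.add (Poly.mul (Poly.const 3) upoly_m.toPoly) (Poly.const c)

theorem poly_rx : Poly (fun p : (List ℕ × ℕ) × ℕ => rx p.1 p.2) := by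
  unfold rx
  refine Poly.ite (Poly.decide_eq poly_k (Poly.const 0)) ?_
    (Poly.ite (Poly.decide_le poly_k (poly_end 2))
      (Poly.ite (Poly.decide_eq (Poly.mod poly_k (Poly.const 3)) (Poly.const 1)) ?_
        (Poly.ite (Poly.decide_eq (Poly.mod poly_k (Poly.const 3)) (Poly.const 2)) ?_ ?_))
      (Poly.ite (Poly.decide_eq poly_k (poly_end 3)) (Poly.const _)
        (Poly.ite (Poly.decide_eq poly_k (poly_end 4)) (Poly.const _)
          (Poly.ite (Poly.decide_eq poly_k (poly_end 5)) (Poly.const _) (Poly.const _)))))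
  · exact Poly_neg (Poly_ofNat (Poly.succ (Poly.mul (Poly.const 2)
      (poly_pow upoly_m (Poly.const 6)))))
  · exact Poly_neg (Poly_ofNat (Poly.mul (Poly.const 2) poly_w))
  · exact Poly_neg (Poly_ofNat poly_w)
  · exact Poly_neg (Poly_ofNat (Poly.mul (Poly.const 4) poly_w))

theorem poly_ry (b : Bool) : Poly (fun p : (List ℕ × ℕ) × ℕ => ry b p.1 p.2) := by
  have hM : Poly (fun p : (List ℕ × ℕ) × ℕ => rM p.1) := poly_rM.comp poly_I
  have hH : Poly (fun p : (List ℕ × ℕ) × ℕ => rH p.1) := poly_rH.comp poly_I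
  have hκ : Poly (fun p : (List ℕ × ℕ) × ℕ => rκ b p.1) := (poly_rκ b).comp poly_I
  have h1 : Poly (fun p : (List ℕ × ℕ) × ℕ => rq1 b p.1) := (poly_rq1 b).comp poly_I
  have h2 : Poly (fun p : (List ℕ × ℕ) × ℕ => rq2 b p.1) := (poly_rq2 b).comp poly_I
  have hm := upoly_m.toPoly
  have hd : Poly (fun p : (List ℕ × ℕ) × ℕ => 2 * p.1.1.getD (p.2 / 3) 0) :=
    Poly.mul (Poly.const 2) (Poly.getD (Poly.fst poly_I) poly_k3 (Poly.const 0))
  have hpar : Poly (fun p : (List ℕ × ℕ) × ℕ => decide (p.2 / 3 % 2 = 0)) :=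
    Poly.decide_eq (Poly.mod poly_k3 (Poly.const 2)) (Poly.const 0)
  have hpar1 : Poly (fun p : (List ℕ × ℕ) × ℕ => decide ((p.2 / 3 - 1) % 2 = 0)) :=
    Poly.decide_eq (Poly.mod (Poly.sub poly_k3 (Poly.const 1)) (Poly.const 2)) (Poly.const 0)
  have hh : Poly (fun p : (List ℕ × ℕ) × ℕ => 5 * rH p.1 + (rm p.1 - (p.2 / 3 - 1))) :=
    Poly.add (Poly.mul (Poly.const 5) hH) (Poly.sub hm (Poly.sub poly_k3 (Poly.const 1)))
  unfold ry
  refine Poly.ite (Poly.decide_eq poly_k (Poly.const 0)) (Poly_neg (Poly_ofNat hM))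
    (Poly.ite (Poly.decide_le poly_k (poly_end 1))
      (Poly.ite (Poly.decide_eq (Poly.mod poly_k (Poly.const 3)) (Poly.const 1))
        (Poly.ite hpar (Poly.const _) ?_)
        (Poly.ite (Poly.decide_eq (Poly.mod poly_k (Poly.const 3)) (Poly.const 2))
          (Poly.ite hpar ?_ ?_) (Poly.ite hpar1 ?_ ?_)))
      (Poly.ite (Poly.decide_eq poly_k (poly_end 2))
        (Poly.ite (Poly.decide_eq (Poly.mod hm (Poly.const 2)) (Poly.const 0)) ?_ ?_)
        (Poly.ite (Poly.decide_eq poly_k (poly_end 3)) (Poly.const _)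
          (Poly.ite (Poly.decide_eq poly_k (poly_end 4)) (Poly_mulZ (Poly.const _) h1)
            (Poly.ite (Poly.decide_eq poly_k (poly_end 5))
              (Poly_addZ (Poly_mulZ (Poly.const _) h1) (Poly_mulZ (Poly.const _) h2))
              (Poly_neg (Poly_ofNat hM)))))))
  · exact Poly_neg (Poly_ofNat (Poly.mul (Poly.mul (Poly.const 2) poly_w) hH))
  · exact Poly_neg (Poly_ofNat (Poly.mul poly_w hd))
  · exact Poly_mulZ (Poly_ofNat poly_w) (Poly_addZ (Poly_neg (Poly_ofNat hH)) (Poly_ofNat hd))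
  · exact Poly_ofNat (Poly.mul (Poly.mul (Poly.const 4) poly_w) hh)
  · exact Poly_neg (Poly_ofNat (Poly.mul (Poly.mul (Poly.const 4) poly_w) (Poly.add hH hh)))
  · exact Poly_neg (Poly_ofNat hκ)
  · exact Poly_addZ (Poly_neg (Poly_ofNat hH)) (Poly_ofNat hκ)

end coords

theorem poly_rP (b : Bool) : Poly (rP b) := by
  unfold rP
  refine Poly.map (F := fun I k => ((((rE I : ℤ) * rx I k : ℤ) : ℚ), ((ry b I k : ℤ) : ℚ)))
    (UPoly.add (UPoly.mul (UPoly.const 3) upoly_rm) (UPoly.const 7)).range ?_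
  exact Poly.pair (poly_intCast (Poly_mulZ (Poly_ofNat (poly_rE.comp poly_I)) poly_rx))
    (poly_intCast (poly_ry b))

theorem poly_short : Poly (fun I => (rP true I, 3 * rm I + 1)) :=
  Poly.pair (poly_rP true)
    (Poly.add (Poly.mul (Poly.const 3) upoly_rm.toPoly) (Poly.const 1))

theorem poly_long : Poly (fun I => (rP false I, 3 * rm I + 2)) :=
  Poly.pair (poly_rP false)
    (Poly.add (Poly.mul (Poly.const 3) upoly_rm.toPoly) (Poly.const 2))

/-- Deciding whether a polygon can be convexified by few flips is NP-hard. -/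
theorem nphard_shortest : NPHardP Shortest :=
  ((hardPr_SubsetSum.trans (Pr' := fun _ => True) poly_short (fun _ _ => trivial)
    (fun I hI => correct_short I hI)).toHardI).toNPHardP

/-- Deciding whether a polygon can be convexified by many flips is NP-hard. -/
theorem nphard_longest : NPHardP Longest :=
  ((hardPr_SubsetSum.trans (Pr' := fun _ => True) poly_long (fun _ _ => trivial)
    (fun I hI => correct_long I hI)).toHardI).toNPHardP

end Pool.Agent.NPC.Flip480
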