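import Pool.Agent.Helper480_Flip.Dent

/-!
# The transitions of the flat model
-/

namespace Pool.Agent.Helper480_Flip

open Finset

namespace Par

variable {p : Par} {s : St} {Y : ℝ}

/-- number of flips made so far -/
def rank (p : Par) (s : St) : ℕ :=
  s.d + (∑ j ∈ range p.m, (if s.al j = true then 1 else 0)) +
    (∑ j ∈ range p.m, (if s.pi j = true then 1 else 0)) + s.en.rank

theorem cnt_update (f : ℕ → Bool) {t m : ℕ} (ht : t < m) (hf : f t = false) :
    (∑ j ∈ range m, (if Function.update f t true j = true then 1 else 0)) =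
      (∑ j ∈ range m, (if f j = true then 1 else 0)) + 1 := by
  rw [← Finset.add_sum_erase _ _ (Finset.mem_range.2 ht),
    ← Finset.add_sum_erase (range m) (fun j => if f j = true then 1 else 0)
      (Finset.mem_range.2 ht)]
  have : ∑ j ∈ (range m).erase t, (if Function.update f t true j = true then 1 else 0) =
      ∑ j ∈ (range m).erase t, (if f j = true then 1 else 0) := by
    refine Finset.sum_congr rfl fun j hj => ?_
    rw [Function.update_of_ne (Finset.ne_of_mem_erase hj)]
  rw [this, Function.update_self, hf]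
  simp
  omega

/-- The transition from `s` to `s'` by the vertical reflection of the vertices between `i` and
`j` -/
structure Tr (p : Par) (s s' : St) (i j : ℕ) : Prop where
  cp : p.CP s i j
  gap : i + 2 ≤ j
  val : p.Valid s'
  rk : p.rank s' = p.rank s + 1
  fl : ∀ k, i < k → k < j →
    p.F s' k = vref (p.x i) (p.F s i) (p.x j) (p.F s j) (p.x k) (p.F s k)
  same : ∀ k, k ≤ 3 * p.m + 6 → ¬ (i < k ∧ k < j) → p.F s' k = p.F s k

theorem vref_of {x1 y1 x3 y3 x2 y2 : ℝ} (r : ℝ) (hx : x3 - x1 ≠ 0)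
    (h : (y3 - y1) * (x2 - x1) = r * (x3 - x1)) : vref x1 y1 x3 y3 x2 y2 = 2 * (y1 + r) - y2 := by
  unfold vref
  rw [mul_div_assoc', h, mul_div_assoc, div_self hx, mul_one]

/-- flipping the dent of stage `t` -/
def stA (s : St) (t : ℕ) : St := { s with al := Function.update s.al t true }

/-- the last flip of stage `t` -/
def stP (s : St) (t : ℕ) : St := { s with pi := Function.update s.pi t true }

/-- the big flip -/
def stB (s : St) : St := { s with d := s.d + 1, c := Function.update s.c s.d (s.al s.d) }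

/-- flips in the end gadget -/
def stE (s : St) (e : En) : St := { s with en := e }

theorem update_true {f : ℕ → Bool} {t j : ℕ} (h : f j = true) :
    Function.update f t true j = true := by
  by_cases e : j = t
  · subst e; simp
  · rw [Function.update_of_ne e]; exact h

theorem tr_A (hok : p.Ok Y) (hv : p.Valid s) {t : ℕ} (ht : t < p.m) (htd : t ≤ s.d)
    (hal : s.al t = false) : p.Tr s (stA s t) (3 * t + 1) (3 * t + 3) := by
  refine ⟨CP.sp t ht htd hal, by omega, ?_, ?_, ?_, ?_⟩
  · refine ⟨hv.dm, ?_, ?_, ?_, hv.en0, hv.ena, hv.enb, hv.enc, hv.end2⟩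
    · intro j hj
      by_cases e : j = t
      · subst e; exact ⟨htd, ht⟩
      · exact hv.al_le j (by simpa [stA, Function.update_of_ne e] using hj)
    · intro j hj
      have := hv.pi_le j hj
      exact ⟨this.1, update_true this.2⟩
    · intro j hj
      have := hv.c_le j hj
      exact ⟨this.1, update_true this.2⟩
  · unfold rank stA
    simp only
    rw [cnt_update s.al ht hal]
    omega
  · intro k h1 h2
    have : k = 3 * t + 2 := by omega
    subst this
    have hΛ := six_pos (p.m - (t + 1))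
    rw [p.F_a _ ht, uA_true (s := stA s t) htd (by simp [stA])]
    rw [vref_of (3 * 6 ^ (p.m - (t + 1)) * (p.h t - 2 * p.U s.c t))]
    · rw [p.F_s s ht.le, p.F_a s ht, uS_le htd, uA_false htd hal, pow_split ht]
      simp only [stA]
      ring
    · rw [p.x_p ht, p.x_s ht.le, pow_split ht]
      intro h
      linarith
    · rw [p.F_s s ht.le, p.F_p s ht, uS_le htd, uP_al_false hv htd hal, p.x_p ht, p.x_s ht.le,
        p.x_a ht.le, pow_split ht]
      ring
  · intro k hk hne
    rcases kinds p.m k hk with rfl | ⟨r, hr, rfl⟩ | ⟨r, hr, rfl⟩ | ⟨r, hr, rfl⟩ | rfl | rfl |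
      rfl | rfl | rfl
    · rw [p.F_zero, p.F_zero]
    · rw [p.F_s _ hr, p.F_s _ hr]; rfl
    · rw [p.F_a _ hr, p.F_a _ hr]
      have : r ≠ t := by rintro rfl; exact hne ⟨by omega, by omega⟩
      unfold uA stA
      simp only [Function.update_of_ne this]
    · rw [p.F_p _ hr, p.F_p _ hr]; rfl
    · rw [p.F_c, p.F_c]; rfl
    · rw [p.F_O, p.F_O]; rfl
    · rw [p.F_Q, p.F_Q]; rfl
    · rw [p.F_R, p.F_R]
    · rw [p.F_Z, p.F_Z]

theorem tr_P (hok : p.Ok Y) (hv : p.Valid s) {t : ℕ} (ht : t < p.m) (htd : t < s.d)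
    (hal : s.al t = true) (hpi : s.pi t = false) :
    p.Tr s (stP s t) (3 * t + 2) (3 * t + 4) := by
  refine ⟨CP.as t ht htd hal hpi, by omega, ?_, ?_, ?_, ?_⟩
  · refine ⟨hv.dm, hv.al_le, ?_, hv.c_le, hv.en0, hv.ena, hv.enb, hv.enc, hv.end2⟩
    intro j hj
    by_cases e : j = t
    · subst e; exact ⟨htd, hal⟩
    · exact hv.pi_le j (by simpa [stP, Function.update_of_ne e] using hj)
  · unfold rank stP
    simp only
    rw [cnt_update s.pi ht hpi]
    omega
  · intro k h1 h2
    have : k = 3 * t + 3 := by omega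
    subst this
    have hΛ := six_pos (p.m - (t + 1))
    rw [show 3 * t + 4 = 3 * (t + 1) + 1 by ring]
    rw [vref_of ((p.F s (3 * (t + 1) + 1) - p.F s (3 * t + 2)) / 2)]
    · rw [p.F_a s ht, uA_true htd.le hal, p.F_s s (j := t + 1) ht, uS_le (t := t + 1) htd, U_succ,
        p.F_p s ht, p.F_p _ ht, pow_split ht]
      by_cases hc : s.c t = true
      · rw [uP_tt (s := stP s t) htd (by simp [stP]) hc, uP_ft htd hpi hc, hc, if_pos rfl]
        simp only [stP]
        ring
      · have hc' : s.c t = false := by simpa using hc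
        rw [uP_tf (s := stP s t) htd (by simp [stP]) hc', uP_ff htd hpi hc', if_neg hc]
        simp only [stP]
        ring
    · rw [p.x_s (j := t + 1) ht, p.x_a ht.le, pow_split ht]
      intro h
      linarith
    · rw [p.x_s (j := t + 1) ht, p.x_a ht.le, p.x_p ht, pow_split ht]
      ring
  · intro k hk hne
    rcases kinds p.m k hk with rfl | ⟨r, hr, rfl⟩ | ⟨r, hr, rfl⟩ | ⟨r, hr, rfl⟩ | rfl | rfl |
      rfl | rfl | rfl
    · rw [p.F_zero, p.F_zero]
    · rw [p.F_s _ hr, p.F_s _ hr]; rfl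
    · rw [p.F_a _ hr, p.F_a _ hr]; rfl
    · rw [p.F_p _ hr, p.F_p _ hr]
      have : r ≠ t := by rintro rfl; exact hne ⟨by omega, by omega⟩
      unfold uP stP
      simp only [Function.update_of_ne this]
    · rw [p.F_c, p.F_c]; rfl
    · rw [p.F_O, p.F_O]; rfl
    · rw [p.F_Q, p.F_Q]; rfl
    · rw [p.F_R, p.F_R]
    · rw [p.F_Z, p.F_Z]

theorem stB_U {j : ℕ} (hj : j ≤ s.d) : p.U (stB s).c j = p.U s.c j :=
  p.U_congr fun i hi => by
    unfold stB
    simp only
    rw [Function.update_of_ne (by omega)]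

theorem stB_U_succ : p.U (stB s).c (s.d + 1) =
    p.U s.c s.d + 2 * p.h s.d + p.H + (if s.al s.d = true then 2 * p.δ s.d else 0) := by
  rw [U_succ, stB_U le_rfl]
  simp [stB]

theorem stB_valid (hv : p.Valid s) (hd : s.d < p.m) : p.Valid (stB s) := by
  have hen := hv.en0 hd
  refine ⟨hd, ?_, ?_, ?_, fun _ => hen, ?_, ?_, ?_, ?_⟩
  · intro j hj
    have := hv.al_le j hj
    exact ⟨by simp only [stB]; omega, this.2⟩
  · intro j hj
    have := hv.pi_le j hj
    exact ⟨by simp only [stB]; omega, this.2⟩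
  · intro j hj
    by_cases e : j = s.d
    · subst e
      refine ⟨by simp only [stB]; omega, ?_⟩
      simpa [stB] using hj
    · have := hv.c_le j (by simpa [stB, Function.update_of_ne e] using hj)
      exact ⟨by simp only [stB]; omega, this.2⟩
  · intro h; simp only [stB] at h; rw [hen] at h; cases h
  · intro h; simp only [stB] at h; rw [hen] at h; cases h
  · intro h; simp only [stB] at h; rw [hen] at h; cases h
  · intro h; simp only [stB] at h; rw [hen] at h; cases h

theorem stB_rank : p.rank (stB s) = p.rank s + 1 := by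
  unfold rank stB
  simp only
  omega

/-- the values after the big flip; `u` is the direction of the top vertex -/
theorem stB_F (hok : p.Ok Y) (hv : p.Valid s) (hd : s.d < p.m) {u : ℝ}
    (hu : 2 * u = p.U (stB s).c (s.d + 1) + p.U s.c s.d - p.H) {k : ℕ} (h1 : 3 * s.d + 4 ≤ k)
    (h2 : k ≤ 3 * p.m + 2) : p.F (stB s) k = 2 * u * (-p.x k) - p.F s k := by
  have hen := hv.en0 hd
  have hd' : (stB s).d = s.d + 1 := rfl
  rcases kinds p.m k (by omega) with rfl | ⟨t, ht, rfl⟩ | ⟨t, ht, rfl⟩ | ⟨t, ht, rfl⟩ | rfl | rfl |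
    rfl | rfl | rfl
  · omega
  · rw [p.F_s _ ht, p.F_s _ ht, p.x_s ht]
    by_cases hpar : (t + s.d) % 2 = 0
    · rw [uS_even (s := s) (by omega) hpar, uS_odd (s := stB s) (by rw [hd']; omega)
        (by rw [hd']; omega), hd', hu]
      ring
    · rw [uS_odd (s := s) (by omega) hpar]
      by_cases e : t = s.d + 1
      · subst e
        rw [uS_le (by rw [hd']), hu]
        ring
      · rw [uS_even (s := stB s) (by rw [hd']; omega) (by rw [hd']; omega), hd', hu]
        ring
  · rw [p.F_a _ ht, p.F_a _ ht, p.x_a ht.le]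
    by_cases hpar : (t + s.d) % 2 = 0
    · rw [uA_even (s := s) (by omega) hpar, uA_odd (s := stB s) (by rw [hd']; omega)
        (by rw [hd']; omega), hd', hu]
      ring
    · rw [uA_odd (s := s) (by omega) hpar]
      by_cases e : t = s.d + 1
      · subst e
        have hal : s.al (s.d + 1) = false := by
          by_contra hc
          have := (hv.al_le _ (by simpa using hc)).1
          omega
        rw [uA_false (s := stB s) (by rw [hd']) hal, hu]
        ring
      · rw [uA_even (s := stB s) (by rw [hd']; omega) (by rw [hd']; omega), hd', hu]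
        ring
  · rw [p.F_p _ ht, p.F_p _ ht, p.x_p ht]
    by_cases hpar : (t + s.d) % 2 = 0
    · rw [uP_even (s := s) (by omega) hpar, uP_odd (s := stB s) (by rw [hd']; omega)
        (by rw [hd']; omega), hd', hu]
      ring
    · rw [uP_odd (s := s) (by omega) hpar, uP_even (s := stB s) (by rw [hd']; omega)
        (by rw [hd']; omega), hd', hu]
      ring
  · rw [p.F_c, p.F_c, p.x_a le_rfl, Nat.sub_self, fC_e0 hen, fC_e0 (s := stB s) hen, hd']
    by_cases hpar : (p.m + s.d) % 2 = 0
    · rw [if_pos hpar, if_neg (by omega), hu]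
      ring
    · rw [if_neg hpar, if_pos (by omega), hu]
      ring
  · omega
  · omega
  · omega
  · omega

theorem stB_same (hv : p.Valid s) (hd : s.d < p.m) {k : ℕ} (hk : k ≤ 3 * p.m + 6)
    (h : k ≤ 3 * s.d + 2 ∨ (k = 3 * s.d + 3 ∧ s.al s.d = false) ∨ 3 * p.m + 3 ≤ k) :
    p.F (stB s) k = p.F s k := by
  have hen := hv.en0 hd
  have hd' : (stB s).d = s.d + 1 := rfl
  rcases kinds p.m k hk with rfl | ⟨t, ht, rfl⟩ | ⟨t, ht, rfl⟩ | ⟨t, ht, rfl⟩ | rfl | rfl |
    rfl | rfl | rfl
  · rw [p.F_zero, p.F_zero]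
  · rw [p.F_s _ ht, p.F_s _ ht, uS_le (by rw [hd']; omega), uS_le (by omega), stB_U (by omega)]
  · rw [p.F_a _ ht, p.F_a _ ht]
    by_cases hal : s.al t = true
    · rw [uA_true (s := stB s) (by rw [hd']; omega) hal, uA_true (by omega) hal,
        stB_U (by omega)]
    · have hal' : s.al t = false := by simpa using hal
      rw [uA_false (s := stB s) (by rw [hd']; omega) hal', uA_false (by omega) hal',
        stB_U (by omega)]
  · rw [p.F_p _ ht, p.F_p _ ht]
    by_cases e : t = s.d
    · subst e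
      have hal : s.al s.d = false := by
        rcases h with h | h | h
        · omega
        · exact h.2
        · omega
      rw [uP_d, uP_al_false (s := stB s) (stB_valid hv hd) (by rw [hd']; omega) hal,
        stB_U le_rfl]
    · have htd : t < s.d := by omega
      unfold uP
      rw [if_pos (by rw [hd']; omega), if_pos htd, stB_U (by omega)]
      have : (stB s).c t = s.c t := by
        unfold stB
        simp only
        rw [Function.update_of_ne e]
      rw [this]
      rfl
  · omega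
  · rw [p.F_O, p.F_O, fO_e0 hen, fO_e0 (s := stB s) hen]
  · rw [p.F_Q, p.F_Q, fQ_e0 hen, fQ_e0 (s := stB s) hen]
  · rw [p.F_R, p.F_R]
  · rw [p.F_Z, p.F_Z]

theorem tr_B1 (hok : p.Ok Y) (hv : p.Valid s) (hd : s.d < p.m) (hal : s.al s.d = true) :
    p.Tr s (stB s) (3 * s.d + 2) (3 * p.m + 3) := by
  have hen := hv.en0 hd
  refine ⟨CP.aO hd hal, by omega, stB_valid hv hd, stB_rank, ?_, ?_⟩
  · intro k h1 h2
    have hΛ := six_pos (p.m - s.d)
    have hx : p.x (3 * p.m + 3) - p.x (3 * s.d + 2) ≠ 0 := by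
      rw [p.x_O, p.x_a hd.le]
      intro h
      linarith
    have hu : 2 * (p.U s.c s.d + p.h s.d + p.δ s.d) =
        p.U (stB s).c (s.d + 1) + p.U s.c s.d - p.H := by
      rw [stB_U_succ, hal, if_pos rfl]; ring
    rw [vref_of (-(p.U s.c s.d + p.h s.d + p.δ s.d) * (p.x k - p.x (3 * s.d + 2))) hx]
    · rw [p.F_a s hd, uA_true le_rfl hal]
      by_cases e : k = 3 * s.d + 3
      · subst e
        have hpi : (stB s).pi s.d = false := by
          by_contra hc
          have := (hv.pi_le s.d (by simpa [stB] using hc)).1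
          omega
        rw [p.F_p _ hd, p.F_p _ hd, uP_d,
          uP_ft (s := stB s) (by simp [stB]) hpi (by simpa [stB] using hal), stB_U le_rfl,
          p.x_p hd, p.x_a hd.le, pow_split hd]
        ring
      · rw [stB_F hok hv hd hu (by omega) (by omega), p.x_a hd.le]
        ring
    · rw [p.F_a s hd, uA_true le_rfl hal, p.F_O, fO_e0 hen, p.x_O, p.x_a hd.le]
      ring
  · intro k hk hne
    exact stB_same hv hd hk (by omega)

theorem tr_B0 (hok : p.Ok Y) (hv : p.Valid s) (hd : s.d < p.m) (hal : s.al s.d = false) :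
    p.Tr s (stB s) (3 * s.d + 3) (3 * p.m + 3) := by
  have hen := hv.en0 hd
  refine ⟨CP.pO hd hal, by omega, stB_valid hv hd, stB_rank, ?_, ?_⟩
  · intro k h1 h2
    have hΛ := six_pos (p.m - (s.d + 1))
    have hx : p.x (3 * p.m + 3) - p.x (3 * s.d + 3) ≠ 0 := by
      rw [p.x_O, p.x_p hd]
      intro h
      linarith
    have hu : 2 * (p.U s.c s.d + p.h s.d) =
        p.U (stB s).c (s.d + 1) + p.U s.c s.d - p.H := by
      rw [stB_U_succ, hal]
      simp only [Bool.false_eq_true, if_false]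
      ring
    rw [vref_of (-(p.U s.c s.d + p.h s.d) * (p.x k - p.x (3 * s.d + 3))) hx]
    · rw [p.F_p s hd, uP_d, stB_F hok hv hd hu (by omega) (by omega), p.x_p hd]
      ring
    · rw [p.F_p s hd, uP_d, p.F_O, fO_e0 hen, p.x_O, p.x_p hd]
      ring
  · intro k hk hne
    refine stB_same hv hd hk ?_
    by_cases e : k = 3 * s.d + 3
    · exact Or.inr (Or.inl ⟨e, hal⟩)
    · omega

theorem stE_F {e : En} {k : ℕ} (hk : k ≤ 3 * p.m + 6)
    (hc : k = 3 * p.m + 2 → p.fC (stE s e) = p.fC s)
    (hO : k = 3 * p.m + 3 → p.fO (stE s e) = p.fO s)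
    (hQ : k = 3 * p.m + 4 → p.fQ (stE s e) = p.fQ s) : p.F (stE s e) k = p.F s k := by
  rcases kinds p.m k hk with rfl | ⟨r, hr, rfl⟩ | ⟨r, hr, rfl⟩ | ⟨r, hr, rfl⟩ | rfl | rfl |
    rfl | rfl | rfl
  · rw [p.F_zero, p.F_zero]
  · rw [p.F_s _ hr, p.F_s _ hr]; rfl
  · rw [p.F_a _ hr, p.F_a _ hr]; rfl
  · rw [p.F_p _ hr, p.F_p _ hr]; rfl
  · rw [p.F_c, p.F_c]; exact hc rfl
  · rw [p.F_O, p.F_O]; exact hO rfl
  · rw [p.F_Q, p.F_Q]; exact hQ rfl
  · rw [p.F_R, p.F_R]
  · rw [p.F_Z, p.F_Z]

theorem tr_wO (hok : p.Ok Y) (hv : p.Valid s) (hd : s.d = p.m) (hen : s.en = En.e0)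
    (h : p.q1 + p.U s.c p.m < 0) : p.Tr s (stE s En.a1) (3 * p.m + 1) (3 * p.m + 3) := by
  have hf := (hok.fin s.c).e3
  refine ⟨CP.wO hd hen h, by omega, ?_, ?_, ?_, ?_⟩
  · refine ⟨hv.dm, hv.al_le, hv.pi_le, hv.c_le, fun h' => ?_, fun _ => ?_, fun h' => ?_,
      fun h' => ?_, fun h' => ?_⟩
    · simp only [stE] at h'; omega
    · rcases hf with h' | h'
      · exact h'
      · simp only [stE]; linarith
    · simp only [stE] at h'; cases h'
    · simp only [stE] at h'; cases h'
    · simp only [stE] at h'; cases h'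
  · unfold rank stE
    simp only [hen, En.rank]
  · intro k h1 h2
    have : k = 3 * p.m + 2 := by omega
    subst this
    rw [vref_of ((p.F s (3 * p.m + 3) - p.F s (3 * p.m + 1)) / 2)]
    · rw [p.F_c, p.F_c, p.F_O, p.F_s s le_rfl, uS_le (by omega), fO_e0 hen, fC_e0 hen,
        if_pos (by omega), hd, Nat.sub_self]
      simp only [fC, stE]
      ring
    · rw [p.x_O, p.x_s le_rfl, Nat.sub_self]; norm_num
    · rw [p.x_O, p.x_s le_rfl, p.x_a le_rfl, Nat.sub_self]; ring
  · intro k hk hne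
    refine stE_F hk (fun e => ?_) (fun e => ?_) (fun e => ?_)
    · exact absurd ⟨by omega, by omega⟩ hne
    · simp only [fO, stE, hen]
    · simp only [fQ, stE, hen]

theorem tr_wQ (hok : p.Ok Y) (hv : p.Valid s) (hd : s.d = p.m) (hen : s.en = En.e0)
    (h : ¬ p.q1 + p.U s.c p.m < 0) : p.Tr s (stE s En.b1) (3 * p.m + 1) (3 * p.m + 4) := by
  have hf := (hok.fin s.c).e3
  refine ⟨CP.wQ hd hen h, by omega, ?_, ?_, ?_, ?_⟩
  · refine ⟨hv.dm, hv.al_le, hv.pi_le, hv.c_le, fun h' => ?_, fun h' => ?_, fun _ => ?_,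
      fun h' => ?_, fun h' => ?_⟩
    · simp only [stE] at h'; omega
    · simp only [stE] at h'; cases h'
    · rcases hf with h' | h'
      · exact absurd (by linarith) h
      · exact h'
    · simp only [stE] at h'; cases h'
    · simp only [stE] at h'; cases h'
  · unfold rank stE
    simp only [hen, En.rank]
  · intro k h1 h2
    have : k = 3 * p.m + 2 ∨ k = 3 * p.m + 3 := by omega
    rcases this with rfl | rfl
    · rw [vref_of ((p.F s (3 * p.m + 4) - p.F s (3 * p.m + 1)) / 4)]
      · rw [p.F_c, p.F_c, p.F_Q, p.F_s s le_rfl, uS_le (by omega), fQ_e0 hen, fC_e0 hen,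
          if_pos (by omega), hd, Nat.sub_self]
        simp only [fC, stE]
        ring
      · rw [p.x_Q, p.x_s le_rfl, Nat.sub_self]; norm_num
      · rw [p.x_Q, p.x_s le_rfl, p.x_a le_rfl, Nat.sub_self]; ring
    · rw [vref_of ((p.F s (3 * p.m + 4) - p.F s (3 * p.m + 1)) / 2)]
      · rw [p.F_O, p.F_O, p.F_Q, p.F_s s le_rfl, uS_le (by omega), fQ_e0 hen, fO_e0 hen,
          Nat.sub_self]
        simp only [fO, stE]
        ring
      · rw [p.x_Q, p.x_s le_rfl, Nat.sub_self]; norm_num
      · rw [p.x_Q, p.x_s le_rfl, p.x_O, Nat.sub_self]; ring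
  · intro k hk hne
    refine stE_F hk (fun e => ?_) (fun e => ?_) (fun e => ?_)
    · exact absurd ⟨by omega, by omega⟩ hne
    · exact absurd ⟨by omega, by omega⟩ hne
    · simp only [fQ, stE, hen]

theorem tr_cQ (hok : p.Ok Y) (hv : p.Valid s) (hd : s.d = p.m) (hen : s.en = En.b1)
    (h1 : ¬ p.κ < p.q1 + p.U s.c p.m) (h2 : p.q2 + p.U s.c p.m < 0) :
    p.Tr s (stE s En.c2) (3 * p.m + 2) (3 * p.m + 4) := by
  have hf := (hok.fin s.c).e4
  refine ⟨CP.cQ hd hen h1 h2, by omega, ?_, ?_, ?_, ?_⟩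
  · refine ⟨hv.dm, hv.al_le, hv.pi_le, hv.c_le, fun h' => ?_, fun h' => ?_, fun h' => ?_,
      fun _ => ⟨hv.enb hen, ?_⟩, fun h' => ?_⟩
    · simp only [stE] at h'; omega
    · simp only [stE] at h'; cases h'
    · simp only [stE] at h'; cases h'
    · rcases hf with h' | h'
      · exact h'
      · exact absurd (by linarith) h1
    · simp only [stE] at h'; cases h'
  · unfold rank stE
    simp only [hen, En.rank]
  · intro k h3 h4
    have : k = 3 * p.m + 3 := by omega
    subst this
    rw [vref_of ((p.F s (3 * p.m + 4) - p.F s (3 * p.m + 2)) / 3)]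
    · rw [p.F_c, p.F_O, p.F_O, p.F_Q]
      simp only [fC, fO, fQ, stE, hen]
      ring
    · rw [p.x_Q, p.x_a le_rfl, Nat.sub_self]; norm_num
    · rw [p.x_Q, p.x_O, p.x_a le_rfl, Nat.sub_self]; ring
  · intro k hk hne
    refine stE_F hk (fun e => ?_) (fun e => ?_) (fun e => ?_)
    · simp only [fC, stE, hen]
    · exact absurd ⟨by omega, by omega⟩ hne
    · simp only [fQ, stE, hen]

theorem tr_OR (hok : p.Ok Y) (hv : p.Valid s) (hd : s.d = p.m) (hen : s.en = En.b1)
    (h1 : p.κ < p.q1 + p.U s.c p.m) (h2 : ¬ p.q2 + p.U s.c p.m < 0) :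
    p.Tr s (stE s En.d2) (3 * p.m + 3) (3 * p.m + 5) := by
  have hf := (hok.fin s.c).e6
  refine ⟨CP.OR hd hen h1 h2, by omega, ?_, ?_, ?_, ?_⟩
  · refine ⟨hv.dm, hv.al_le, hv.pi_le, hv.c_le, fun h' => ?_, fun h' => ?_, fun h' => ?_,
      fun h' => ?_, fun _ => ⟨hv.enb hen, ?_⟩⟩
    · simp only [stE] at h'; omega
    · simp only [stE] at h'; cases h'
    · simp only [stE] at h'; cases h'
    · simp only [stE] at h'; cases h'
    · rcases hf with h' | h'
      · exact absurd (by linarith) h2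
      · exact h'
  · unfold rank stE
    simp only [hen, En.rank]
  · intro k h3 h4
    have : k = 3 * p.m + 4 := by omega
    subst this
    rw [vref_of ((p.F s (3 * p.m + 5) - p.F s (3 * p.m + 3)) / 2)]
    · rw [p.F_O, p.F_Q, p.F_Q, p.F_R]
      simp only [fO, fQ, stE, hen]
      ring
    · rw [p.x_R, p.x_O]; norm_num
    · rw [p.x_R, p.x_O, p.x_Q]; ring
  · intro k hk hne
    refine stE_F hk (fun e => ?_) (fun e => ?_) (fun e => ?_)
    · simp only [fC, stE, hen]
    · simp only [fO, stE, hen]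
    · exact absurd ⟨by omega, by omega⟩ hne

theorem tr_exists (hok : p.Ok Y) (hv : p.Valid s) {i j : ℕ} (h : p.CP s i j) (hg : i + 2 ≤ j) :
    ∃ s', p.Tr s s' i j := by
  cases h with
  | l => omega
  | sa t ht htd hal => omega
  | sp t ht htd hal => exact ⟨_, tr_A hok hv ht htd hal⟩
  | ap t ht htd hal hpi => omega
  | as t ht htd hal hpi => exact ⟨_, tr_P hok hv ht htd hal hpi⟩
  | ps t ht htd hor => omega
  | aO hd hal => exact ⟨_, tr_B1 hok hv hd hal⟩
  | pO hd hal => exact ⟨_, tr_B0 hok hv hd hal⟩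
  | oq hd => omega
  | qr hd => omega
  | rz => omega
  | wO hd hen ho => exact ⟨_, tr_wO hok hv hd hen ho⟩
  | OQ0 hd hen ho => omega
  | QR0 hd hen => omega
  | wQ hd hen ho => exact ⟨_, tr_wQ hok hv hd hen ho⟩
  | wc hd hen => omega
  | cO hd hen ho => omega
  | cQ hd hen ho hq => exact ⟨_, tr_cQ hok hv hd hen ho hq⟩
  | OQ hd hen ho hq => omega
  | OR hd hen ho hq => exact ⟨_, tr_OR hok hv hd hen ho hq⟩
  | QR hd hen hq => omega

end Par

end Pool.Agent.Helper480_Flip
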